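import Pool.Agent.Helper514.IoD

/-!
# Invariance of domain for manifolds
-/

set_option autoImplicit false

open Set Filter Topology Metric Function

namespace Pool.Agent.V1127.Iso

/-- continuous injective maps between topological manifolds of the same dimension are open -/
theorem isOpenMap_of_injective {n : ℕ} {X Y : Type} [TopologicalSpace X]
    [ChartedSpace (EuclideanSpace ℝ (Fin n)) X] [TopologicalSpace Y]
    [ChartedSpace (EuclideanSpace ℝ (Fin n)) Y] {f : X → Y} (hc : Continuous f)
    (hi : Injective f) : IsOpenMap f := by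
  rw [isOpenMap_iff_nhds_le]
  intro x t ht
  have hs : f ⁻¹' t ∈ 𝓝 x := ht
  suffices h : f '' (f ⁻¹' t) ∈ 𝓝 (f x) from mem_of_superset h (image_preimage_subset f t)
  generalize f ⁻¹' t = s at hs
  let c := chartAt (EuclideanSpace ℝ (Fin n)) x
  let d := chartAt (EuclideanSpace ℝ (Fin n)) (f x)
  have hcx : x ∈ c.source := mem_chart_source _ x
  have hdx : f x ∈ d.source := mem_chart_source _ (f x)
  have h1 : c.symm ⁻¹' (s ∩ f ⁻¹' d.source) ∈ 𝓝 (c x) := by
    have h2 : s ∩ f ⁻¹' d.source ∈ 𝓝 x :=
      inter_mem hs ((d.open_source.preimage hc).mem_nhds hdx)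
    have h3 : Tendsto c.symm (𝓝 (c x)) (𝓝 x) := by
      have := c.continuousAt_symm (c.map_source hcx)
      rwa [ContinuousAt, c.left_inv hcx] at this
    exact h3 h2
  have h4 : c.target ∈ 𝓝 (c x) := c.open_target.mem_nhds (c.map_source hcx)
  obtain ⟨r, hr, hball⟩ := Metric.nhds_basis_closedBall.mem_iff.1 (inter_mem h1 h4)
  have hFc : ContinuousOn (fun z => d (f (c.symm z))) (closedBall (c x) r) := by
    refine d.continuousOn.comp (hc.comp_continuousOn
      (c.continuousOn_symm.mono fun z hz => (hball hz).2)) fun z hz => (hball hz).1.2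
  have hFi : InjOn (fun z => d (f (c.symm z))) (closedBall (c x) r) := by
    intro z hz w hw h
    exact c.symm.injOn (hball hz).2 (hball hw).2
      (hi (d.injOn (hball hz).1.2 (hball hw).1.2 h))
  have h5 := Pool.Agent.Helper514.IoD.image_mem_nhds (fun z => d (f (c.symm z))) (c x) r hr
    hFc hFi
  have h6 : d (f (c.symm (c x))) = d (f x) := by rw [c.left_inv hcx]
  rw [h6] at h5
  have h7 : d ⁻¹' ((fun z => d (f (c.symm z))) '' closedBall (c x) r) ∩ d.source ∈ 𝓝 (f x) :=
    inter_mem ((d.continuousAt hdx) h5) (d.open_source.mem_nhds hdx)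
  filter_upwards [h7] with y hy
  obtain ⟨⟨z, hz, hzy⟩, hyd⟩ := hy
  exact ⟨c.symm z, (hball hz).1.1, d.injOn (hball hz).1.2 hyd hzy⟩

/-- continuous bijections between topological manifolds of the same dimension are
homeomorphisms -/
theorem isHomeomorph_of_bijective {n : ℕ} {X Y : Type} [TopologicalSpace X]
    [ChartedSpace (EuclideanSpace ℝ (Fin n)) X] [TopologicalSpace Y]
    [ChartedSpace (EuclideanSpace ℝ (Fin n)) Y] {f : X → Y} (hc : Continuous f)
    (hb : Bijective f) : IsHomeomorph f :=
  ⟨hc, isOpenMap_of_injective (n := n) hc hb.1, hb⟩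

end Pool.Agent.V1127.Iso
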