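import Pool.Agent.V1127.Iso.StepP
import Pool.Agent.V1127.Co.All

/-!
# Smooth bijections of corank at most one: removal of the singular set along a smooth path
-/

set_option autoImplicit false

open Set Filter Topology Metric Function
open scoped Manifold ContDiff

noncomputable section

namespace Pool.Agent.V1127.Iso

open Pool.Agent.Y522 Pool.Agent.Y522.NA Pool.Agent.Y170.NA

variable {m : ℕ} {X Y : Type} [TopologicalSpace X] [T2Space X] [ChartedSpace (E (m + 1)) X]
  [IsManifold (𝓡 (m + 1)) ∞ X] [TopologicalSpace Y] [ChartedSpace (E (m + 1)) Y]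
  [IsManifold (𝓡 (m + 1)) ∞ Y]

/-- the data around a point -/
theorem exists_dt (f : X → Y) (hf : ContMDiff (𝓡 (m + 1)) (𝓡 (m + 1)) ∞ f) (hi : Injective f)
    (x : X) (hx : m ≤ Module.finrank ℝ
      (LinearMap.range (mfderiv (𝓡 (m + 1)) (𝓡 (m + 1)) f x).toLinearMap))
    (W : Set X) (hW : W ∈ 𝓝 x) :
    ∃ D : Dt m f, ((D.A 0 : D.U) : X) = x ∧ (D.U : Set X) ⊆ W := by
  have : LocallyCompactSpace X := ChartedSpace.locallyCompactSpace (E (m + 1)) X
  set e := chartAt (E (m + 1)) (f x) with he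
  have hs : W ∩ f ⁻¹' e.source ∈ 𝓝 x := Filter.inter_mem hW
    (hf.continuous.continuousAt.preimage_mem_nhds
      (e.open_source.mem_nhds (mem_chart_source (E (m + 1)) (f x))))
  obtain ⟨t, ht, htc, hts⟩ := exists_mem_nhds_isClosed_subset hs
  let U : TopologicalSpace.Opens X := ⟨interior t, isOpen_interior⟩
  have hxU : x ∈ U := mem_interior_iff_mem_nhds.2 ht
  have hclo : closure (U : Set X) ⊆ t := closure_minimal interior_subset htc
  have hsrc : ∀ u : U, f u ∈ e.source := fun u => (hts (interior_subset u.2)).2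
  have heLD : ∀ y ∈ e.source, LD (m + 1) (e : Y → E (m + 1)) y := fun y hy =>
    Pool.Agent.Y66.CM.LD_chart _ y hy
  have hsm : ContMDiff (𝓡 (m + 1)) (𝓡 (m + 1)) ∞ (fun u : U => e (f u)) := fun u =>
    (heLD _ (hsrc u)).contMDiffAt.comp u (hf.contMDiffAt.comp u contMDiff_subtype_val.contMDiffAt)
  have hFi : Injective (fun u : U => e (f u)) := fun u v huv =>
    Subtype.ext (hi (e.injOn (hsrc u) (hsrc v) huv))
  obtain ⟨A, L, b, hA0, hNB⟩ := Pool.Agent.Y47.SH.nbox m U (fun u : U => e (f u)) hsm.continuous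
    hFi ⟨x, hxU⟩ (Pool.Agent.V1127.Co.coord_of_rank f hf x hx U hxU hsrc)
  obtain ⟨η, hη, hη8, hstep⟩ := hStepS m U (fun u : U => e (f u)) A L b
    hsm.continuous hNB
  refine ⟨{ U := U, y0 := f x, A := A, L := L, b := b, η := η,
            clo := fun z hz => (hts (hclo hz)).2, nb := hNB, pos := hη, le8 := hη8,
            step := hstep }, ?_, ?_⟩
  · show ((A 0 : U) : X) = x
    rw [hA0]
  · exact fun z hz => (hts (interior_subset hz)).1

/-- **Removal of the singular set of a smooth bijection of corank at most one, along a smooth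
path of such bijections.** -/
theorem removal_p (f : X → Y) (hG : Gen m f)
    (S : Set X) (hS : IsCompact S) (hSL : ∀ x, x ∉ S → LD (m + 1) f x)
    (W : Set X) (hW : IsOpen W) (hSW : S ⊆ W) (O : Set (X × Y)) (hO : IsOpen O)
    (hfO : ∀ x, (x, f x) ∈ O) :
    ∃ f' : X → Y, (∀ x, (x, f' x) ∈ O) ∧ Bijective f' ∧ (∀ x, LD (m + 1) f' x) ∧
      (∀ x, x ∉ W → f' x = f x) ∧ Pth m O W f f f' := by
  classical
  obtain ⟨hf, hb, hr'⟩ := id hG
  have hr : ∀ x ∈ S, m ≤ Module.finrank ℝ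
      (LinearMap.range (mfderiv (𝓡 (m + 1)) (𝓡 (m + 1)) f x).toLinearMap) := fun x _ => hr' x
  rcases S.eq_empty_or_nonempty with hE | ⟨x0, hx0⟩
  · exact ⟨f, hfO, hb, fun x => hSL x (by rw [hE]; exact notMem_empty x),
      fun x _ => rfl, Pth.refl hG hfO fun _ _ => rfl⟩
  obtain ⟨D0, -, -⟩ := exists_dt f hf hb.1 x0 (hr x0 hx0) W (hW.mem_nhds (hSW hx0))
  have : Nonempty (Dt m f) := ⟨D0⟩
  have hex : ∀ x, x ∈ S → ∃ D : Dt m f, ((D.A 0 : D.U) : X) = x ∧ (D.U : Set X) ⊆ W :=
    fun x hx => exists_dt f hf hb.1 x (hr x hx) W (hW.mem_nhds (hSW hx))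
  choose! D hD0 hDW using hex
  have hbox : box m (1 / 4) (1 / 4) ∈ 𝓝 (0 : E (m + 1)) := by
    refine mem_of_superset ((Pool.Agent.Y870.SH.open_small_box (m := m) (1 / 4)).mem_nhds ?_) ?_
    · constructor
      · rw [map_zero, norm_zero]; norm_num
      · show |(0 : ℝ)| < 1 / 4
        norm_num
    · exact fun z hz => ⟨hz.1.le, hz.2.le⟩
  have h0box : (0 : E (m + 1)) ∈ box m 1 1 := by
    constructor
    · rw [map_zero, norm_zero]; norm_num
    · show |(0 : ℝ)| ≤ 1
      norm_num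
  have hcov : ∀ x ∈ S, (fun z => (((D x).A z : (D x).U) : X)) '' box m (1 / 4) (1 / 4) ∈ 𝓝 x := by
    intro x hx
    have h1 : LD (m + 1) (fun z => (((D x).A z : (D x).U) : X)) 0 :=
      LD.comp_fun (LD_val _ _) ((D x).nb.ld 0 h0box)
    have h2 := h1.image_mem_nhds hbox
    rwa [hD0 x hx] at h2
  obtain ⟨t, htS, htc⟩ := hS.elim_nhds_subcover _ hcov
  set N := t.card with hN
  let D' : Fin N → Dt m f := fun i => D (t.equivFin.symm i : X)
  have hD'W : ∀ i, ((D' i).U : Set X) ⊆ W := fun i =>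
    hDW _ (htS _ (t.equivFin.symm i).2)
  obtain ⟨O', hO'⟩ : ∃ O' : Set (X × Y), O' = O ∩ ⋂ i : Fin N,
      ({p : X × Y | p.1 ∉ closure ((D' i).U : Set X)} ∪
        ({p : X × Y | f p.1 ∈ (chartAt (E (m + 1)) (D' i).y0).source ∧
          p.2 ∈ (chartAt (E (m + 1)) (D' i).y0).source} ∩
          (fun p : X × Y => ‖chartAt (E (m + 1)) (D' i).y0 p.2 -
            chartAt (E (m + 1)) (D' i).y0 (f p.1)‖) ⁻¹' Iio (D' i).η)) := ⟨_, rfl⟩
  have hO'o : IsOpen O' := by
    rw [hO']
    refine hO.inter (isOpen_iInter_of_finite fun i => ?_)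
    refine (isClosed_closure.isOpen_compl.preimage continuous_fst).union ?_
    set e := chartAt (E (m + 1)) (D' i).y0
    have ho : IsOpen {p : X × Y | f p.1 ∈ e.source ∧ p.2 ∈ e.source} :=
      (e.open_source.preimage (hf.continuous.comp continuous_fst)).inter
        (e.open_source.preimage continuous_snd)
    refine ContinuousOn.isOpen_inter_preimage ?_ ho isOpen_Iio
    have c1 : ContinuousOn (fun p : X × Y => e p.2)
        {p : X × Y | f p.1 ∈ e.source ∧ p.2 ∈ e.source} :=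
      e.continuousOn.comp continuous_snd.continuousOn fun p hp => hp.2
    have c2 : ContinuousOn (fun p : X × Y => e (f p.1))
        {p : X × Y | f p.1 ∈ e.source ∧ p.2 ∈ e.source} :=
      e.continuousOn.comp (hf.continuous.comp continuous_fst).continuousOn fun p hp => hp.1
    exact (c1.sub c2).norm
  have hfO' : ∀ x, (x, f x) ∈ O' := by
    intro x
    rw [hO']
    refine ⟨hfO x, mem_iInter.2 fun i => ?_⟩
    by_cases hx : x ∈ closure ((D' i).U : Set X)
    · refine Or.inr ⟨⟨(D' i).clo x hx, (D' i).clo x hx⟩, ?_⟩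
      show ‖_ - _‖ < _
      rw [sub_self, norm_zero]
      exact (D' i).pos
    · exact Or.inl hx
  have hOD : ∀ p ∈ O', ∀ j, p.1 ∈ closure ((D' j).U : Set X) →
      p.2 ∈ (chartAt (E (m + 1)) (D' j).y0).source ∧
      ‖chartAt (E (m + 1)) (D' j).y0 p.2 - chartAt (E (m + 1)) (D' j).y0 (f p.1)‖
        < (D' j).η := by
    intro p hp j hj
    rw [hO'] at hp
    rcases mem_iInter.1 hp.2 j with h | h
    · exact absurd hj h
    · exact ⟨h.1.2, h.2⟩
  have hind : ∀ k : ℕ, k ≤ N → ∃ G : X → Y, Iv m f D' O' k G ∧ (∀ x, x ∉ W → G x = f x) ∧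
      (∀ x, LD (m + 1) f x → LD (m + 1) G x) ∧ Pth m O' W f f G := by
    intro k
    induction k with
    | zero =>
      intro _
      refine ⟨f, ⟨hG, hfO', ?_, ?_⟩, fun x _ => rfl, fun x hx => hx,
        Pth.refl hG hfO' fun _ _ => rfl⟩
      · intro j z hz
        have h1 := Pool.Agent.Y870.SH.NBox_fderiv (D' j).nb hz
        rw [h1, sub_self, norm_zero]
        exact (D' j).pos
      · intro i hi
        exact absurd hi (Nat.not_lt_zero _)
    | succ k ih =>
      intro hk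
      obtain ⟨G, hG1, hG2, hG3, hH⟩ := ih (by omega)
      obtain ⟨G', hG1', hG2', hG3', hG4'⟩ := step_p f D' O' hO'o hOD k (by omega) G hG1
      refine ⟨G', hG1', fun x hx => ?_, fun x hx => hG3' x (hG3 x hx),
        hH.trans (hG4' W (hD'W _) hG2)⟩
      rw [hG2' x (fun h => hx (hD'W _ h)), hG2 x hx]
  obtain ⟨G, hG1, hG2, hG3, hH⟩ := hind N le_rfl
  refine ⟨G, fun x => ?_, hG1.gen.2.1, fun x => ?_, hG2, ?_⟩
  · have := hG1.gr x
    rw [hO'] at this
    exact this.1
  · by_cases hx : x ∈ S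
    · obtain ⟨y, hy, hxy⟩ := mem_iUnion₂.1 (htc hx)
      obtain ⟨z, hz, rfl⟩ := hxy
      have h1 := hG1.good (t.equivFin ⟨y, hy⟩) (t.equivFin ⟨y, hy⟩).2 z hz
      have h2 : D' (t.equivFin ⟨y, hy⟩) = D y := by
        show D (t.equivFin.symm (t.equivFin ⟨y, hy⟩) : X) = D y
        rw [Equiv.symm_apply_apply]
      rw [h2] at h1
      exact h1
    · exact hG3 x (hSL x hx)
  · exact hH.mono (fun p hp => (hO'.subset hp).1) (subset_refl W)

end Pool.Agent.V1127.Iso
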