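import Pool.Agent.V1127.Iso.Off
import Pool.Agent.V1127.Iso.Dom
import Pool.Agent.Y674.SH.Final2

/-!
# Homeomorphisms onto the ball which are smooth of corank at most one off a closed set
-/

set_option autoImplicit false

open Set Filter Topology Metric Function
open scoped Manifold ContDiff

noncomputable section

namespace Pool.Agent.V1127.Iso

open Pool.Agent.Y522 Pool.Agent.Y833.SH Pool.Agent.Y674.SH

/-- the diffeomorphism of the Euclidean space onto the unit ball -/
abbrev uu (n : ℕ) : OpenPartialHomeomorph (E n) (E n) := OpenPartialHomeomorph.univUnitBall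

theorem uu_mem {n : ℕ} (y : E n) : ‖uu n y‖ < 1 := by
  rw [← mem_ball_zero_iff]
  exact (uu n).map_source (mem_univ y)

theorem uu_symm {n : ℕ} {y : E n} (hy : ‖y‖ < 1) : uu n ((uu n).symm y) = y :=
  (uu n).right_inv (mem_ball_zero_iff.2 hy)

theorem symm_uu {n : ℕ} (y : E n) : (uu n).symm (uu n y) = y := (uu n).left_inv (mem_univ y)

theorem LD_uu {n : ℕ} (y : E n) : LD n (uu n) y := by
  refine ⟨{ toFun := uu n, invFun := (uu n).symm, source := univ, target := ball 0 1,
            map_source' := fun y _ => (uu n).map_source (mem_univ y),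
            map_target' := fun _ _ => mem_univ _,
            left_inv' := fun y _ => symm_uu y,
            right_inv' := fun y hy => uu_symm (mem_ball_zero_iff.1 hy),
            open_source := isOpen_univ, open_target := isOpen_ball,
            contMDiffOn_toFun :=
              (OpenPartialHomeomorph.contDiff_univUnitBall (n := ⊤)).contMDiff.contMDiffOn,
            contMDiffOn_invFun :=
              (OpenPartialHomeomorph.contDiffOn_univUnitBall_symm (n := ⊤)).contMDiffOn },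
    mem_univ _, fun _ _ => rfl⟩

theorem LD_uu_symm {n : ℕ} (y : E n) (hy : ‖y‖ < 1) : LD n (uu n).symm y := by
  refine ⟨{ toFun := (uu n).symm, invFun := uu n, source := ball 0 1, target := univ,
            map_source' := fun _ _ => mem_univ _,
            map_target' := fun y _ => (uu n).map_source (mem_univ y),
            left_inv' := fun y hy => uu_symm (mem_ball_zero_iff.1 hy),
            right_inv' := fun y _ => symm_uu y,
            open_source := isOpen_ball, open_target := isOpen_univ,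
            contMDiffOn_toFun :=
              (OpenPartialHomeomorph.contDiffOn_univUnitBall_symm (n := ⊤)).contMDiffOn,
            contMDiffOn_invFun :=
              (OpenPartialHomeomorph.contDiff_univUnitBall (n := ⊤)).contMDiff.contMDiffOn },
    mem_ball_zero_iff.2 hy, fun _ _ => rfl⟩

theorem bd_core (m : ℕ) (M N X : Type) [TopologicalSpace M] [TopologicalSpace N]
    [TopologicalSpace X]
    [ChartedSpace (EuclideanHalfSpace (m + 1)) M] [ChartedSpace (EuclideanHalfSpace (m + 1)) N]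
    [ChartedSpace (E (m + 1)) X]
    [IsManifold (𝓡∂ (m + 1)) ∞ M] [IsManifold (𝓡∂ (m + 1)) ∞ N] [IsManifold (𝓡 (m + 1)) ∞ X]
    (ι : X → M) (hι : Injective ι) (hιr : range ι = (𝓡∂ (m + 1)).interior M)
    (hιd : ∀ x, IsLocalDiffeomorphAt (𝓡 (m + 1)) (𝓡∂ (m + 1)) ∞ ι x)
    (h : M ≃ₜ closedBall (0 : E (m + 1)) 1) (j : N ≃ₜ closedBall (0 : E (m + 1)) 1)
    (hj : ∀ y ∈ (𝓡∂ (m + 1)).interior N,
      IsLocalDiffeomorphAt (𝓡∂ (m + 1)) (𝓡 (m + 1)) ∞ (fun y => (j y : E (m + 1))) y)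
    (S : Set M) (hS : IsClosed S)
    (hb : ∀ x, x ∉ S → x ∉ (𝓡∂ (m + 1)).interior M →
      IsLocalDiffeomorphAt (𝓡∂ (m + 1)) (𝓡∂ (m + 1)) ∞ (fun x => j.symm (h x)) x)
    (hs : ∀ x, x ∉ S → x ∈ (𝓡∂ (m + 1)).interior M →
      ContMDiffAt (𝓡∂ (m + 1)) (𝓡 (m + 1)) ∞ (fun x => (h x : E (m + 1))) x)
    (hr : ∀ x, x ∉ S → x ∈ (𝓡∂ (m + 1)).interior M → m ≤ Module.finrank ℝ (LinearMap.range
      (mfderiv (𝓡∂ (m + 1)) (𝓡 (m + 1)) (fun x => (h x : E (m + 1))) x).toLinearMap))
    (w : ℝ) (hw : 0 < w) :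
    ∃ G : M ≃ₜ closedBall (0 : E (m + 1)) 1, (∀ x, ‖(G x : E (m + 1)) - h x‖ ≤ w) ∧
      (∀ x, (x ∈ S ∨ x ∉ (𝓡∂ (m + 1)).interior M) → G x = h x) ∧
      ∀ x, x ∉ S →
        IsLocalDiffeomorphAt (𝓡∂ (m + 1)) (𝓡∂ (m + 1)) ∞ (fun x => j.symm (G x)) x := by
  classical
  have hMi : ∀ x, x ∈ (𝓡∂ (m + 1)).interior M ↔ ‖(h x : E (m + 1))‖ < 1 :=
    int_iff (𝓡∂ (m + 1)) inferInstance h
  have hNi : ∀ x, x ∈ (𝓡∂ (m + 1)).interior N ↔ ‖(j x : E (m + 1))‖ < 1 :=
    int_iff (𝓡∂ (m + 1)) inferInstance j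
  have : T2Space M := h.symm.t2Space
  have : CompactSpace M := h.symm.compactSpace
  have hιc : Continuous ι := continuous_iff_continuousAt.2 fun x => (hιd x).contMDiffAt.continuousAt
  have : T2Space X := T2Space.of_injective_continuous hι hιc
  have hιo : IsOpenMap ι := IsLocalDiffeomorph.isOpenMap (I := 𝓡 (m + 1)) (J := 𝓡∂ (m + 1))
    (n := ∞) hιd
  have hemb : IsOpenEmbedding ι := IsOpenEmbedding.of_continuous_injective_isOpenMap hιc hι hιo
  have hmem : ∀ x, ι x ∈ (𝓡∂ (m + 1)).interior M := fun x => hιr ▸ mem_range_self x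
  obtain ⟨F, hF⟩ : ∃ F : X → E (m + 1), F = fun x => (h (ι x) : E (m + 1)) := ⟨_, rfl⟩
  have hFe : ∀ x, F x = h (ι x) := fun x => by rw [hF]
  have hFn : ∀ x, ‖F x‖ < 1 := fun x => by rw [hFe]; exact (hMi _).1 (hmem x)
  have hFc : Continuous F := by
    rw [hF]
    exact continuous_subtype_val.comp (h.continuous.comp hιc)
  -- the homeomorphism of `X` onto the Euclidean space
  let f : X ≃ₜ E (m + 1) := hemb.toHomeomorph.trans
    ((Homeomorph.setCongr hιr).trans
      (Pool.Agent.Y833.SH.HH (𝓡∂ (m + 1)) inferInstance h))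
  have hf : ∀ x, f x = (uu (m + 1)).symm (F x) := fun x => by rw [hFe]; rfl
  have hUf : ∀ x, uu (m + 1) (f x) = F x := fun x => by rw [hf, uu_symm (hFn x)]
  have i1 : SigmaCompactSpace X := f.isClosedEmbedding.sigmaCompactSpace
  -- local diffeomorphism
  have hld : ∀ x, IsLocalDiffeomorphAt (𝓡∂ (m + 1)) (𝓡∂ (m + 1)) ∞ (fun x => j.symm (h x)) (ι x) →
      LD (m + 1) F x := by
    intro x hx
    have h1 := IsLocalDiffeomorphAt.comp (𝓡∂ (m + 1)) N (hιd x) hx
    have h2 : IsLocalDiffeomorphAt (𝓡∂ (m + 1)) (𝓡 (m + 1)) ∞ (fun y => (j y : E (m + 1)))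
        (((fun x => j.symm (h x)) ∘ ι) x) := by
      refine hj _ ((hNi _).2 ?_)
      simp only [comp_apply, Homeomorph.apply_symm_apply]
      rw [← hFe]
      exact hFn x
    have h3 := IsLocalDiffeomorphAt.comp (𝓡 (m + 1)) (E (m + 1)) h1 h2
    have h4 : (fun y => (j y : E (m + 1))) ∘ (fun x => j.symm (h x)) ∘ ι = F := by
      funext y
      simp only [comp_apply, Homeomorph.apply_symm_apply]
      rw [hFe]
    rw [h4] at h3
    exact h3
  -- the bad set
  let C : Set M := {x | x ∉ S ∧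
    ¬ IsLocalDiffeomorphAt (𝓡∂ (m + 1)) (𝓡∂ (m + 1)) ∞ (fun x => j.symm (h x)) x}
  let hE : M → E (m + 1) := fun x => (h x : E (m + 1))
  have hEc : Continuous hE := continuous_subtype_val.comp h.continuous
  have hEi : Injective hE := fun a b hab => h.injective (Subtype.ext hab)
  have hEce : IsClosedEmbedding hE := hEc.isClosedEmbedding hEi
  let WM : Set M := {x | infEDist (hE x) (hE '' C) < ENNReal.ofReal (1 - ‖hE x‖)}
  have hWMo : IsOpen WM := isOpen_lt (continuous_infEDist.comp hEc)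
    (ENNReal.continuous_ofReal.comp (continuous_const.sub hEc.norm))
  have hWMb : ∀ b, b ∉ S → b ∉ (𝓡∂ (m + 1)).interior M → ∀ᶠ x in 𝓝 b, x ∉ WM := by
    intro b hb1 hb2
    have h1 : b ∉ closure C := by
      intro h2
      rw [mem_closure_iff_frequently] at h2
      exact h2 ((ld_eventually (hb b hb1 hb2)).mono fun y hy hy' => hy'.2 hy)
    have h2 : hE b ∉ closure (hE '' C) := by
      rw [hEce.closure_image_eq]
      rintro ⟨c, hc, hcb⟩
      exact h1 (hEi hcb ▸ hc)
    have h3 : 1 ≤ ‖hE b‖ := by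
      by_contra h3
      exact hb2 ((hMi b).2 (not_le.1 h3))
    have h4 : ENNReal.ofReal (1 - ‖hE b‖) < infEDist (hE b) (hE '' C) := by
      rw [ENNReal.ofReal_of_nonpos (by linarith), pos_iff_ne_zero, Ne,
        ← Metric.mem_closure_iff_infEDist_zero]
      exact h2
    have h5 : IsOpen {x | ENNReal.ofReal (1 - ‖hE x‖) < infEDist (hE x) (hE '' C)} :=
      isOpen_lt (ENNReal.continuous_ofReal.comp (continuous_const.sub hEc.norm))
        (continuous_infEDist.comp hEc)
    filter_upwards [h5.mem_nhds h4] with x hx hx'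
    exact lt_asymm hx hx'
  -- the set `O`
  let O : Set (X × E (m + 1)) := {p | ‖uu (m + 1) p.2 - F p.1‖ < min w (1 - ‖F p.1‖)}
  have hUc : Continuous (uu (m + 1)) :=
    (OpenPartialHomeomorph.contDiff_univUnitBall (n := 0)).continuous
  have hOo : IsOpen O := by
    have c1 : Continuous fun p : X × E (m + 1) => F p.1 := hFc.comp continuous_fst
    exact isOpen_lt ((hUc.comp continuous_snd).sub c1).norm
      (continuous_const.min (continuous_const.sub c1.norm))
  have hfO : ∀ x, (x, f x) ∈ O := by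
    intro x
    show ‖uu (m + 1) (f x) - F x‖ < min w (1 - ‖F x‖)
    rw [hUf, sub_self, norm_zero]
    exact lt_min hw (by linarith [hFn x])
  obtain ⟨k, k1, k2, k3, k4, -, -, -, -, k9⟩ := off_closed f (ι ⁻¹' S) (hS.preimage hιc)
    (fun x hx => by
      have h1 : ContMDiffAt (𝓡 (m + 1)) (𝓡 (m + 1)) ∞ F x := by
        rw [hF]
        exact ContMDiffAt.comp (g := fun x => (h x : E (m + 1))) (f := ι) x
          (hs (ι x) hx (hmem x)) (hιd x).contMDiffAt
      have h2 : (f : X → E (m + 1)) = fun x => (uu (m + 1)).symm (F x) := funext hf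
      rw [h2]
      exact ContMDiffAt.comp (g := (uu (m + 1)).symm) (f := F) x
        (LD_uu_symm (F x) (hFn x)).contMDiffAt h1)
    (fun x hx => by
      have g1 := hs (ι x) hx (hmem x)
      have h1 : MDifferentiableAt (𝓡 (m + 1)) (𝓡 (m + 1)) F x := by
        rw [hF]
        exact (ContMDiffAt.comp (g := fun x => (h x : E (m + 1))) (f := ι) x
          g1 (hιd x).contMDiffAt).mdifferentiableAt (by simp)
      have h2 : (f : X → E (m + 1)) = fun x => (uu (m + 1)).symm (F x) := funext hf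
      rw [h2]
      refine rank_comp F (fun x => x) (uu (m + 1)).symm x (LD.id x)
        (LD_uu_symm (F x) (hFn x)) h1 ?_
      have h3 : mfderiv (𝓡 (m + 1)) (𝓡 (m + 1)) ((fun x => (h x : E (m + 1))) ∘ ι) x =
        (mfderiv (𝓡∂ (m + 1)) (𝓡 (m + 1)) (fun x => (h x : E (m + 1))) (ι x)).comp
          (mfderiv (𝓡 (m + 1)) (𝓡∂ (m + 1)) ι x) :=
        mfderiv_comp x (g1.mdifferentiableAt (by simp)) ((hιd x).mdifferentiableAt (by simp))
      have h4 : ((fun x => (h x : E (m + 1))) ∘ ι) = F := by rw [hF]; rfl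
      rw [h4] at h3
      have h5 : Surjective (mfderiv (𝓡 (m + 1)) (𝓡∂ (m + 1)) ι x) :=
        ((hιd x).mfderivToContinuousLinearEquiv (by simp)).surjective
      rw [h3]
      let D1 : E (m + 1) →L[ℝ] E (m + 1) := mfderiv (𝓡 (m + 1)) (𝓡∂ (m + 1)) ι x
      let D2 : E (m + 1) →L[ℝ] E (m + 1) :=
        mfderiv (𝓡∂ (m + 1)) (𝓡 (m + 1)) (fun x => (h x : E (m + 1))) (ι x)
      have h5' : Surjective D1.toLinearMap := h5
      have h6 : m ≤ Module.finrank ℝ (LinearMap.range D2.toLinearMap) := hr (ι x) hx (hmem x)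
      show m ≤ Module.finrank ℝ (LinearMap.range (D2.toLinearMap ∘ₗ D1.toLinearMap))
      rw [LinearMap.range_comp_of_range_eq_top _ (LinearMap.range_eq_top.2 h5')]
      exact h6)
    (ι ⁻¹' WM) (hWMo.preimage hιc)
    (fun x hx hxS => by
      have h1 : IsLocalDiffeomorphAt (𝓡∂ (m + 1)) (𝓡∂ (m + 1)) ∞ (fun x => j.symm (h x))
          (ι x) := by
        by_contra h1
        refine hx ?_
        show infEDist (hE (ι x)) (hE '' C) < ENNReal.ofReal (1 - ‖hE (ι x)‖)
        have h2 : ι x ∈ C := ⟨hxS, h1⟩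
        rw [infEDist_zero_of_mem (mem_image_of_mem hE h2), ENNReal.ofReal_pos]
        have h3 : ‖hE (ι x)‖ < 1 := (hMi _).1 (hmem x)
        linarith
      have h2 : (f : X → E (m + 1)) = fun x => (uu (m + 1)).symm (F x) := funext hf
      rw [h2]
      exact LD.comp_fun (LD_uu_symm (F x) (hFn x)) (hld x h1))
    O hOo hfO
  obtain ⟨F', hF'⟩ : ∃ F' : X → E (m + 1), F' = fun x => uu (m + 1) (k (1, x)) := ⟨_, rfl⟩
  have hF'e : ∀ x, F' x = uu (m + 1) (k (1, x)) := fun x => by rw [hF']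
  have hF'c : Continuous F' := by
    rw [hF']
    exact hUc.comp (k1.comp (continuous_const.prodMk continuous_id))
  have hF'n : ∀ x, ‖F' x‖ < 1 := fun x => by rw [hF'e]; exact uu_mem _
  have hF'i : Injective F' := by
    intro a b hab
    rw [hF'e, hF'e] at hab
    have h1 := congrArg (uu (m + 1)).symm hab
    rw [symm_uu, symm_uu] at h1
    exact (k2 1).1 h1
  have hF's : ∀ y : E (m + 1), ‖y‖ < 1 → ∃ x, F' x = y := by
    intro y hy
    obtain ⟨x, hx⟩ := (k2 1).2 ((uu (m + 1)).symm y)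
    have hx' : k (1, x) = (uu (m + 1)).symm y := hx
    exact ⟨x, by rw [hF'e, hx', uu_symm hy]⟩
  have hF'S : ∀ x, (ι x ∈ S ∨ ι x ∉ WM) → F' x = F x := by
    intro x hx
    rw [hF'e, k4 1 x hx, hUf]
  have hF'w : ∀ x, ‖F' x - F x‖ < min w (1 - ‖F x‖) := by
    intro x
    rw [hF'e]
    exact k3 1 x
  have hF'd : ∀ x, ι x ∉ S → LD (m + 1) F' x := by
    intro x hx
    rw [hF']
    exact LD.comp_fun (g := uu (m + 1)) (LD_uu _) (k9 x hx)
  obtain ⟨G, hG1, hG2⟩ : ∃ G : M → closedBall (0 : E (m + 1)) 1,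
      (∀ x, (G (ι x) : E (m + 1)) = F' x) ∧ ∀ y, y ∉ range ι → G y = h y := by
    refine ⟨fun y => if hy : ∃ x, ι x = y then ⟨F' hy.choose, by
      rw [mem_closedBall_zero_iff]; exact (hF'n _).le⟩ else h y, ?_, ?_⟩
    · intro x
      have hx : ∃ x', ι x' = ι x := ⟨x, rfl⟩
      simp only [dif_pos hx]
      rw [hι hx.choose_spec]
    · intro y hy
      have : ¬ ∃ x, ι x = y := hy
      simp only [dif_neg this]
  have hbn : ∀ y, y ∉ range ι → ¬ ‖(h y : E (m + 1))‖ < 1 := by
    intro y hy h1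
    rw [← hMi, ← hιr] at h1
    exact hy h1
  have hGi : Injective G := by
    intro a b hab
    by_cases ha : a ∈ range ι
    · by_cases hb' : b ∈ range ι
      · obtain ⟨x, rfl⟩ := ha
        obtain ⟨y, rfl⟩ := hb'
        have := congrArg (Subtype.val) hab
        rw [hG1, hG1] at this
        rw [hF'i this]
      · exfalso
        obtain ⟨x, rfl⟩ := ha
        have := congrArg (Subtype.val) hab
        rw [hG1, hG2 b hb'] at this
        exact hbn b hb' (this ▸ hF'n x)
    · by_cases hb' : b ∈ range ι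
      · exfalso
        obtain ⟨x, rfl⟩ := hb'
        have := congrArg (Subtype.val) hab
        rw [hG1, hG2 a ha] at this
        exact hbn a ha (this ▸ hF'n x)
      · rw [hG2 a ha, hG2 b hb'] at hab
        exact h.injective hab
  have hGs : Surjective G := by
    intro y
    by_cases hy : ‖(y : E (m + 1))‖ < 1
    · obtain ⟨x', hx'⟩ := hF's y hy
      refine ⟨ι x', Subtype.ext ?_⟩
      rw [hG1, hx']
    · refine ⟨h.symm y, ?_⟩
      rw [hG2, h.apply_symm_apply]
      intro h1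
      rw [hιr, hMi, h.apply_symm_apply] at h1
      exact hy h1
  have hGw : ∀ x, ‖(G x : E (m + 1)) - h x‖ ≤ min w (1 - ‖hE x‖) := by
    intro x
    by_cases hx : x ∈ range ι
    · obtain ⟨x, rfl⟩ := hx
      rw [hG1]
      have := (hF'w x).le
      rw [hFe] at this
      exact this
    · rw [hG2 x hx, sub_self, norm_zero]
      refine le_min hw.le ?_
      have : ‖hE x‖ ≤ 1 := mem_closedBall_zero_iff.1 (h x).2
      linarith
  have hGc : Continuous G := by
    rw [continuous_iff_continuousAt]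
    intro y
    by_cases hy : y ∈ range ι
    · obtain ⟨x, rfl⟩ := hy
      rw [← hemb.continuousAt_iff]
      have h1 : (G ∘ ι) = fun x => (⟨F' x, mem_closedBall_zero_iff.2 (hF'n x).le⟩ :
          closedBall (0 : E (m + 1)) 1) := by
        funext x
        exact Subtype.ext (hG1 x)
      rw [h1]
      exact (hF'c.subtype_mk _).continuousAt
    · have h1 : G y = h y := hG2 y hy
      have h3 : ‖hE y‖ = 1 := le_antisymm (mem_closedBall_zero_iff.1 (h y).2)
        (not_lt.1 (hbn y hy))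
      rw [ContinuousAt, h1, tendsto_subtype_rng]
      have h4 : Tendsto (fun x => (G x : E (m + 1)) - h x) (𝓝 y) (𝓝 0) := by
        refine squeeze_zero_norm (fun x => (hGw x).trans (min_le_right _ _)) ?_
        have h6 : Continuous fun x => 1 - ‖hE x‖ := continuous_const.sub hEc.norm
        have h5 : Tendsto (fun x => 1 - ‖hE x‖) (𝓝 y) (𝓝 (1 - ‖hE y‖)) := h6.tendsto y
        rwa [h3, sub_self] at h5
      have h5 := h4.add (hEc.tendsto y)
      simp only [zero_add] at h5
      refine h5.congr fun x => ?_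
      show (G x : E (m + 1)) - h x + h x = G x
      abel
  let Ge : M ≃ₜ closedBall (0 : E (m + 1)) 1 :=
    Continuous.homeoOfEquivCompactToT2 (f := Equiv.ofBijective G ⟨hGi, hGs⟩) hGc
  have hGe : ∀ x, Ge x = G x := fun x => rfl
  have hGS : ∀ x, (x ∈ S ∨ x ∉ (𝓡∂ (m + 1)).interior M) → G x = h x := by
    intro x hx
    by_cases hxi : x ∈ (𝓡∂ (m + 1)).interior M
    · have hxS : x ∈ S := hx.resolve_right (fun h => h hxi)
      have h1 : x ∈ range ι := hιr ▸ hxi
      obtain ⟨x, rfl⟩ := h1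
      refine Subtype.ext ?_
      rw [hG1, hF'S x (Or.inl hxS), hFe]
    · exact hG2 x (hιr ▸ hxi)
  refine ⟨Ge, fun x => (hGw x).trans (min_le_left _ _), hGS, ?_⟩
  intro y hyS
  show IsLocalDiffeomorphAt (𝓡∂ (m + 1)) (𝓡∂ (m + 1)) ∞ (fun x => j.symm (G x)) y
  by_cases hy : y ∈ range ι
  · obtain ⟨x, rfl⟩ := hy
    have ha := (hιd x).localInverse_isLocalDiffeomorphAt
    have hax : (hιd x).localInverse (ι x) = x :=
      (hιd x).localInverse_left_inv (hιd x).localInverse_mem_target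
    have h1 : LD (m + 1) F' ((hιd x).localInverse (ι x)) := by
      rw [hax]
      exact hF'd x hyS
    have h2 := IsLocalDiffeomorphAt.comp (𝓡 (m + 1)) (E (m + 1)) ha h1
    have hjp : IsLocalDiffeomorphAt (𝓡∂ (m + 1)) (𝓡 (m + 1)) ∞ (fun y => (j y : E (m + 1)))
        (j.symm (G (ι x))) := by
      refine hj _ ((hNi _).2 ?_)
      rw [j.apply_symm_apply, hG1]
      exact hF'n x
    have h3 := hjp.localInverse_isLocalDiffeomorphAt
    have h4 : (j (j.symm (G (ι x))) : E (m + 1)) = (F' ∘ (hιd x).localInverse) (ι x) := by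
      rw [j.apply_symm_apply, hG1, comp_apply, hax]
    beta_reduce at h3
    rw [h4] at h3
    have h5 := IsLocalDiffeomorphAt.comp (𝓡∂ (m + 1)) N h2 h3
    refine ld_congr h5 ?_
    have h6 : (F' ∘ (hιd x).localInverse) (ι x) ∈ hjp.localInverse.source := by
      rw [← h4]
      exact hjp.localInverse_mem_source
    filter_upwards [(hιd x).localInverse.open_source.mem_nhds (hιd x).localInverse_mem_source,
      h2.contMDiffAt.continuousAt (hjp.localInverse.open_source.mem_nhds h6)] with y' g1 g2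
    have g3 : ι ((hιd x).localInverse y') = y' := (hιd x).localInverse_right_inv g1
    have g4 := hjp.localInverse_right_inv g2
    show j.symm (G y') = hjp.localInverse ((F' ∘ (hιd x).localInverse) y')
    rw [Homeomorph.symm_apply_eq]
    refine Subtype.ext ?_
    beta_reduce at g4
    rw [g4, comp_apply, ← hG1, g3]
  · have hyi : y ∉ (𝓡∂ (m + 1)).interior M := by rwa [← hιr]
    refine ld_congr (hb y hyS hyi) ?_
    filter_upwards [hWMb y hyS hyi] with y' hy'
    by_cases g1 : y' ∈ range ι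
    · obtain ⟨x', rfl⟩ := g1
      have g3 : G (ι x') = h (ι x') := by
        refine Subtype.ext ?_
        rw [hG1, hF'S x' (Or.inr hy'), hFe]
      rw [g3]
    · rw [hG2 y' g1]

/-- **Relative corank-one theorem for the ball.** -/
theorem bd (m : ℕ) (M N : Type) [TopologicalSpace M] [TopologicalSpace N]
    [ChartedSpace (EuclideanHalfSpace (m + 1)) M] [ChartedSpace (EuclideanHalfSpace (m + 1)) N]
    [IsManifold (𝓡∂ (m + 1)) ∞ M] [IsManifold (𝓡∂ (m + 1)) ∞ N]
    (h : M ≃ₜ closedBall (0 : E (m + 1)) 1) (j : N ≃ₜ closedBall (0 : E (m + 1)) 1)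
    (hj : ∀ y ∈ (𝓡∂ (m + 1)).interior N,
      IsLocalDiffeomorphAt (𝓡∂ (m + 1)) (𝓡 (m + 1)) ∞ (fun y => (j y : E (m + 1))) y)
    (S : Set M) (hS : IsClosed S)
    (hb : ∀ x, x ∉ S → x ∉ (𝓡∂ (m + 1)).interior M →
      IsLocalDiffeomorphAt (𝓡∂ (m + 1)) (𝓡∂ (m + 1)) ∞ (fun x => j.symm (h x)) x)
    (hs : ∀ x, x ∉ S → x ∈ (𝓡∂ (m + 1)).interior M →
      ContMDiffAt (𝓡∂ (m + 1)) (𝓡 (m + 1)) ∞ (fun x => (h x : E (m + 1))) x)
    (hr : ∀ x, x ∉ S → x ∈ (𝓡∂ (m + 1)).interior M → m ≤ Module.finrank ℝ (LinearMap.range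
      (mfderiv (𝓡∂ (m + 1)) (𝓡 (m + 1)) (fun x => (h x : E (m + 1))) x).toLinearMap))
    (w : ℝ) (hw : 0 < w) :
    ∃ G : M ≃ₜ closedBall (0 : E (m + 1)) 1, (∀ x, ‖(G x : E (m + 1)) - h x‖ ≤ w) ∧
      (∀ x, (x ∈ S ∨ x ∉ (𝓡∂ (m + 1)).interior M) → G x = h x) ∧
      ∀ x, x ∉ S →
        IsLocalDiffeomorphAt (𝓡∂ (m + 1)) (𝓡∂ (m + 1)) ∞ (fun x => j.symm (G x)) x := by
  let := csI (M := M) (𝓡∂ (m + 1))
  have := mfI (M := M) (𝓡∂ (m + 1))
  exact bd_core m M N ((𝓡∂ (m + 1)).interior M) Subtype.val Subtype.val_injective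
    Subtype.range_val (fun x => ldiff_val (𝓡∂ (m + 1)) x) h j hj S hS hb hs hr w hw

/-- a manifold with boundary with a homeomorphism onto the ball which is a local diffeomorphism at
the interior points has standard interior -/
theorem int_std (m : ℕ) (M N : Type) [TopologicalSpace M] [TopologicalSpace N]
    [ChartedSpace (EuclideanHalfSpace (m + 1)) M] [ChartedSpace (EuclideanHalfSpace (m + 1)) N]
    [IsManifold (𝓡∂ (m + 1)) ∞ M] [IsManifold (𝓡∂ (m + 1)) ∞ N]
    (G : M ≃ₜ closedBall (0 : E (m + 1)) 1) (j : N ≃ₜ closedBall (0 : E (m + 1)) 1)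
    (hj : ∀ y ∈ (𝓡∂ (m + 1)).interior N,
      IsLocalDiffeomorphAt (𝓡∂ (m + 1)) (𝓡 (m + 1)) ∞ (fun y => (j y : E (m + 1))) y)
    (hG : ∀ x ∈ (𝓡∂ (m + 1)).interior M,
      IsLocalDiffeomorphAt (𝓡∂ (m + 1)) (𝓡∂ (m + 1)) ∞ (fun x => j.symm (G x)) x) :
    ∃ ψ : E (m + 1) → M, Injective ψ ∧ range ψ = (𝓡∂ (m + 1)).interior M ∧
      ∀ y, IsLocalDiffeomorphAt (𝓡 (m + 1)) (𝓡∂ (m + 1)) ∞ ψ y := by
  have hMi : ∀ x, x ∈ (𝓡∂ (m + 1)).interior M ↔ ‖(G x : E (m + 1))‖ < 1 :=
    int_iff (𝓡∂ (m + 1)) inferInstance G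
  have hNi : ∀ x, x ∈ (𝓡∂ (m + 1)).interior N ↔ ‖(j x : E (m + 1))‖ < 1 :=
    int_iff (𝓡∂ (m + 1)) inferInstance j
  have hu : ∀ y : E (m + 1), uu (m + 1) y ∈ closedBall (0 : E (m + 1)) 1 := fun y =>
    mem_closedBall_zero_iff.2 (uu_mem y).le
  let ψ : E (m + 1) → M := fun y => G.symm ⟨uu (m + 1) y, hu y⟩
  have hψ : ∀ y, (G (ψ y) : E (m + 1)) = uu (m + 1) y := fun y => by
    show (G (G.symm ⟨uu (m + 1) y, hu y⟩) : E (m + 1)) = _
    rw [G.apply_symm_apply]
  refine ⟨ψ, ?_, ?_, ?_⟩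
  · intro a b hab
    have h1 : uu (m + 1) a = uu (m + 1) b := by rw [← hψ, ← hψ, hab]
    have h2 := congrArg (uu (m + 1)).symm h1
    rwa [symm_uu, symm_uu] at h2
  · ext x
    constructor
    · rintro ⟨y, rfl⟩
      rw [hMi, hψ]
      exact uu_mem y
    · intro hx
      refine ⟨(uu (m + 1)).symm (G x), G.injective (Subtype.ext ?_)⟩
      rw [hψ, uu_symm ((hMi x).1 hx)]
  · intro y
    have hx : ψ y ∈ (𝓡∂ (m + 1)).interior M := by
      rw [hMi, hψ]
      exact uu_mem y
    have h2 : IsLocalDiffeomorphAt (𝓡∂ (m + 1)) (𝓡 (m + 1)) ∞ (fun y => (j y : E (m + 1)))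
        ((fun x => j.symm (G x)) (ψ y)) := by
      refine hj _ ((hNi _).2 ?_)
      simp only [Homeomorph.apply_symm_apply]
      rw [hψ]
      exact uu_mem y
    have h3 := IsLocalDiffeomorphAt.comp (𝓡 (m + 1)) (E (m + 1)) (hG _ hx) h2
    have h4 : (fun y => (j y : E (m + 1))) ∘ (fun x => j.symm (G x)) =
        fun x => (G x : E (m + 1)) := by
      funext y
      simp only [comp_apply, Homeomorph.apply_symm_apply]
    rw [h4] at h3
    have h5 := h3.localInverse_isLocalDiffeomorphAt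
    beta_reduce at h5
    rw [hψ] at h5
    have h6 := IsLocalDiffeomorphAt.comp (𝓡∂ (m + 1)) M (LD_uu y) h5
    refine ld_congr h6 ?_
    have h7 : uu (m + 1) y ∈ h3.localInverse.source := by
      have := h3.localInverse_mem_source
      beta_reduce at this
      rwa [hψ] at this
    filter_upwards [(LD_uu y).continuousAt (h3.localInverse.open_source.mem_nhds h7)] with y' g2
    have g4 := h3.localInverse_right_inv g2
    beta_reduce at g4
    refine G.injective (Subtype.ext ?_)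
    rw [hψ]
    exact g4.symm

end Pool.Agent.V1127.Iso
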