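import Pool.Agent.V1127.Iso.Off
import Pool.Agent.V1127.Iso.Dom

/-!
# Homeomorphisms which near each point are smooth of corank at most one or have such an inverse
-/

set_option autoImplicit false

open Set Filter Topology Metric Function
open scoped Manifold ContDiff

noncomputable section

namespace Pool.Agent.V1127.Iso

open Pool.Agent.Y522

section level

/-- continuous families of bijections between manifolds are homeomorphisms of the products with
the line -/
theorem level_homeo {n : ℕ} {X Y : Type} [TopologicalSpace X]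
    [ChartedSpace (EuclideanSpace ℝ (Fin n)) X] [TopologicalSpace Y]
    [ChartedSpace (EuclideanSpace ℝ (Fin n)) Y] (L : ℝ × Y → X) (hL : Continuous L)
    (hb : ∀ t, Bijective fun y => L (t, y)) :
    IsHomeomorph (fun p : ℝ × Y => ((p.1, L p) : ℝ × X)) := by
  let e : (ℝ × EuclideanSpace ℝ (Fin n)) ≃L[ℝ] EuclideanSpace ℝ (Fin (n + 1)) :=
    ContinuousLinearEquiv.ofFinrankEq (by simp [add_comm])
  let c0 : ChartedSpace (EuclideanSpace ℝ (Fin (n + 1)))
      (ModelProd ℝ (EuclideanSpace ℝ (Fin n))) :=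
    e.toHomeomorph.toOpenPartialHomeomorph.singletonChartedSpace rfl
  let c1 : ChartedSpace (EuclideanSpace ℝ (Fin (n + 1))) (ℝ × Y) :=
    ChartedSpace.comp _ (ModelProd ℝ (EuclideanSpace ℝ (Fin n))) _
  let c2 : ChartedSpace (EuclideanSpace ℝ (Fin (n + 1))) (ℝ × X) :=
    ChartedSpace.comp _ (ModelProd ℝ (EuclideanSpace ℝ (Fin n))) _
  refine isHomeomorph_of_bijective (n := n + 1) (continuous_fst.prodMk hL) ⟨?_, ?_⟩
  · rintro ⟨t, y⟩ ⟨s, z⟩ h
    have h1 : t = s := congrArg Prod.fst h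
    have h2 : L (t, y) = L (s, z) := congrArg Prod.snd h
    subst h1
    rw [(hb t).1 h2]
  · rintro ⟨t, x⟩
    obtain ⟨y, hy⟩ := (hb t).2 x
    exact ⟨(t, y), Prod.ext rfl hy⟩

end level

section good

variable (m : ℕ) {X Y : Type} [TopologicalSpace X] [ChartedSpace (E (m + 1)) X]
  [TopologicalSpace Y] [ChartedSpace (E (m + 1)) Y]

/-- `f` is smooth, with derivatives of rank at least `m`, at all points near `x` -/
def Gd (f : X → Y) (x : X) : Prop :=
  ∀ᶠ y in 𝓝 x, ContMDiffAt (𝓡 (m + 1)) (𝓡 (m + 1)) ∞ f y ∧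
    m ≤ Module.finrank ℝ (LinearMap.range (mfderiv (𝓡 (m + 1)) (𝓡 (m + 1)) f y).toLinearMap)

variable {m}

theorem Gd.congr {f g : X → Y} {x : X} (hf : Gd m f x) (h : g =ᶠ[𝓝 x] f) : Gd m g x := by
  filter_upwards [hf, h.eventually_nhds] with y hy hy2
  refine ⟨hy.1.congr_of_eventuallyEq hy2, ?_⟩
  have h3 : g =ᶠ[𝓝 y] f := hy2
  rw [h3.mfderiv_eq]
  exact hy.2

theorem gd_of_LD [IsManifold (𝓡 (m + 1)) ∞ X] [IsManifold (𝓡 (m + 1)) ∞ Y] {f : X → Y} {x : X}
    (hf : LD (m + 1) f x) : Gd m f x := by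
  filter_upwards [hf.eventually] with y hy
  refine ⟨hy.contMDiffAt, ?_⟩
  have h1 := hy.mfderiv_injective
  let D : E (m + 1) →L[ℝ] E (m + 1) := mfderiv (𝓡 (m + 1)) (𝓡 (m + 1)) f y
  show m ≤ Module.finrank ℝ (LinearMap.range D.toLinearMap)
  have h2 : Injective D.toLinearMap := h1
  rw [LinearMap.finrank_range_of_inj h2, finrank_euclideanSpace, Fintype.card_fin]
  omega

theorem ld_of_both (f : X ≃ₜ Y) (x : X)
    (h1 : ∀ᶠ y in 𝓝 x, ContMDiffAt (𝓡 (m + 1)) (𝓡 (m + 1)) ∞ f y)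
    (h2 : ∀ᶠ y in 𝓝 (f x), ContMDiffAt (𝓡 (m + 1)) (𝓡 (m + 1)) ∞ f.symm y) :
    LD (m + 1) f x := by
  obtain ⟨s, hs, hso, hxs⟩ := mem_nhds_iff.1 h1
  obtain ⟨t, ht, hto, hxt⟩ := mem_nhds_iff.1 h2
  have hu : IsOpen (s ∩ f ⁻¹' t) := hso.inter (hto.preimage f.continuous)
  refine ⟨{ toPartialEquiv :=
              (f.toOpenPartialHomeomorph.restrOpen (s ∩ f ⁻¹' t) hu).toPartialEquiv
            open_source := (f.toOpenPartialHomeomorph.restrOpen (s ∩ f ⁻¹' t) hu).open_source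
            open_target := (f.toOpenPartialHomeomorph.restrOpen (s ∩ f ⁻¹' t) hu).open_target
            contMDiffOn_toFun := ?_
            contMDiffOn_invFun := ?_ }, ?_, fun _ _ => rfl⟩
  · intro y hy
    have hy' : y ∈ (f.toOpenPartialHomeomorph.restrOpen (s ∩ f ⁻¹' t) hu).source := hy
    rw [OpenPartialHomeomorph.restrOpen_source] at hy'
    exact ContMDiffAt.contMDiffWithinAt (hs hy'.2.1)
  · intro y hy
    have hy' : y ∈ (f.toOpenPartialHomeomorph.restrOpen (s ∩ f ⁻¹' t) hu).target := hy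
    have hy2 := (f.toOpenPartialHomeomorph.restrOpen (s ∩ f ⁻¹' t) hu).map_target hy'
    rw [OpenPartialHomeomorph.restrOpen_source] at hy2
    have h3 : f (f.symm y) ∈ t := hy2.2.2
    rw [f.apply_symm_apply] at h3
    exact ContMDiffAt.contMDiffWithinAt (ht h3)
  · show x ∈ (f.toOpenPartialHomeomorph.restrOpen (s ∩ f ⁻¹' t) hu).source
    rw [OpenPartialHomeomorph.restrOpen_source]
    exact ⟨mem_univ x, hxs, hxt⟩

end good

variable {m : ℕ} {X Y : Type} [TopologicalSpace X] [T2Space X] [SigmaCompactSpace X]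
  [ChartedSpace (E (m + 1)) X] [IsManifold (𝓡 (m + 1)) ∞ X] [TopologicalSpace Y]
  [ChartedSpace (E (m + 1)) Y] [IsManifold (𝓡 (m + 1)) ∞ Y]

/-- **Homeomorphisms which off a closed set are near each point smooth of corank at most one or
have such an inverse.** -/
theorem mixed (f : X ≃ₜ Y) (S : Set X) (hS : IsClosed S)
    (h : ∀ x, x ∉ S → Gd m f x ∨ Gd m f.symm (f x))
    (W : Set X) (hW : IsOpen W) (hWL : ∀ x, x ∉ W → x ∉ S → LD (m + 1) f x)
    (O : Set (X × Y)) (hO : IsOpen O) (hfO : ∀ x, (x, f x) ∈ O) :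
    ∃ K : ℝ × X → Y, Continuous K ∧ (∀ t, Bijective fun x => K (t, x)) ∧
      (∀ t x, (x, K (t, x)) ∈ O) ∧ (∀ t x, (x ∈ S ∨ x ∉ W) → K (t, x) = f x) ∧
      (∀ x, K (0, x) = f x) ∧ ∀ x, x ∉ S → LD (m + 1) (fun x => K (1, x)) x := by
  classical
  have i1 : LocallyCompactSpace X := ChartedSpace.locallyCompactSpace (E (m + 1)) X
  have i2 : SecondCountableTopology X := ChartedSpace.secondCountable_of_sigmaCompact (E (m + 1)) X
  have i3 : TopologicalSpace.MetrizableSpace X :=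
    TopologicalSpace.metrizableSpace_of_t3_secondCountable X
  have i5 : CompletelyNormalSpace X := by
    let _ : MetricSpace X := TopologicalSpace.metrizableSpaceMetric X
    infer_instance
  have i6 : T2Space Y := f.symm.isEmbedding.t2Space
  have i7 : SigmaCompactSpace Y := f.symm.isClosedEmbedding.sigmaCompactSpace
  let A : Set X := {x | Gd m f x}
  let B : Set X := {x | Gd m f.symm (f x)}
  have hA : IsOpen A := by
    rw [isOpen_iff_mem_nhds]
    intro x hx
    exact (eventually_eventually_nhds.2 hx : _)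
  have hB' : IsOpen {y : Y | Gd m f.symm y} := by
    rw [isOpen_iff_mem_nhds]
    intro x hx
    exact (eventually_eventually_nhds.2 hx : _)
  have hB : IsOpen B := hB'.preimage f.continuous
  have hAB : ∀ x, x ∈ A → x ∈ B → LD (m + 1) f x := by
    intro x hxA hxB
    exact ld_of_both f x (hxA.mono fun y hy => hy.1) (Filter.Eventually.mono hxB fun y hy => hy.1)
  let C₁ : Set X := {x | ¬ LD (m + 1) f x ∧ x ∈ A}
  let C₂ : Set X := {x | x ∉ S ∧ x ∉ A}
  have hC₂B : C₂ ⊆ B := fun x hx => (h x hx.1).resolve_left hx.2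
  have d1 : Disjoint (closure C₁) C₂ := by
    have h1 : closure C₁ ⊆ Bᶜ := by
      refine closure_minimal (fun x hx hxB => ?_) hB.isClosed_compl
      exact hx.1 (hAB x hx.2 hxB)
    exact Set.disjoint_left.2 fun x hx hx2 => h1 hx (hC₂B hx2)
  have d2 : Disjoint C₁ (closure C₂) := by
    have h1 : closure C₂ ⊆ Aᶜ := closure_minimal (fun x hx => hx.2) hA.isClosed_compl
    exact Set.disjoint_left.2 fun x hx hx2 => h1 hx2 hx.2
  obtain ⟨U₁, U₂, hU₁, hU₂, hC₁, hC₂, hd⟩ :=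
    separatedNhds_iff_disjoint.2 (CompletelyNormalSpace.completely_normal d1 d2)
  let S₁ : Set X := S ∪ Aᶜ
  have hS₁ : ∀ x, x ∉ S₁ → x ∉ S ∧ x ∈ A := by
    intro x hx
    refine ⟨fun h1 => hx (Or.inl h1), ?_⟩
    by_contra h1
    exact hx (Or.inr h1)
  obtain ⟨K₁, a1, a2, a3, a4, a5, a6, -, -, a9⟩ := off_closed (m := m) f S₁
    (hS.union hA.isClosed_compl)
    (fun x hx => (Filter.Eventually.self_of_nhds (hS₁ x hx).2).1)
    (fun x hx => (Filter.Eventually.self_of_nhds (hS₁ x hx).2).2) (U₁ ∩ W) (hU₁.inter hW)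
    (fun x hx hx1 => by
      by_contra hn
      have h1 : x ∈ U₁ := hC₁ ⟨hn, (hS₁ x hx1).2⟩
      have h2 : x ∉ W := fun h2 => hx ⟨h1, h2⟩
      exact hn (hWL x h2 (hS₁ x hx1).1)) O hO hfO
  have hF₁ : IsHomeomorph (fun x => K₁ (1, x)) :=
    isHomeomorph_of_bijective (n := m + 1) (a1.comp (continuous_const.prodMk continuous_id)) (a2 1)
  let F₁ : X ≃ₜ Y := hF₁.homeomorph
  have hF₁a : ∀ x, F₁ x = K₁ (1, x) := fun x => rfl
  have hS₁o : IsOpen S₁ᶜ := (hS.union hA.isClosed_compl).isOpen_compl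
  have hinv : ∀ x, x ∈ S₁ᶜ → LD (m + 1) F₁.symm (F₁ x) := fun x hx =>
    LD.inverse (k := F₁) (g := F₁.symm) hS₁o (fun z hz => a9 z hz)
      (fun z _ => F₁.symm_apply_apply z) hx
  have hG2 : ∀ x, x ∉ S → Gd m F₁.symm (F₁ x) := by
    intro x hx
    by_cases hxA : x ∈ A
    · exact gd_of_LD (hinv x (fun h1 => h1.elim hx (fun h2 => h2 hxA)))
    · have h1 : Gd m f.symm (f x) := (h x hx).resolve_left hxA
      have h2 : F₁ x = f x := a4 1 x (Or.inl (Or.inr hxA))
      rw [h2]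
      refine h1.congr ?_
      have h3 : F₁.symm ⁻¹' U₂ ∈ 𝓝 (f x) := by
        refine (hU₂.preimage F₁.symm.continuous).mem_nhds ?_
        show F₁.symm (f x) ∈ U₂
        rw [← h2, F₁.symm_apply_apply]
        exact hC₂ ⟨hx, hxA⟩
      filter_upwards [h3] with y hy
      have h4 : F₁.symm y ∉ U₁ := fun h5 => Set.disjoint_left.1 hd h5 hy
      have h5 : F₁ (F₁.symm y) = f (F₁.symm y) := a4 1 _ (Or.inr fun h6 => h4 h6.1)
      rw [F₁.apply_symm_apply] at h5
      calc F₁.symm y = f.symm (f (F₁.symm y)) := (f.symm_apply_apply _).symm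
        _ = f.symm y := by rw [← h5]
  have hS₂ : ∀ y, y ∉ F₁ '' S → F₁.symm y ∉ S := fun y hy h1 =>
    hy ⟨F₁.symm y, h1, F₁.apply_symm_apply y⟩
  have hG3 : ∀ y, y ∉ F₁ '' S → Gd m F₁.symm y := by
    intro y hy
    have := hG2 _ (hS₂ y hy)
    rwa [F₁.apply_symm_apply] at this
  obtain ⟨L, b1, b2, b3, b4, b5, b6, -, -, b9⟩ := off_closed (m := m) F₁.symm (F₁ '' S)
    (F₁.isClosedMap _ hS) (fun y hy => (Filter.Eventually.self_of_nhds (hG3 y hy)).1)
    (fun y hy => (Filter.Eventually.self_of_nhds (hG3 y hy)).2) (F₁ '' W) (F₁.isOpenMap _ hW)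
    (fun y hy hy1 => by
      have h1 : F₁.symm y ∉ W := fun h1 => hy ⟨F₁.symm y, h1, F₁.apply_symm_apply y⟩
      have h2 := hS₂ y hy1
      have h3 : F₁.symm y ∈ A := gd_of_LD (hWL _ h1 h2)
      have h4 := hinv (F₁.symm y) (fun h5 => h5.elim h2 (fun h6 => h6 h3))
      rwa [F₁.apply_symm_apply] at h4) {p | (p.2, p.1) ∈ O} (hO.preimage continuous_swap)
    (fun y => by
      have h1 := a3 1 (F₁.symm y)
      rw [← hF₁a, F₁.apply_symm_apply] at h1
      exact h1)
  have hΛ := level_homeo (n := m + 1) L b1 b2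
  let Λ : (ℝ × Y) ≃ₜ (ℝ × X) := hΛ.homeomorph
  have hΛa : ∀ p, Λ p = (p.1, L p) := fun p => rfl
  let K' : ℝ × X → Y := fun q => (Λ.symm q).2
  have hK'c : Continuous K' := continuous_snd.comp Λ.symm.continuous
  have hK'1 : ∀ t x, L (t, K' (t, x)) = x := by
    intro t x
    have h1 : Λ (Λ.symm (t, x)) = (t, x) := Λ.apply_symm_apply _
    rw [hΛa] at h1
    have h2 : (Λ.symm (t, x)).1 = t := congrArg Prod.fst h1
    have h3 : L (Λ.symm (t, x)) = x := congrArg Prod.snd h1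
    have h4 : Λ.symm (t, x) = (t, K' (t, x)) := Prod.ext h2 rfl
    rwa [h4] at h3
  have hK'2 : ∀ t y, K' (t, L (t, y)) = y := fun t y => (b2 t).1 (hK'1 t (L (t, y)))
  have hK'b : ∀ t, Bijective fun x => K' (t, x) := by
    intro t
    refine ⟨fun x x' hx => ?_, fun y => ⟨L (t, y), hK'2 t y⟩⟩
    have h1 : K' (t, x) = K' (t, x') := hx
    rw [← hK'1 t x, h1, hK'1 t x']
  have hK'0 : ∀ x, K' (0, x) = K₁ (1, x) := by
    intro x
    have h1 : L (0, K₁ (1, x)) = x := by
      rw [b5 0 le_rfl, ← hF₁a, F₁.symm_apply_apply]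
    have h2 := hK'2 0 (K₁ (1, x))
    rwa [h1] at h2
  have hK'S : ∀ t x, (x ∈ S ∨ x ∉ W) → K' (t, x) = f x := by
    intro t x hx
    have h1 : L (t, F₁ x) = x := by
      rw [b4 t (F₁ x) (hx.imp (fun h => mem_image_of_mem _ h) (fun h ⟨z, hz, hzx⟩ =>
        h (F₁.injective hzx ▸ hz))), F₁.symm_apply_apply]
    have h2 := hK'2 t (F₁ x)
    rw [h1] at h2
    rw [h2]
    exact a4 1 x (hx.imp (fun h => Or.inl h) (fun h h2 => h h2.2))
  let K : ℝ × X → Y := fun q => if q.1 ≤ 1 / 2 then K₁ (2 * q.1, q.2) else K' (2 * q.1 - 1, q.2)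
  have hKle : ∀ t x, t ≤ 1 / 2 → K (t, x) = K₁ (2 * t, x) := fun t x ht => if_pos ht
  have hKgt : ∀ t x, ¬ t ≤ 1 / 2 → K (t, x) = K' (2 * t - 1, x) := fun t x ht => if_neg ht
  refine ⟨K, ?_, fun t => ?_, fun t x => ?_, fun t x hx => ?_, fun x => ?_, fun x hx => ?_⟩
  · refine Continuous.if_le ?_ ?_ continuous_fst continuous_const ?_
    · exact a1.comp ((continuous_const.mul continuous_fst).prodMk continuous_snd)
    · exact hK'c.comp (((continuous_const.mul continuous_fst).sub continuous_const).prodMk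
        continuous_snd)
    · rintro ⟨t, x⟩ ht
      have ht' : t = 1 / 2 := ht
      subst ht'
      have e1 : (2 : ℝ) * (1 / 2) = 1 := by norm_num
      have e2 : (2 : ℝ) * (1 / 2) - 1 = 0 := by norm_num
      show K₁ (2 * (1 / 2), x) = K' (2 * (1 / 2) - 1, x)
      rw [e2, e1]
      exact (hK'0 x).symm
  · by_cases ht : t ≤ 1 / 2
    · have h1 : (fun x => K (t, x)) = fun x => K₁ (2 * t, x) := funext fun x => hKle t x ht
      rw [h1]
      exact a2 _
    · have h1 : (fun x => K (t, x)) = fun x => K' (2 * t - 1, x) :=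
        funext fun x => hKgt t x ht
      rw [h1]
      exact hK'b _
  · by_cases ht : t ≤ 1 / 2
    · rw [hKle t x ht]
      exact a3 _ _
    · rw [hKgt t x ht]
      have h1 := b3 (2 * t - 1) (K' (2 * t - 1, x))
      rw [hK'1] at h1
      exact h1
  · by_cases ht : t ≤ 1 / 2
    · rw [hKle t x ht]
      exact a4 _ x (hx.imp (fun h => Or.inl h) (fun h h2 => h h2.2))
    · rw [hKgt t x ht]
      exact hK'S _ x hx
  · rw [hKle 0 x (by norm_num)]
    exact a5 _ (by norm_num) x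
  · have h1 : (fun x => K (1, x)) = fun x => K' (1, x) := by
      funext z
      have e2 : (2 : ℝ) * 1 - 1 = 1 := by norm_num
      rw [hKgt 1 z (by norm_num), e2]
    rw [h1]
    have h2 : K' (1, x) ∉ F₁ '' S := by
      rintro ⟨s, hs, hsx⟩
      have h3 := hK'1 1 x
      rw [← hsx, b4 1 (F₁ s) (Or.inl (mem_image_of_mem _ hs)), F₁.symm_apply_apply] at h3
      exact hx (h3 ▸ hs)
    have h3 := LD.inverse (k := fun y => L (1, y)) (g := fun x => K' (1, x))
      (F₁.isClosedMap _ hS).isOpen_compl (fun y hy => b9 y hy) (fun y _ => hK'2 1 y) h2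
    have h4 : L (1, K' (1, x)) = x := hK'1 1 x
    simp only [h4] at h3
    exact h3

end Pool.Agent.V1127.Iso
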