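import Pool.Agent.Y207.SH.StepB

/-!
# The smoothing step in a box in normal form, with the segment from the old to the new map

Adapted from `Pool.Agent.Y207.SH.StepB`.
-/

set_option autoImplicit false

open Set Filter Topology Metric Function MeasureTheory
open scoped Manifold ContDiff

noncomputable section

namespace Pool.Agent.V1127.Iso

open Pool.Agent.Y522 Pool.Agent.Y207.SH

variable {m : ℕ}

/-- a map which is in normal form in a box, for a function which is strictly increasing in the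
first variable and agrees with the old one near the boundary -/
theorem inj_range {X : Type} (F F'' : X → E (m + 1)) (hFi : Injective F)
    (L : E (m + 1) ≃L[ℝ] E (m + 1)) (b : E m) (AA : E (m + 1) → X) (g g'' : E (m + 1) → ℝ)
    (hLF : ∀ w ∈ box m (3 / 4) (3 / 4), L (F (AA w)) = cn (g w) (tl w + b))
    (hLF' : ∀ w ∈ box m (3 / 4) (3 / 4), L (F'' (AA w)) = cn (g'' w) (tl w + b))
    (hgc : ContinuousOn g (box m (3 / 4) (3 / 4))) (hg2 : ContinuousOn g'' (box m (3 / 4) (3 / 4)))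
    (hmono : ∀ w ∈ box m (3 / 4) (3 / 4), ∀ w' ∈ box m (3 / 4) (3 / 4), tl w = tl w' →
      w 0 < w' 0 → g w < g w')
    (hg3 : ∀ w ∈ box m (3 / 4) (3 / 4), ∀ w' ∈ box m (3 / 4) (3 / 4), tl w = tl w' →
      w 0 < w' 0 → g'' w < g'' w')
    (hg1 : ∀ w, w ∉ box m (5 / 8) (5 / 8) → g'' w = g w)
    (hF'K : ∀ p, p ∉ AA '' box m (5 / 8) (5 / 8) → F'' p = F p) :
    Injective F'' ∧ range F'' = range F := by
  classical
  set Q : Set (E (m + 1)) := box m (3 / 4) (3 / 4) with hQ
  set K : Set (E (m + 1)) := box m (5 / 8) (5 / 8) with hK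
  have hKQ : K ⊆ Q := box_mono (by norm_num) (by norm_num)
  have him1 : ∀ w ∈ Q, ∃ w' ∈ Q, F'' (AA w) = F (AA w') := by
    intro w hw
    obtain ⟨w', hw', h1, h2⟩ := line_image (g := g) (g' := g'') (R' := 5 / 8) (T' := 5 / 8)
      (by norm_num) (by norm_num) hgc hg3 hg1 hw
    refine ⟨w', hw', L.injective ?_⟩
    rw [hLF' w hw, hLF w' hw', h1, h2]
  have him2 : ∀ w ∈ Q, ∃ w' ∈ Q, F (AA w) = F'' (AA w') := by
    intro w hw
    obtain ⟨w', hw', h1, h2⟩ := line_image (g := g'') (g' := g) (R' := 5 / 8) (T' := 5 / 8)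
      (by norm_num) (by norm_num) hg2 hmono (fun z hz => (hg1 z hz).symm) hw
    refine ⟨w', hw', L.injective ?_⟩
    rw [hLF w hw, hLF' w' hw', h1, h2]
  have hinjQ : ∀ w ∈ Q, ∀ w' ∈ Q, F'' (AA w) = F'' (AA w') → AA w = AA w' := by
    intro w hw w' hw' h1
    have h2 := congrArg L h1
    rw [hLF' w hw, hLF' w' hw'] at h2
    have h3 : tl w = tl w' := by
      have := congrArg tl h2
      simpa using this
    have h4 : g'' w = g'' w' := by
      have := congrArg (fun z : E (m + 1) => z 0) h2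
      simpa using this
    rcases lt_trichotomy (w 0) (w' 0) with h5 | h5 | h5
    · exact absurd h4 (hg3 w hw w' hw' h3 h5).ne
    · rw [ext_head_tl h5 h3]
    · exact absurd h4 (hg3 w' hw' w hw h3.symm h5).ne'
  have hKQim : ∀ p, p ∉ AA '' Q → p ∉ AA '' K := fun p hp hc => hp (image_mono hKQ hc)
  refine ⟨?_, ?_⟩
  · have haux : ∀ p ∈ AA '' Q, ∀ p', F'' p = F'' p' → p = p' := by
      rintro _ ⟨w, hw, rfl⟩ p' h1
      by_cases h2 : p' ∈ AA '' Q
      · obtain ⟨w', hw', rfl⟩ := h2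
        exact hinjQ w hw w' hw' h1
      · exfalso
        obtain ⟨w', hw', h3⟩ := him1 w hw
        rw [hF'K p' (hKQim p' h2), h3] at h1
        exact h2 ⟨w', hw', hFi h1⟩
    intro p p' h1
    by_cases h2 : p ∈ AA '' Q
    · exact haux p h2 p' h1
    · by_cases h3 : p' ∈ AA '' Q
      · exact (haux p' h3 p h1.symm).symm
      · rw [hF'K p (hKQim p h2), hF'K p' (hKQim p' h3)] at h1
        exact hFi h1
  · apply Subset.antisymm
    · rintro _ ⟨p, rfl⟩
      by_cases h2 : p ∈ AA '' Q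
      · obtain ⟨w, hw, rfl⟩ := h2
        obtain ⟨w', hw', h3⟩ := him1 w hw
        exact ⟨AA w', h3.symm⟩
      · exact ⟨p, (hF'K p (hKQim p h2)).symm⟩
    · rintro _ ⟨p, rfl⟩
      by_cases h2 : p ∈ AA '' Q
      · obtain ⟨w, hw, rfl⟩ := h2
        obtain ⟨w', hw', h3⟩ := him2 w hw
        exact ⟨AA w', h3.symm⟩
      · exact ⟨p, hF'K p (hKQim p h2)⟩

theorem cn_lineMap (a a' s : ℝ) (v : E m) :
    (AffineMap.lineMap (cn a v : E (m + 1)) (cn a' v) s : E (m + 1)) = cn ((1 - s) * a + s * a') v := by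
  apply ext_head_tl
  · simp [AffineMap.lineMap_apply]
    ring
  · rw [AffineMap.lineMap_apply]
    simp

theorem core_s (hB : StBlend) {X : Type} [TopologicalSpace X] [T2Space X]
    [ChartedSpace (E (m + 1)) X] [IsManifold (𝓡 (m + 1)) ∞ X]
    (F : X → E (m + 1)) (hF : Continuous F) (hFi : Injective F)
    (L : E (m + 1) ≃L[ℝ] E (m + 1)) (b : E m)
    (AA : E (m + 1) → X) (hAi : InjOn AA (box m (3 / 4) (3 / 4)))
    (hA : ∀ w ∈ box m (3 / 4) (3 / 4), LD (m + 1) AA w)
    (heq : ∀ w ∈ box m (3 / 4) (3 / 4), tl (L (F (AA w))) = tl w + b)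
    (hmono : ∀ w ∈ box m (3 / 4) (3 / 4), ∀ w' ∈ box m (3 / 4) (3 / 4), tl w = tl w' →
      w 0 < w' 0 → (L (F (AA w))) 0 < (L (F (AA w'))) 0)
    (N : ℕ) (B : Fin N → E (m + 1) → X) (O : Fin N → Set (E (m + 1)))
    (hO : ∀ j, IsCompact (O j)) (hBO : ∀ j, ∀ z ∈ O j, LD (m + 1) (B j) z ∧ SmN m F (B j z))
    (ε : ℝ) (hε : 0 < ε) :
    ∃ F' : X → E (m + 1), Continuous F' ∧ Injective F' ∧ range F' = range F ∧
      (∀ p, p ∉ AA '' box m (3 / 4) (3 / 4) → F' p = F p) ∧ (∀ p, ‖F' p - F p‖ ≤ ε) ∧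
      (∀ p, tl (L (F' p)) = tl (L (F p))) ∧ (∀ p, SmN m F p → SmN m F' p) ∧
      (∀ p, LD (m + 1) F p → LD (m + 1) F' p) ∧
      (∀ w ∈ box m (1 / 2) (1 / 2), LD (m + 1) F' (AA w)) ∧
      (∀ j, ∀ z ∈ O j,
        ‖fderiv ℝ (fun w => F' (B j w)) z - fderiv ℝ (fun w => F (B j w)) z‖ ≤ ε) ∧
      ∀ s ∈ Icc (0 : ℝ) 1, Injective (fun p => AffineMap.lineMap (F p) (F' p) s) ∧
        range (fun p => (AffineMap.lineMap (F p) (F' p) s : E (m + 1))) = range F := by
  classical
  -- the function of the box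
  set g : E (m + 1) → ℝ := fun w => (L (F (AA w))) 0 with hg
  set Q : Set (E (m + 1)) := box m (3 / 4) (3 / 4) with hQ
  set K : Set (E (m + 1)) := box m (5 / 8) (5 / 8) with hK
  set U : Set (E (m + 1)) := obox m (3 / 4) (3 / 4) with hU
  have hUo : IsOpen U := isOpen_obox _ _
  have hUQ : U ⊆ Q := obox_sub _ _
  have hKU : K ⊆ U := box_sub_obox (by norm_num) (by norm_num)
  have hKQ : K ⊆ Q := hKU.trans hUQ
  have hQc : IsCompact Q := isCompact_box _ _
  have hAc : ContinuousOn AA Q := fun w hw => (hA w hw).continuousAt.continuousWithinAt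
  have hLF : ∀ w ∈ Q, L (F (AA w)) = cn (g w) (tl w + b) := by
    intro w hw
    rw [← heq w hw]
    exact (cn_tl _).symm
  have hgc : ContinuousOn g Q := by
    intro w hw
    have h3 : Continuous (fun p : X => (L (F p)) 0) :=
      continuous_head.comp (L.continuous.comp hF)
    exact (h3.continuousAt.comp (hA w hw).continuousAt).continuousWithinAt
  -- inverse of AA
  obtain ⟨h, hh⟩ : ∃ h : X → E (m + 1), ∀ w ∈ Q, h (AA w) = w :=
    ⟨invFunOn AA Q, fun w hw => hAi.leftInvOn_invFunOn hw⟩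
  have hhd : ∀ w ∈ U, LD (m + 1) h (AA w) := fun w hw =>
    LD.inverse hUo (fun x hx => hA x (hUQ hx)) (fun x hx => hh x (hUQ hx)) hw
  have hUimo : IsOpen (AA '' U) := isOpen_image_of_LD hUo fun x hx => hA x (hUQ hx)
  have hKim : IsCompact (AA '' K) := (isCompact_box _ _).image_of_continuousOn (hAc.mono hKQ)
  have hKcl : IsClosed (AA '' K) := hKim.isClosed
  -- the compact set
  set S : Set X := ⋃ j, B j '' O j with hS
  have hSc : IsCompact S := by
    apply isCompact_iUnion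
    intro j
    exact (hO j).image_of_continuousOn fun z hz => (hBO j z hz).1.continuousAt.continuousWithinAt
  have hSF : ∀ p ∈ S, SmN m F p := by
    intro p hp
    obtain ⟨j, hj⟩ := mem_iUnion.1 hp
    obtain ⟨z, hz, rfl⟩ := hj
    exact (hBO j z hz).2
  set OO : Set (E (m + 1)) := Q ∩ AA ⁻¹' S with hOO
  have hOOc : IsCompact OO :=
    hQc.of_isClosed_subset (hAc.preimage_isClosed_of_isClosed hQc.isClosed hSc.isClosed)
      inter_subset_left
  have hOOg : ∀ w ∈ OO, ∀ᶠ y in 𝓝 w, ContDiffAt ℝ ∞ g y := fun w hw =>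
    smooth_head F L AA (hA w hw.1) (hSF _ hw.2)
  -- the bound for the transition maps
  have hbd : ∀ j, ∃ C : ℝ, 0 ≤ C ∧ ∀ z ∈ O j, B j z ∈ AA '' K →
      ‖fderiv ℝ (fun w => h (B j w)) z‖ ≤ C := by
    intro j
    have hBc : ContinuousOn (B j) (O j) := fun z hz =>
      (hBO j z hz).1.continuousAt.continuousWithinAt
    have hc1 : IsCompact (O j ∩ B j ⁻¹' (AA '' K)) :=
      (hO j).of_isClosed_subset
        (hBc.preimage_isClosed_of_isClosed (hO j).isClosed hKcl) inter_subset_left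
    have hc2 : ContinuousOn (fun z => fderiv ℝ (fun w => h (B j w)) z)
        (O j ∩ B j ⁻¹' (AA '' K)) := by
      rintro z ⟨hz, hz2⟩
      obtain ⟨w, hw, hwz⟩ := hz2
      have h1 : LD (m + 1) (fun w => h (B j w)) z := by
        refine LD.comp_fun ?_ (hBO j z hz).1
        rw [← hwz]
        exact hhd w (hKU hw)
      have h2 : ContDiffAt ℝ ∞ (fun w => h (B j w)) z := h1.contDiffAt
      exact (h2.fderiv_right (m := 0) (by simp)).continuousAt.continuousWithinAt
    obtain ⟨C, hC⟩ := hc1.exists_bound_of_continuousOn hc2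
    exact ⟨max C 0, le_max_right _ _, fun z hz hz2 => (hC z ⟨hz, hz2⟩).trans (le_max_left _ _)⟩
  choose C hC0 hC using hbd
  set CC : ℝ := ∑ j, C j with hCC
  have hCC0 : 0 ≤ CC := Finset.sum_nonneg fun j _ => hC0 j
  have hCj : ∀ j, C j ≤ CC := fun j =>
    Finset.single_le_sum (fun i _ => hC0 i) (Finset.mem_univ j)
  set l : ℝ := ‖(L.symm : E (m + 1) →L[ℝ] E (m + 1))‖ with hl
  have hl0 : 0 ≤ l := norm_nonneg _
  set η : ℝ := ε / ((l + 1) * (CC + 1)) with hη
  have hηpos : 0 < η := by positivity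
  have hη1 : (l + 1) * (CC + 1) * η = ε := by
    rw [hη]
    field_simp
  -- the blend
  obtain ⟨g', hg1, hg2, hg3, hg4, hg5, hg6, hg7⟩ := hB m (3 / 4) (1 / 2) (3 / 4) (1 / 2)
    (by norm_num) (by norm_num) (by norm_num) (by norm_num) g hgc hmono OO hOOc
    inter_subset_left hOOg η hηpos
  have h58 : box m ((3 / 4 + 1 / 2) / 2) ((3 / 4 + 1 / 2) / 2) = K := by
    rw [hK]
    norm_num
  rw [h58] at hg1
  -- the difference
  set δ : E (m + 1) → ℝ := fun w => g' w - g w with hδ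
  have hδK : ∀ w, w ∉ K → δ w = 0 := by
    intro w hw
    rw [hδ]
    simp only [hg1 w hw, sub_self]
  set J : ℝ →L[ℝ] E (m + 1) := (L.symm : E (m + 1) →L[ℝ] E (m + 1)).comp
    ((ContinuousLinearMap.id ℝ ℝ).smulRight e0) with hJ
  have hJa : ∀ t, L (J t) = t • e0 := by
    intro t
    simp [hJ]
  have hJn : ∀ t, ‖J t‖ ≤ l * |t| := by
    intro t
    have h1 : J t = (L.symm : E (m + 1) →L[ℝ] E (m + 1)) (t • e0) := rfl
    rw [h1]
    refine ((L.symm : E (m + 1) →L[ℝ] E (m + 1)).le_opNorm _).trans ?_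
    rw [norm_smul, norm_e0, mul_one, Real.norm_eq_abs]
  have hJn' : ‖J‖ ≤ l := J.opNorm_le_bound hl0 fun t => by
    rw [Real.norm_eq_abs]
    exact hJn t
  set F' : X → E (m + 1) := fun p => if p ∈ AA '' Q then F p + J (δ (h p)) else F p with hF'
  have hF'Q : ∀ w ∈ Q, F' (AA w) = F (AA w) + J (δ w) := by
    intro w hw
    rw [hF']
    simp only [if_pos (mem_image_of_mem AA hw), hh w hw]
  have hF'Q2 : ∀ p ∈ AA '' Q, F' p = F p + J (δ (h p)) := by
    intro p hp
    rw [hF']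
    simp only [if_pos hp]
  have hF'K : ∀ p, p ∉ AA '' K → F' p = F p := by
    intro p hp
    by_cases h1 : p ∈ AA '' Q
    · obtain ⟨w, hw, rfl⟩ := h1
      rw [hF'Q w hw, hδK w (fun hc => hp ⟨w, hc, rfl⟩), map_zero, add_zero]
    · rw [hF']
      simp only [if_neg h1]
  have hF'U : ∀ w ∈ U, F' =ᶠ[𝓝 (AA w)] fun p => F p + J (δ (h p)) := by
    intro w hw
    filter_upwards [hUimo.mem_nhds (mem_image_of_mem AA hw)] with p hp
    exact hF'Q2 p (image_mono hUQ hp)
  have hF'V : ∀ p, p ∉ AA '' K → F' =ᶠ[𝓝 p] F := by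
    intro p hp
    filter_upwards [hKcl.isOpen_compl.mem_nhds hp] with y hy
    exact hF'K y hy
  have hcases : ∀ p, (∃ w ∈ U, AA w = p) ∨ p ∉ AA '' K := by
    intro p
    by_cases h1 : p ∈ AA '' K
    · obtain ⟨w, hw, hwp⟩ := h1
      exact Or.inl ⟨w, hKU hw, hwp⟩
    · exact Or.inr h1
  have hLF' : ∀ w ∈ Q, L (F' (AA w)) = cn (g' w) (tl w + b) := by
    intro w hw
    rw [hF'Q w hw, map_add, hJa, hLF w hw, ← cn_head_add]
    congr 1
    rw [hδ]
    ring
  -- local formulas
  have hF'loc : ∀ w ∈ U, F' =ᶠ[𝓝 (AA w)] fun p => L.symm (cn (g' (h p)) (tl (h p) + b)) := by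
    intro w hw
    filter_upwards [hUimo.mem_nhds (mem_image_of_mem AA hw)] with p hp
    obtain ⟨u, hu, rfl⟩ := hp
    rw [hh u (hUQ hu), ← hLF' u (hUQ hu), L.symm_apply_apply]
  have hnorm : ∀ w ∈ U, (∀ᶠ y in 𝓝 w, ContDiffAt ℝ ∞ g' y) → fderiv ℝ g' w e0 ≠ 0 →
      LD (m + 1) F' (AA w) := by
    intro w hw h1 h2
    have h3 : LD (m + 1) (fun y => cn (g' y) (tl y + b)) w := LD_normal b h1 h2
    have h4 : LD (m + 1) (fun p => L.symm (cn (g' (h p)) (tl (h p) + b))) (AA w) := by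
      have h5 : LD (m + 1) (fun p => cn (g' (h p)) (tl (h p) + b)) (AA w) := by
        have h6 : LD (m + 1) (fun y => cn (g' y) (tl y + b)) (h (AA w)) := by
          rw [hh w (hUQ hw)]
          exact h3
        exact LD.comp_fun (g := fun y => cn (g' y) (tl y + b)) (f := h) h6 (hhd w hw)
      exact LD.comp_fun (LD_linear L.symm _) h5
    exact h4.congr (hF'loc w hw)
  have hKQim : ∀ p, p ∉ AA '' Q → p ∉ AA '' K := fun p hp hc => hp (image_mono hKQ hc)
  obtain ⟨hinj, hrange⟩ := inj_range F F' hFi L b AA g g' hLF hLF' hgc hg2 hmono hg3 hg1 hF'K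
  have hseg : ∀ s ∈ Icc (0 : ℝ) 1, Injective (fun p => AffineMap.lineMap (F p) (F' p) s) ∧
      range (fun p => (AffineMap.lineMap (F p) (F' p) s : E (m + 1))) = range F := by
    intro s hs
    refine inj_range F (fun p => AffineMap.lineMap (F p) (F' p) s) hFi L b AA g
      (fun w => (1 - s) * g w + s * g' w) hLF ?_ hgc ?_ hmono ?_ ?_ ?_
    · intro w hw
      have h1 : L (AffineMap.lineMap (F (AA w)) (F' (AA w)) s) =
          AffineMap.lineMap (L (F (AA w))) (L (F' (AA w))) s := by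
        simp [AffineMap.lineMap_apply]
      show L (AffineMap.lineMap (F (AA w)) (F' (AA w)) s) = _
      rw [h1, hLF w hw, hLF' w hw, cn_lineMap]
    · exact (continuousOn_const.mul hgc).add (continuousOn_const.mul hg2)
    · intro w hw w' hw' h1 h2
      have h3 := hmono w hw w' hw' h1 h2
      have h4 := hg3 w hw w' hw' h1 h2
      have h3' : g w < g w' := h3
      rcases hs.1.lt_or_eq with h5 | h5
      · have h6 := mul_lt_mul_of_pos_left h4 h5
        have h7 := mul_le_mul_of_nonneg_left h3'.le (sub_nonneg.2 hs.2)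
        show (1 - s) * g w + s * g' w < (1 - s) * g w' + s * g' w'
        linarith
      · rw [← h5]
        simpa using h3'
    · intro w hw
      show (1 - s) * g w + s * g' w = g w
      rw [hg1 w hw]
      ring
    · intro p hp
      show AffineMap.lineMap (F p) (F' p) s = F p
      rw [hF'K p hp, AffineMap.lineMap_same]
      rfl
  have hcont : Continuous F' := by
    rw [continuous_iff_continuousAt]
    intro p
    rcases hcases p with ⟨w, hw, rfl⟩ | hp
    · have h1 : ContinuousAt h (AA w) := (hhd w hw).continuousAt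
      have h2 : ContinuousAt δ (h (AA w)) := by
        rw [hh w (hUQ hw)]
        have hQn : Q ∈ 𝓝 w := mem_of_superset (hUo.mem_nhds hw) hUQ
        exact (hg2.continuousAt hQn).sub (hgc.continuousAt hQn)
      have h3 : ContinuousAt (fun p => F p + J (δ (h p))) (AA w) :=
        hF.continuousAt.add (J.continuous.continuousAt.comp (h2.comp h1))
      exact h3.congr (hF'U w hw).symm
    · exact hF.continuousAt.congr (hF'V p hp).symm
  have hclose : ∀ p, ‖F' p - F p‖ ≤ ε := by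
    intro p
    by_cases h1 : p ∈ AA '' Q
    · obtain ⟨w, hw, rfl⟩ := h1
      rw [hF'Q w hw, add_sub_cancel_left]
      refine (hJn _).trans ?_
      have h2 : |δ w| ≤ η := hg6 w hw
      calc l * |δ w| ≤ l * η := mul_le_mul_of_nonneg_left h2 hl0
        _ ≤ (l + 1) * (CC + 1) * η := by
          apply mul_le_mul_of_nonneg_right _ hηpos.le
          nlinarith
        _ = ε := hη1
    · rw [hF'K p (hKQim p h1), sub_self, norm_zero]
      exact hε.le
  have htl : ∀ p, tl (L (F' p)) = tl (L (F p)) := by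
    intro p
    by_cases h1 : p ∈ AA '' Q
    · rw [hF'Q2 p h1, map_add, map_add, hJa, map_smul, tl_e0, smul_zero, add_zero]
    · rw [hF'K p (hKQim p h1)]
  have hSm : ∀ p, SmN m F p → SmN m F' p := by
    intro p hp
    rcases hcases p with ⟨w, hw, rfl⟩ | hp2
    · have h1 : ∀ᶠ y in 𝓝 w, ContDiffAt ℝ ∞ g y := smooth_head F L AA (hA w (hUQ hw)) hp
      have h2 : ∀ᶠ y in 𝓝 w, ContDiffAt ℝ ∞ g' y := (hg5 w (hUQ hw) h1).1
      have h3 : ∀ᶠ y in 𝓝 w, ContDiffAt ℝ ∞ δ y := by
        filter_upwards [h1, h2] with y hy1 hy2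
        exact hy2.sub hy1
      have h4 : ∀ᶠ q in 𝓝 (AA w), ContDiffAt ℝ ∞ δ (h q) := by
        have h5 : ContinuousAt h (AA w) := (hhd w hw).continuousAt
        have h6 : 𝓝 (h (AA w)) = 𝓝 w := by rw [hh w (hUQ hw)]
        have h7 : Tendsto h (𝓝 (AA w)) (𝓝 w) := by
          rw [← h6]
          exact h5
        exact h7 h3
      have h8 : ∀ᶠ q in 𝓝 (AA w), F' =ᶠ[𝓝 q] fun p => F p + J (δ (h p)) :=
        eventually_eventually_nhds.2 (hF'U w hw)
      filter_upwards [h4, h8, hp, (hhd w hw).eventually] with q hq1 hq2 hq3 hq4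
      have h9 : ContMDiffAt (𝓡 (m + 1)) (𝓡 (m + 1)) ∞ (fun p => J (δ (h p))) q := by
        have h10 : ContDiffAt ℝ ∞ (fun w => J (δ w)) (h q) := J.contDiff.contDiffAt.comp _ hq1
        exact (contMDiffAt_iff_contDiffAt.2 h10).comp q hq4.contMDiffAt
      exact (hq3.add h9).congr_of_eventuallyEq hq2
    · have h8 : ∀ᶠ q in 𝓝 p, F' =ᶠ[𝓝 q] F := eventually_eventually_nhds.2 (hF'V p hp2)
      filter_upwards [h8, hp] with q hq1 hq2
      exact hq2.congr_of_eventuallyEq hq1
  have hSmLD : ∀ p, LD (m + 1) F p → SmN m F p := by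
    intro p hp
    filter_upwards [hp.eventually] with q hq
    exact hq.contMDiffAt
  have hLD : ∀ p, LD (m + 1) F p → LD (m + 1) F' p := by
    intro p hp
    rcases hcases p with ⟨w, hw, rfl⟩ | hp2
    · have h1 : ∀ᶠ y in 𝓝 w, ContDiffAt ℝ ∞ g y :=
        smooth_head F L AA (hA w (hUQ hw)) (hSmLD _ hp)
      have h2 : LD (m + 1) (fun y => cn (g y) (tl y + b)) w := by
        have h3 : LD (m + 1) (fun y => L (F (AA y))) w :=
          LD.comp_fun (g := fun z => L z) (LD_linear L _) (LD.comp_fun hp (hA w (hUQ hw)))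
        refine h3.congr ?_
        filter_upwards [hUo.mem_nhds hw] with y hy
        exact (hLF y (hUQ hy)).symm
      have h4 : fderiv ℝ g w e0 ≠ 0 := fderiv_ne_of_LD b h2
      have h5 : 0 ≤ fderiv ℝ g w e0 :=
        fderiv_e0_nonneg hmono hw.1.le hw.2 (h1.self_of_nhds.differentiableAt (by simp))
      obtain ⟨h6, h7⟩ := hg5 w (hUQ hw) h1
      exact hnorm w hw h6 (h7 (lt_of_le_of_ne h5 h4.symm)).ne'
    · exact hp.congr (hF'V p hp2)
  refine ⟨F', hcont, hinj, hrange, fun p hp => hF'K p (hKQim p hp), hclose, htl, hSm, hLD, ?_, ?_,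
    hseg⟩
  · intro w hw
    have hwU : w ∈ U := box_sub_obox (by norm_num) (by norm_num) hw
    obtain ⟨h1, h2⟩ := hg4 w hw
    exact hnorm w hwU h1 h2.ne'
  · intro j z hz
    obtain ⟨hBz, hFz⟩ := hBO j z hz
    by_cases h1 : B j z ∈ AA '' K
    · obtain ⟨w, hw, hwz⟩ := h1
      have hwU : w ∈ U := hKU hw
      have hwQ : w ∈ Q := hKQ hw
      have hwO : w ∈ OO := ⟨hwQ, by
        change AA w ∈ S
        rw [hwz]
        exact mem_iUnion.2 ⟨j, ⟨z, hz, rfl⟩⟩⟩
      have h2 : ∀ᶠ y in 𝓝 w, ContDiffAt ℝ ∞ g y := hOOg w hwO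
      have h3 : ∀ᶠ y in 𝓝 w, ContDiffAt ℝ ∞ g' y := (hg5 w hwQ h2).1
      have h4 := hg7 w hwO
      have hgd : DifferentiableAt ℝ g w := h2.self_of_nhds.differentiableAt (by simp)
      have hgd' : DifferentiableAt ℝ g' w := h3.self_of_nhds.differentiableAt (by simp)
      have hhw : h (B j z) = w := by rw [← hwz, hh w hwQ]
      have h5 : HasFDerivAt δ (fderiv ℝ g' w - fderiv ℝ g w) (h (B j z)) := by
        rw [hhw]
        exact hgd'.hasFDerivAt.sub hgd.hasFDerivAt
      have h6 : LD (m + 1) (fun y => h (B j y)) z := by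
        refine LD.comp_fun ?_ hBz
        rw [← hwz]
        exact hhd w hwU
      have h7 : HasFDerivAt (fun y => h (B j y)) (fderiv ℝ (fun y => h (B j y)) z) z :=
        (h6.contDiffAt.differentiableAt (by simp)).hasFDerivAt
      have h8 : HasFDerivAt (fun y => J (δ (h (B j y))))
          (J.comp ((fderiv ℝ g' w - fderiv ℝ g w).comp (fderiv ℝ (fun y => h (B j y)) z))) z :=
        J.hasFDerivAt.comp z (HasFDerivAt.comp (g := δ) (f := fun y => h (B j y)) z h5 h7)
      have h9 : DifferentiableAt ℝ (fun y => F (B j y)) z := by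
        have h10 : ContDiffAt ℝ ∞ (fun y => F (B j y)) z :=
          contMDiffAt_iff_contDiffAt.1 (hFz.self_of_nhds.comp z hBz.contMDiffAt)
        exact h10.differentiableAt (by simp)
      have h11 : (fun y => F' (B j y)) =ᶠ[𝓝 z] fun y => F (B j y) + J (δ (h (B j y))) := by
        have h12 : F' =ᶠ[𝓝 (B j z)] fun p => F p + J (δ (h p)) := by
          rw [← hwz]
          exact hF'U w hwU
        exact hBz.continuousAt h12
      have h13 := (h9.hasFDerivAt.add h8).congr_of_eventuallyEq h11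
      rw [h13.fderiv, add_sub_cancel_left]
      calc ‖J.comp ((fderiv ℝ g' w - fderiv ℝ g w).comp (fderiv ℝ (fun y => h (B j y)) z))‖
          ≤ ‖J‖ * ‖(fderiv ℝ g' w - fderiv ℝ g w).comp (fderiv ℝ (fun y => h (B j y)) z)‖ :=
            ContinuousLinearMap.opNorm_comp_le _ _
        _ ≤ ‖J‖ * (‖fderiv ℝ g' w - fderiv ℝ g w‖ * ‖fderiv ℝ (fun y => h (B j y)) z‖) :=
            mul_le_mul_of_nonneg_left (ContinuousLinearMap.opNorm_comp_le _ _) (norm_nonneg _)
        _ ≤ l * (η * CC) := by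
            apply mul_le_mul hJn' _ (by positivity) hl0
            apply mul_le_mul h4 _ (norm_nonneg _) hηpos.le
            exact (hC j z hz ⟨w, hw, hwz⟩).trans (hCj j)
        _ ≤ (l + 1) * (CC + 1) * η := by
            have : 0 ≤ l * η := mul_nonneg hl0 hηpos.le
            have : 0 ≤ CC * η := mul_nonneg hCC0 hηpos.le
            nlinarith
        _ = ε := hη1
    · have h11 : (fun y => F' (B j y)) =ᶠ[𝓝 z] fun y => F (B j y) :=
        hBz.continuousAt (hF'V _ h1)
      rw [h11.fderiv_eq, sub_self, norm_zero]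
      exact hε.le

end Pool.Agent.V1127.Iso
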