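import Pool.Agent.V1127.Iso.AllP
import Pool.Agent.Y522.NA.AllC

/-!
# Path components of the smooth bijections of corank at most one
-/

set_option autoImplicit false

open Set Filter Topology Metric Function
open scoped Manifold ContDiff

noncomputable section

namespace Pool.Agent.V1127.Iso

open Pool.Agent.Y522 Pool.Agent.Y522.NA Pool.Agent.Y170.NA

variable {m : ℕ} {X Y : Type} [TopologicalSpace X] [T2Space X] [CompactSpace X]
  [ChartedSpace (E (m + 1)) X] [IsManifold (𝓡 (m + 1)) ∞ X] [TopologicalSpace Y]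
  [ChartedSpace (E (m + 1)) Y] [IsManifold (𝓡 (m + 1)) ∞ Y]

/-- removal of the singular set on closed manifolds -/
theorem removal_q (f : X → Y) (hG : Gen m f) (W : Set X) (hW : IsOpen W)
    (hWL : ∀ x, x ∉ W → LD (m + 1) f x) (O : Set (X × Y)) (hO : IsOpen O)
    (hfO : ∀ x, (x, f x) ∈ O) :
    ∃ φ : X → Y, Bijective φ ∧ (∀ x, LD (m + 1) φ x) ∧ Pth m O W f f φ := by
  have hSc : IsClosed {x | ¬ LD (m + 1) f x} := by
    rw [← isOpen_compl_iff]
    rw [isOpen_iff_mem_nhds]
    intro x hx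
    have h1 : LD (m + 1) f x := by
      by_contra h
      exact hx h
    filter_upwards [h1.eventually] with y hy h
    exact h hy
  obtain ⟨φ, -, h2, h3, -, h5⟩ := removal_p f hG {x | ¬ LD (m + 1) f x} hSc.isCompact
    (fun x hx => by
      by_contra h
      exact hx h) W hW
    (fun x hx => by
      by_contra h
      exact hx (hWL x h)) O hO hfO
  exact ⟨φ, h2, h3, h5⟩

omit [T2Space X] [CompactSpace X] in
/-- a bijective local diffeomorphism is in the class -/
theorem Gen.of_LD {φ : X → Y} (hb : Bijective φ) (hL : ∀ x, LD (m + 1) φ x) : Gen m φ := by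
  refine ⟨fun x => (hL x).contMDiffAt, hb, fun x => ?_⟩
  have h1 := (hL x).mfderiv_injective
  let D : E (m + 1) →L[ℝ] E (m + 1) := mfderiv (𝓡 (m + 1)) (𝓡 (m + 1)) φ x
  show m ≤ Module.finrank ℝ (LinearMap.range D.toLinearMap)
  have h2 : Injective D.toLinearMap := h1
  rw [LinearMap.finrank_range_of_inj h2, finrank_euclideanSpace, Fintype.card_fin]
  omega

/-- diffeomorphisms joined by a smooth path of smooth bijections of corank at most one are joined
by a smooth path of diffeomorphisms -/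
theorem diff_path [T2Space Y] {φ ψ : X → Y} (hφ : ∀ x, LD (m + 1) φ x)
    (hψ : ∀ x, LD (m + 1) ψ x) {O : Set (X × Y)} {W : Set X} {f₀ : X → Y}
    (h : Pth m O W f₀ φ ψ) :
    ∃ K : ℝ × X → Y, Smf m K ∧ (∀ t, Bijective (fun x => K (t, x))) ∧
      (∀ t x, LD (m + 1) (fun x => K (t, x)) x) ∧ (∀ x, K (0, x) = φ x) ∧
      ∀ x, K (1, x) = ψ x := by
  obtain ⟨K, k1, k2, -, -, k5, k6⟩ := h
  have e0 : (fun x => K (0, x)) = φ := funext fun x => k5 0 le_rfl x
  have e1 : (fun x => K (1, x)) = ψ := funext fun x => k6 1 le_rfl x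
  obtain ⟨L, l1, l2, l3, l4, l5⟩ := Pool.Agent.Y522.NA.coi_final m X Y K k1
    (fun t _ => (k2 t).2.1) (fun t _ x => (k2 t).2.2 x) (by rw [e0]; exact hφ)
    (by rw [e1]; exact hψ)
  exact ⟨L, l1, l2, l3, fun x => (l4 x).trans (congrFun e0 x), fun x =>
    (l5 x).trans (congrFun e1 x)⟩

omit [T2Space X] [CompactSpace X] [IsManifold (𝓡 (m + 1)) ∞ X] [IsManifold (𝓡 (m + 1)) ∞ Y] in
/-- a path is a homotopy -/
theorem Pth.homotopic {f g : C(X, Y)} {O : Set (X × Y)} {W : Set X} {f₀ : X → Y}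
    (h : Pth m O W f₀ f g) : f.Homotopic g := by
  obtain ⟨K, k1, -, -, -, k5, k6⟩ := h
  have hc : Continuous K := ContMDiff.continuous k1
  refine ⟨{ toFun := fun q => K ((q.1 : ℝ), q.2), continuous_toFun := ?_, map_zero_left := ?_,
            map_one_left := ?_ }⟩
  · exact hc.comp ((continuous_subtype_val.comp continuous_fst).prodMk continuous_snd)
  · exact fun x => k5 0 le_rfl x
  · exact fun x => k6 1 le_rfl x

end Pool.Agent.V1127.Iso
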