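import Pool.Agent.V1127.Iso.NC

/-!
# Infinite concatenation of paths with locally finite supports
-/

set_option autoImplicit false

open Set Filter Topology Metric Function
open scoped Manifold ContDiff

noncomputable section

namespace Pool.Agent.V1127.Iso

open Pool.Agent.Y522 Pool.Agent.Y522.NA Pool.Agent.Y170.NA

section lim

/-- the infinite path, `k`-th step during the time `[k, k + 1]` -/
def HH {X Y : Type} (f : X → Y) (K : ℕ → ℝ × X → Y) (q : ℝ × X) : Y :=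
  if q.1 < 0 then f q.2 else K ⌊q.1⌋₊ (3 * (q.1 - ⌊q.1⌋₊) - 1, q.2)

section pre

variable {X Y : Type} {f : X → Y} {G : ℕ → X → Y} {K : ℕ → ℝ × X → Y}

theorem HH_neg (t : ℝ) (x : X) (h : t < 0) : HH f K (t, x) = f x := if_pos h

theorem HH_floor (k : ℕ) (t : ℝ) (x : X) (h : (k : ℝ) ≤ t) (h' : t < k + 1) :
    HH f K (t, x) = K k (3 * (t - k) - 1, x) := by
  have h0 : ¬ t < 0 := not_lt.2 ((Nat.cast_nonneg k).trans h)
  have h1 : ⌊t⌋₊ = k := by
    rw [Nat.floor_eq_iff ((Nat.cast_nonneg k).trans h)]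
    exact ⟨h, h'⟩
  show (if t < 0 then f x else K ⌊t⌋₊ (3 * (t - ⌊t⌋₊) - 1, x)) = _
  rw [if_neg h0, h1]

theorem HH_near (h0 : G 0 = f) (hl : ∀ k, ∀ t ≤ (0 : ℝ), ∀ x, K k (t, x) = G k x)
    (hr : ∀ k t, (1 : ℝ) ≤ t → ∀ x, K k (t, x) = G (k + 1) x) (k : ℕ) (t : ℝ) (x : X)
    (h : (k : ℝ) - 1 / 3 < t) (h' : t < k + 1 / 3) : HH f K (t, x) = G k x := by
  rcases lt_or_ge t k with h1 | h1
  · rcases Nat.eq_zero_or_pos k with rfl | hk
    · rw [HH_neg _ _ (by simpa using h1), h0]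
    · obtain ⟨k, rfl⟩ : ∃ j, k = j + 1 := ⟨k - 1, by omega⟩
      push_cast at h h' h1
      rw [HH_floor k t x (by linarith) h1, hr k _ (by linarith)]
  · rw [HH_floor k t x h1 (by linarith), hl k _ (by linarith)]

theorem HH_cases (f : X → Y) (K : ℕ → ℝ × X → Y) (t : ℝ) :
    (t < 0 ∧ ∀ x, HH f K (t, x) = f x) ∨
      ∃ k : ℕ, (k : ℝ) ≤ t ∧ t < k + 1 ∧ ∀ x, HH f K (t, x) = K k (3 * (t - k) - 1, x) := by
  rcases lt_or_ge t 0 with h | h
  · exact Or.inl ⟨h, fun x => HH_neg t x h⟩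
  · exact Or.inr ⟨⌊t⌋₊, Nat.floor_le h, Nat.lt_floor_add_one t, fun x =>
      HH_floor _ t x (Nat.floor_le h) (Nat.lt_floor_add_one t)⟩

end pre

variable {m : ℕ} {X Y : Type} [TopologicalSpace X] [ChartedSpace (E (m + 1)) X]
  [TopologicalSpace Y] [ChartedSpace (E (m + 1)) Y]
  {f : X → Y} {G : ℕ → X → Y} {K : ℕ → ℝ × X → Y}

theorem HH_smooth (h0 : G 0 = f) (hG : ∀ k, ContMDiff (𝓡 (m + 1)) (𝓡 (m + 1)) ∞ (G k))
    (hK : ∀ k, Smf m (K k)) (hl : ∀ k, ∀ t ≤ (0 : ℝ), ∀ x, K k (t, x) = G k x)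
    (hr : ∀ k t, (1 : ℝ) ≤ t → ∀ x, K k (t, x) = G (k + 1) x) : Smf m (HH f K) := by
  rintro ⟨t, x⟩
  rcases lt_or_ge t 0 with h | h
  · have h1 : ContMDiff ((𝓘(ℝ, ℝ)).prod (𝓡 (m + 1))) (𝓡 (m + 1)) ∞ (fun q : ℝ × X => f q.2) := by
      rw [← h0]
      exact (hG 0).comp contMDiff_snd
    refine (h1 (t, x)).congr_of_eventuallyEq ?_
    have h2 : ∀ᶠ q : ℝ × X in 𝓝 (t, x), q.1 < 0 :=
      continuous_fst.continuousAt.eventually (gt_mem_nhds h)
    filter_upwards [h2] with q hq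
    exact HH_neg q.1 q.2 hq
  · rcases (Nat.floor_le h).eq_or_lt with h1 | h1
    · set k := ⌊t⌋₊
      have h2 : ContMDiff ((𝓘(ℝ, ℝ)).prod (𝓡 (m + 1))) (𝓡 (m + 1)) ∞
          (fun q : ℝ × X => G k q.2) := (hG k).comp contMDiff_snd
      refine (h2 (t, x)).congr_of_eventuallyEq ?_
      have h3 : ∀ᶠ q : ℝ × X in 𝓝 (t, x), (k : ℝ) - 1 / 3 < q.1 :=
        continuous_fst.continuousAt.eventually (lt_mem_nhds (by
          show (k : ℝ) - 1 / 3 < t
          linarith))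
      have h4 : ∀ᶠ q : ℝ × X in 𝓝 (t, x), q.1 < (k : ℝ) + 1 / 3 :=
        continuous_fst.continuousAt.eventually (gt_mem_nhds (by
          show t < (k : ℝ) + 1 / 3
          linarith))
      filter_upwards [h3, h4] with q hq hq'
      exact HH_near h0 hl hr k q.1 q.2 hq hq'
    · have h5 := Nat.lt_floor_add_one t
      set k := ⌊t⌋₊
      have h2 : Smf m fun q : ℝ × X => K k (3 * (q.1 - k) - 1, q.2) :=
        (hK k).repar (φ := fun t => 3 * (t - k) - 1) (by fun_prop)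
      refine (h2 (t, x)).congr_of_eventuallyEq ?_
      have h3 : ∀ᶠ q : ℝ × X in 𝓝 (t, x), (k : ℝ) < q.1 :=
        continuous_fst.continuousAt.eventually (lt_mem_nhds h1)
      have h4 : ∀ᶠ q : ℝ × X in 𝓝 (t, x), q.1 < (k : ℝ) + 1 :=
        continuous_fst.continuousAt.eventually (gt_mem_nhds h5)
      filter_upwards [h3, h4] with q hq hq'
      exact HH_floor k q.1 q.2 hq.le hq'

/-- the infinite concatenation -/
theorem infinite_path (O : Set (X × Y)) (W : Set X) (U : ℕ → Set X) (h0 : G 0 = f)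
    (hG : ∀ k, Gen m (G k)) (hGO : ∀ k x, (x, G k x) ∈ O) (hUW : ∀ k, U k ⊆ W)
    (hU : ∀ x, ∃ Q ∈ 𝓝 x, ∃ k0, ∀ k, k0 ≤ k → ∀ x' ∈ Q, x' ∉ U k)
    (hP : ∀ k, Pth m O (U k) (G k) (G k) (G (k + 1)))
    (Fi : X → Y) (hFi : ∀ x, ∃ Q ∈ 𝓝 x, ∃ k0, ∀ k, k0 ≤ k → ∀ x' ∈ Q, Fi x' = G k x')
    (hFb : Bijective Fi) : Pth m O W f f Fi := by
  choose K k1 k2 k3 k4 k5 k6 using hP
  have hH := HH_smooth h0 (fun k => (hG k).1) k1 k5 k6
  have hHG : ∀ t, Gen m fun x => HH f K (t, x) := by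
    intro t
    rcases HH_cases f K t with ⟨-, h⟩ | ⟨k, -, -, h⟩
    · rw [show (fun x => HH f K (t, x)) = G 0 from funext fun x => (h x).trans (by rw [h0])]
      exact hG 0
    · rw [show (fun x => HH f K (t, x)) = fun x => K k (3 * (t - k) - 1, x) from funext h]
      exact k2 k _
  have hHO : ∀ t x, (x, HH f K (t, x)) ∈ O := by
    intro t x
    rcases HH_cases f K t with ⟨-, h⟩ | ⟨k, -, -, h⟩
    · rw [h x, ← h0]
      exact hGO 0 x
    · rw [h x]
      exact k3 k _ x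
  have hGf : ∀ k x, x ∉ W → G k x = f x := by
    intro k
    induction k with
    | zero => intro x _; rw [h0]
    | succ k ih =>
      intro x hx
      rw [← k6 k 1 le_rfl x, k4 k 1 x (fun h => hx (hUW k h))]
      exact ih x hx
  have hHW : ∀ t x, x ∉ W → HH f K (t, x) = f x := by
    intro t x hx
    rcases HH_cases f K t with ⟨-, h⟩ | ⟨k, -, -, h⟩
    · exact h x
    · rw [h x, k4 k _ x (fun h => hx (hUW k h))]
      exact hGf k x hx
  -- stability
  have hstab : ∀ x, ∃ Q ∈ 𝓝 x, ∃ k0 : ℕ, (∀ x' ∈ Q, Fi x' = G k0 x') ∧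
      ∀ s : ℝ, (k0 : ℝ) ≤ s → ∀ x' ∈ Q, HH f K (s, x') = G k0 x' := by
    intro x
    obtain ⟨Q1, hQ1, a, ha⟩ := hU x
    obtain ⟨Q2, hQ2, b, hb⟩ := hFi x
    refine ⟨Q1 ∩ Q2, inter_mem hQ1 hQ2, max a b, fun x' hx' => hb _ (le_max_right _ _) x' hx'.2,
      fun s hs x' hx' => ?_⟩
    rcases HH_cases f K s with ⟨h, -⟩ | ⟨k, hk1, hk2, h⟩
    · have h1 : (0 : ℝ) ≤ s := (Nat.cast_nonneg _).trans hs
      exact absurd h (not_lt.2 h1)
    · have h1 : max a b ≤ k := by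
        have h2 : ((max a b : ℕ) : ℝ) < (k : ℝ) + 1 := hs.trans_lt hk2
        have h3 : max a b < k + 1 := by exact_mod_cast h2
        omega
      rw [h x', k4 k _ x' (ha k ((le_max_left _ _).trans h1) x' hx'.1),
        ← hb k ((le_max_right _ _).trans h1) x' hx'.2, hb _ (le_max_right a b) x' hx'.2]
  have hFG : ∀ x, ∃ k0, Fi =ᶠ[𝓝 x] G k0 := by
    intro x
    obtain ⟨Q, hQ, k0, h1, -⟩ := hstab x
    exact ⟨k0, by filter_upwards [hQ] with y hy using h1 y hy⟩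
  have hFiG : Gen m Fi := by
    refine ⟨fun x => ?_, hFb, fun x => ?_⟩
    · obtain ⟨k0, h1⟩ := hFG x
      exact ((hG k0).1 x).congr_of_eventuallyEq h1
    · obtain ⟨k0, h1⟩ := hFG x
      rw [h1.mfderiv_eq]
      exact (hG k0).2.2 x
  have hFO : ∀ x, (x, Fi x) ∈ O := by
    intro x
    obtain ⟨k0, h1⟩ := hFG x
    rw [h1.self_of_nhds]
    exact hGO k0 x
  have hFW : ∀ x, x ∉ W → Fi x = f x := by
    intro x hx
    obtain ⟨k0, h1⟩ := hFG x
    rw [h1.self_of_nhds]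
    exact hGf k0 x hx
  classical
  let M : ℝ × X → Y := fun q => if q.1 < 1 then HH f K (q.1 / (1 - q.1), q.2) else Fi q.2
  have hM1 : ∀ t x, t < 1 → M (t, x) = HH f K (t / (1 - t), x) := fun t x ht => if_pos ht
  have hM2 : ∀ t x, (1 : ℝ) ≤ t → M (t, x) = Fi x := fun t x ht => if_neg (not_lt.2 ht)
  refine ⟨M, ?_, fun t => ?_, fun t x => ?_, fun t x hx => ?_, fun t ht x => ?_,
    fun t ht x => hM2 t x ht⟩
  · rintro ⟨t, x⟩
    rcases lt_or_ge t 1 with ht | ht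
    · have h1 : ContMDiffAt ((𝓘(ℝ, ℝ)).prod (𝓡 (m + 1))) ((𝓘(ℝ, ℝ)).prod (𝓡 (m + 1))) ∞
          (fun q : ℝ × X => (q.1 / (1 - q.1), q.2)) (t, x) := by
        have h2 : ContDiffAt ℝ ∞ (fun s : ℝ => s / (1 - s)) t :=
          contDiffAt_id.div (contDiffAt_const.sub contDiffAt_id) (by
            show (1 : ℝ) - t ≠ 0
            linarith)
        exact (ContMDiffAt.comp (g := fun s : ℝ => s / (1 - s)) (f := fun q : ℝ × X => q.1)
          (t, x) h2.contMDiffAt contMDiffAt_fst).prodMk contMDiffAt_snd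
      have h3 : ContMDiffAt ((𝓘(ℝ, ℝ)).prod (𝓡 (m + 1))) (𝓡 (m + 1)) ∞
          (fun q : ℝ × X => HH f K (q.1 / (1 - q.1), q.2)) (t, x) :=
        ContMDiffAt.comp (g := HH f K) (f := fun q : ℝ × X => (q.1 / (1 - q.1), q.2)) (t, x)
          (hH _) h1
      refine h3.congr_of_eventuallyEq ?_
      have h4 : ∀ᶠ q : ℝ × X in 𝓝 (t, x), q.1 < 1 :=
        continuous_fst.continuousAt.eventually (gt_mem_nhds ht)
      filter_upwards [h4] with q hq
      exact hM1 q.1 q.2 hq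
    · obtain ⟨Q, hQ, k0, h1, h2⟩ := hstab x
      have h3 : ContMDiff ((𝓘(ℝ, ℝ)).prod (𝓡 (m + 1))) (𝓡 (m + 1)) ∞
          (fun q : ℝ × X => G k0 q.2) := (hG k0).1.comp contMDiff_snd
      refine (h3 (t, x)).congr_of_eventuallyEq ?_
      have h4 : ∀ᶠ q : ℝ × X in 𝓝 (t, x), (k0 : ℝ) / (k0 + 1) < q.1 := by
        refine continuous_fst.continuousAt.eventually (lt_mem_nhds ?_)
        show (k0 : ℝ) / (k0 + 1) < t
        have h5 : (k0 : ℝ) / (k0 + 1) < 1 := by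
          rw [div_lt_one (by positivity)]
          linarith
        linarith
      have h5 : ∀ᶠ q : ℝ × X in 𝓝 (t, x), q.2 ∈ Q :=
        (continuous_snd.tendsto (t, x)).eventually hQ
      filter_upwards [h4, h5] with q hq hq'
      rcases lt_or_ge q.1 1 with h6 | h6
      · show M (q.1, q.2) = _
        rw [hM1 q.1 q.2 h6]
        refine h2 _ ?_ q.2 hq'
        rw [div_lt_iff₀ (by positivity)] at hq
        rw [le_div_iff₀ (by linarith)]
        linarith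
      · show M (q.1, q.2) = _
        rw [hM2 q.1 q.2 h6]
        exact h1 _ hq'
  · rcases lt_or_ge t 1 with ht | ht
    · rw [show (fun x => M (t, x)) = fun x => HH f K (t / (1 - t), x) from
        funext fun x => hM1 t x ht]
      exact hHG _
    · rw [show (fun x => M (t, x)) = Fi from funext fun x => hM2 t x ht]
      exact hFiG
  · rcases lt_or_ge t 1 with ht | ht
    · rw [hM1 t x ht]
      exact hHO _ x
    · rw [hM2 t x ht]
      exact hFO x
  · rcases lt_or_ge t 1 with ht | ht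
    · rw [hM1 t x ht]
      exact hHW _ x hx
    · rw [hM2 t x ht]
      exact hFW x hx
  · rw [hM1 t x (by linarith)]
    have h1 : t / (1 - t) ≤ 0 := div_nonpos_of_nonpos_of_nonneg ht (by linarith)
    rcases h1.lt_or_eq with h2 | h2
    · exact HH_neg _ _ h2
    · rw [h2, HH_near h0 k5 k6 0 0 x (by norm_num) (by norm_num), h0]

end lim

end Pool.Agent.V1127.Iso
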