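import Pool.Agent.V1127.Sf.SchM

/-!
# Local homeomorphisms which near each point are smooth of corank at most one or have such an
inverse
-/

set_option autoImplicit false

open Set Filter Topology Metric Function
open scoped Manifold ContDiff

noncomputable section

namespace Pool.Agent.V1127.Iso

open Pool.Agent.Y522 Pool.Agent.Y170.NA

section pull

variable {H M N : Type} [TopologicalSpace H] [TopologicalSpace M] [TopologicalSpace N]
  [ChartedSpace H N]

/-- the charted space structure pulled back by a local homeomorphism -/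
@[reducible] def pull (f : M → N) (hf : IsLocalHomeomorph f) : ChartedSpace H M where
  atlas := {e | ∃ x : M, e = (hf x).choose ≫ₕ chartAt H (f x)}
  chartAt x := (hf x).choose ≫ₕ chartAt H (f x)
  mem_chart_source x := by
    have h := (hf x).choose_spec
    rw [OpenPartialHomeomorph.trans_source]
    refine ⟨h.1, ?_⟩
    show (hf x).choose x ∈ (chartAt H (f x)).source
    rw [← h.2]
    exact mem_chart_source H (f x)
  chart_mem_atlas x := ⟨x, rfl⟩

theorem pull_groupoid (G : StructureGroupoid H) [ClosedUnderRestriction G] [HasGroupoid N G]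
    (f : M → N) (hf : IsLocalHomeomorph f) : @HasGroupoid H _ M _ (pull f hf) G := by
  let := pull (H := H) f hf
  constructor
  rintro _ _ ⟨x, rfl⟩ ⟨y, rfl⟩
  have ha := (hf x).choose_spec.2
  have hb := (hf y).choose_spec.2
  generalize (hf x).choose = a at ha
  generalize (hf y).choose = b at hb
  have h1 : (chartAt H (f x)).symm ≫ₕ chartAt H (f y) ∈ G :=
    HasGroupoid.compatible (chart_mem_atlas H (f x)) (chart_mem_atlas H (f y))
  generalize chartAt H (f x) = c at h1 ⊢
  generalize chartAt H (f y) = c' at h1 ⊢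
  have hs := ((a ≫ₕ c).symm ≫ₕ b ≫ₕ c').open_source
  have h2 := closedUnderRestriction' h1 hs
  have key : ∀ z ∈ ((a ≫ₕ c).symm ≫ₕ b ≫ₕ c').source,
      z ∈ (c.symm ≫ₕ c').source ∧ b (a.symm (c.symm z)) = c.symm z := by
    intro z hz
    simp only [OpenPartialHomeomorph.trans_source, OpenPartialHomeomorph.symm_source,
      OpenPartialHomeomorph.trans_target, mem_inter_iff, mem_preimage] at hz
    obtain ⟨⟨z1, z2⟩, z3, z4⟩ := hz
    have e1 : b (a.symm (c.symm z)) = c.symm z := by
      rw [← hb, ha]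
      exact a.right_inv z2
    refine ⟨?_, e1⟩
    simp only [OpenPartialHomeomorph.trans_source, OpenPartialHomeomorph.symm_source,
      mem_inter_iff, mem_preimage]
    refine ⟨z1, ?_⟩
    have z4' : b (a.symm (c.symm z)) ∈ c'.source := z4
    rwa [e1] at z4'
  refine G.mem_of_eqOnSource h2 ⟨?_, ?_⟩
  · rw [OpenPartialHomeomorph.restr_source' _ _ hs]
    ext z
    exact ⟨fun hz => ⟨(key z hz).1, hz⟩, fun hz => hz.2⟩
  · intro z hz
    show c' (b (a.symm (c.symm z))) = c' (c.symm z)
    rw [(key z hz).2]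

end pull

section smooth

variable {m : ℕ} {M N : Type} [TopologicalSpace M] [TopologicalSpace N]
  [ChartedSpace (E (m + 1)) N] [IsManifold (𝓡 (m + 1)) ∞ N]

theorem pull_isManifold (f : M → N) (hf : IsLocalHomeomorph f) :
    @IsManifold ℝ _ (E (m + 1)) _ _ (E (m + 1)) _ (𝓡 (m + 1)) ∞ M _ (pull f hf) := by
  let := pull (H := E (m + 1)) f hf
  have : HasGroupoid M (contDiffGroupoid ∞ (𝓡 (m + 1))) := pull_groupoid _ f hf
  exact IsManifold.mk' _ _ _

theorem pull_LD (f : M → N) (hf : IsLocalHomeomorph f) (x : M) :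
    @LD (m + 1) M N _ (pull f hf) _ _ f x := by
  let := pull (H := E (m + 1)) f hf
  have := pull_isManifold (m := m) f hf
  have hx : x ∈ (chartAt (E (m + 1)) x).source := mem_chart_source (E (m + 1)) x
  have h0 : ∀ y ∈ (chartAt (E (m + 1)) x).source, (chartAt (E (m + 1)) (f x)).symm (chartAt (E (m + 1)) x y) = f y ∧
      chartAt (E (m + 1)) x y ∈ (chartAt (E (m + 1)) (f x)).target := by
    intro y hy
    have hy' : y ∈ ((hf x).choose ≫ₕ chartAt (E (m + 1)) (f x)).source := hy
    rw [OpenPartialHomeomorph.trans_source] at hy'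
    have h1 := (hf x).choose_spec.2
    have h2 : f y ∈ (chartAt (E (m + 1)) (f x)).source := by
      have := hy'.2
      rw [mem_preimage, ← h1] at this
      exact this
    have h3 : chartAt (E (m + 1)) x y = chartAt (E (m + 1)) (f x) (f y) := by
      show chartAt (E (m + 1)) (f x) ((hf x).choose y) = _
      rw [← h1]
    rw [h3]
    exact ⟨(chartAt (E (m + 1)) (f x)).left_inv h2, (chartAt (E (m + 1)) (f x)).map_source h2⟩
  have h1 : f =ᶠ[𝓝 x] fun y => (chartAt (E (m + 1)) (f x)).symm (chartAt (E (m + 1)) x y) := by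
    filter_upwards [(chartAt (E (m + 1)) x).open_source.mem_nhds hx] with y hy
    exact (h0 y hy).1.symm
  refine LD.congr ?_ h1
  exact LD.comp_fun (chart_symm_smooth _ (h0 x hx).2) (Pool.Agent.Y66.CM.LD_chart x x hx)

end smooth

/-- a copy of the type `M` -/
def Syn (M : Type) : Type := M

instance {M : Type} [t : TopologicalSpace M] : TopologicalSpace (Syn M) := t

variable {m : ℕ} {M N : Type} [TopologicalSpace M] [T2Space M] [SigmaCompactSpace M]
  [ChartedSpace (E (m + 1)) M] [IsManifold (𝓡 (m + 1)) ∞ M] [TopologicalSpace N]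
  [ChartedSpace (E (m + 1)) N] [IsManifold (𝓡 (m + 1)) ∞ N]

/-- **Local homeomorphisms which near each point are smooth of corank at most one or have such a
local inverse.** -/
theorem locm (f : M → N) (hf : IsLocalHomeomorph f)
    (h : ∀ x, Gd m f x ∨ ∃ k : N → M, (∀ᶠ y in 𝓝 x, k (f y) = y) ∧ Gd m k (f x))
    (O : Set (M × N)) (hO : IsOpen O) (hfO : ∀ x, (x, f x) ∈ O) :
    ∃ K : ℝ × M → N, Continuous K ∧ (∀ x, K (0, x) = f x) ∧ (∀ t x, (x, K (t, x)) ∈ O) ∧
      ∀ x, LD (m + 1) (fun x => K (1, x)) x := by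
  let f' : Syn M → N := f
  have hf' : IsLocalHomeomorph f' := hf
  let c0 : ChartedSpace (E (m + 1)) (Syn M) := pull f' hf'
  have i0 : IsManifold (𝓡 (m + 1)) ∞ (Syn M) := pull_isManifold f' hf'
  have hL : ∀ x : Syn M, LD (m + 1) f' x := fun x => pull_LD f' hf' x
  let g : M ≃ₜ Syn M := Homeomorph.refl M
  have hg : ∀ x, f' (g x) = f x := fun x => rfl
  have hgs : ∀ x, f (g.symm x) = f' x := fun x => rfl
  have hty : ∀ x, Gd m g x ∨ Gd m g.symm (g x) := by
    intro x
    obtain ⟨q, q1, q2, q3, q4⟩ := (hL (g x)).exists_inverse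
    rcases h x with hA | ⟨k, k1, k2⟩
    · left
      have h1 : (g : M → Syn M) =ᶠ[𝓝 x] fun y => q (f y) := by
        have h2 : ∀ᶠ y in 𝓝 x, q (f' (g y)) = g y := (g.continuous.tendsto x).eventually q3
        filter_upwards [h2] with y hy
        exact hy.symm
      refine Gd.congr ?_ h1
      exact Gd.comp f (fun y => y) q x (LD.id x) hA q1
    · right
      have h1 : (g.symm : Syn M → M) =ᶠ[𝓝 (g x)] fun y => k (f' y) := by
        have h3 : Tendsto g.symm (𝓝 (g x)) (𝓝 x) := by
          have := g.symm.continuous.tendsto (g x)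
          rwa [g.symm_apply_apply] at this
        have h2 : ∀ᶠ y in 𝓝 (g x), k (f (g.symm y)) = g.symm y := h3.eventually k1
        filter_upwards [h2] with y hy
        exact hy.symm
      refine Gd.congr ?_ h1
      exact Gd.comp k f' (fun y => y) (g x) (hL (g x)) k2 (LD.id _)
  obtain ⟨K, k1, k2, k3, k4, k5, k6⟩ := mixed (m := m) g ∅ isClosed_empty (fun x _ => hty x) univ
    isOpen_univ (fun x hx => absurd (mem_univ x) hx) {p : M × Syn M | (p.1, f' p.2) ∈ O}
    (hO.preimage (continuous_fst.prodMk (hf'.continuous.comp continuous_snd))) (fun x => hfO x)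
  refine ⟨fun q => f' (K q), hf'.continuous.comp k1, fun x => ?_, fun t x => k3 t x, fun x => ?_⟩
  · exact congrArg f' (k5 x)
  · exact LD.comp_fun (g := f') (hL _) (k6 x (notMem_empty x))

end Pool.Agent.V1127.Iso
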