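import Pool.Agent.V1127.Iso.StepN
import Pool.Agent.V1127.Iso.Fin

/-!
# Smooth homeomorphisms of corank at most one between noncompact manifolds: covers
-/

set_option autoImplicit false

open Set Filter Topology Metric Function
open scoped Manifold ContDiff

noncomputable section

namespace Pool.Agent.V1127.Iso

open Pool.Agent.Y522 Pool.Agent.Y522.NA Pool.Agent.Y170.NA

variable {m : ℕ} {X Y : Type} [TopologicalSpace X] [T2Space X] [ChartedSpace (E (m + 1)) X]
  [IsManifold (𝓡 (m + 1)) ∞ X] [TopologicalSpace Y] [ChartedSpace (E (m + 1)) Y]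
  [IsManifold (𝓡 (m + 1)) ∞ Y]

/-- the data around a point, with the closure inside a given neighbourhood -/
theorem exists_dt' (f : X → Y) (hf : ContMDiff (𝓡 (m + 1)) (𝓡 (m + 1)) ∞ f) (hi : Injective f)
    (x : X) (hx : m ≤ Module.finrank ℝ
      (LinearMap.range (mfderiv (𝓡 (m + 1)) (𝓡 (m + 1)) f x).toLinearMap))
    (W : Set X) (hW : W ∈ 𝓝 x) :
    ∃ D : Dt m f, ((D.A 0 : D.U) : X) = x ∧ closure (D.U : Set X) ⊆ W := by
  have : LocallyCompactSpace X := ChartedSpace.locallyCompactSpace (E (m + 1)) X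
  obtain ⟨t, ht, htc, hts⟩ := exists_mem_nhds_isClosed_subset hW
  obtain ⟨D, h1, h2⟩ := exists_dt f hf hi x hx t ht
  exact ⟨D, h1, (closure_minimal h2 htc).trans hts⟩

theorem pair_bound (N : ℕ → ℕ) (p : ℕ) :
    ∃ k0, ∀ j, (Nat.unpair j).1 < p → (Nat.unpair j).2 < N (Nat.unpair j).1 → j < k0 := by
  refine ⟨(Finset.range p).sup (fun n => Nat.pair n (N n)), fun j h1 h2 => ?_⟩
  have h3 : Nat.pair (Nat.unpair j).1 (N (Nat.unpair j).1) ≤
      (Finset.range p).sup (fun n => Nat.pair n (N n)) :=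
    Finset.le_sup (f := fun n => Nat.pair n (N n)) (Finset.mem_range.2 h1)
  have h4 := Nat.pair_lt_pair_right (Nat.unpair j).1 h2
  rw [Nat.pair_unpair] at h4
  exact h4.trans_le h3

/-- a countable locally finite family of boxes -/
theorem cover [SigmaCompactSpace X] (f : X → Y) (hG : Gen m f) (S : Set X) (hS : IsClosed S)
    (W : Set X) (hW : IsOpen W) (hSW : S ⊆ W) (hne : S.Nonempty) :
    ∃ (act : Set ℕ) (D : ℕ → Dt m f) (V : ℕ → Set X),
      (∀ j ∈ act, IsOpen (V j) ∧ closure ((D j).U : Set X) ⊆ V j ∧ V j ⊆ W) ∧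
      (∀ x, ∃ Q ∈ 𝓝 x, ∃ k0, ∀ j ∈ act, k0 ≤ j → Disjoint (V j) Q) ∧
      (∀ j ∈ act, ∃ N, ∀ i ∈ act, N ≤ i → Disjoint (V i) (V j)) ∧
      ∀ x ∈ S, ∃ j ∈ act, ∃ z ∈ box m (1 / 4) (1 / 4), ((D j).A z : X) = x := by
  classical
  have : LocallyCompactSpace X := ChartedSpace.locallyCompactSpace (E (m + 1)) X
  have : WeaklyLocallyCompactSpace X := inferInstance
  let K : CompactExhaustion X := default
  obtain ⟨x0, hx0⟩ := hne
  obtain ⟨D0, -, -⟩ := exists_dt' f hG.1 hG.2.1.1 x0 (hG.2.2 x0) W (hW.mem_nhds (hSW hx0))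
  have : Nonempty (Dt m f) := ⟨D0⟩
  -- shifted compact sets
  let K1 : ℕ → Set X := fun n => if n = 0 then ∅ else K (n - 1)
  let K2 : ℕ → Set X := fun n => if n < 2 then ∅ else K (n - 2)
  have hK2c : ∀ n, IsClosed (K2 n) := by
    intro n
    show IsClosed (if n < 2 then ∅ else K (n - 2))
    split_ifs
    · exact isClosed_empty
    · exact (K.isCompact _).isClosed
  have hK2i : ∀ n, K2 n ⊆ interior (K1 n) := by
    intro n
    show (if n < 2 then ∅ else K (n - 2)) ⊆ interior (if n = 0 then ∅ else K (n - 1))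
    split_ifs with h1 h2
    · exact empty_subset _
    · exact empty_subset _
    · omega
    · have h3 : n - 1 = (n - 2) + 1 := by omega
      rw [h3]
      exact K.subset_interior_succ (n - 2)
  let V0 : ℕ → Set X := fun n => W ∩ (interior (K (n + 1)) \ K2 n)
  have hV0o : ∀ n, IsOpen (V0 n) := fun n => hW.inter (isOpen_interior.sdiff (hK2c n))
  let C : ℕ → Set X := fun n => S ∩ (K n \ interior (K1 n))
  have hCc : ∀ n, IsCompact (C n) := fun n =>
    ((K.isCompact n).diff isOpen_interior).inter_left hS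
  have hCV : ∀ n, C n ⊆ V0 n := fun n x hx =>
    ⟨hSW hx.1, K.subset_interior_succ n hx.2.1, fun h => hx.2.2 (hK2i n h)⟩
  have hSC : ∀ x ∈ S, ∃ n, x ∈ C n := by
    intro x hx
    obtain ⟨n, hn⟩ := mem_iUnion.1 (K.iUnion_eq.symm ▸ mem_univ x : x ∈ ⋃ n, K n)
    have hex : ∃ n, x ∈ K n := ⟨n, hn⟩
    refine ⟨Nat.find hex, hx, Nat.find_spec hex, fun h => ?_⟩
    have h1 : x ∈ K1 (Nat.find hex) := interior_subset h
    have h2 : x ∈ (if Nat.find hex = 0 then ∅ else K (Nat.find hex - 1) : Set X) := h1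
    split_ifs at h2 with h3
    · exact h2
    · exact Nat.find_min hex (by omega) h2
  -- the boxes
  have hbox : box m (1 / 4) (1 / 4) ∈ 𝓝 (0 : E (m + 1)) := by
    refine mem_of_superset ((Pool.Agent.Y870.SH.open_small_box (m := m) (1 / 4)).mem_nhds ?_) ?_
    · constructor
      · rw [map_zero, norm_zero]; norm_num
      · show |(0 : ℝ)| < 1 / 4
        norm_num
    · exact fun z hz => ⟨hz.1.le, hz.2.le⟩
  have h0box : (0 : E (m + 1)) ∈ box m 1 1 := by
    constructor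
    · rw [map_zero, norm_zero]; norm_num
    · show |(0 : ℝ)| ≤ 1
      norm_num
  have hex : ∀ n x, x ∈ C n → ∃ D : Dt m f, ((D.A 0 : D.U) : X) = x ∧
      closure (D.U : Set X) ⊆ V0 n :=
    fun n x hx => exists_dt' f hG.1 hG.2.1.1 x (hG.2.2 x) (V0 n) ((hV0o n).mem_nhds (hCV n hx))
  choose! D hD0 hDW using hex
  have hcov : ∀ n, ∀ x ∈ C n,
      (fun z => (((D n x).A z : (D n x).U) : X)) '' box m (1 / 4) (1 / 4) ∈ 𝓝 x := by
    intro n x hx
    have h1 : LD (m + 1) (fun z => (((D n x).A z : (D n x).U) : X)) 0 :=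
      LD.comp_fun (LD_val _ _) ((D n x).nb.ld 0 h0box)
    have h2 := h1.image_mem_nhds hbox
    rwa [hD0 n x hx] at h2
  have hsub := fun n => (hCc n).elim_nhds_subcover _ (hcov n)
  choose t htS htc using hsub
  let N : ℕ → ℕ := fun n => (t n).card
  let pt : ∀ n, Fin (N n) → X := fun n i => ((t n).equivFin.symm i : X)
  let DD : ℕ → Dt m f := fun j =>
    if h : (Nat.unpair j).2 < N (Nat.unpair j).1 then
      D (Nat.unpair j).1 (pt (Nat.unpair j).1 ⟨(Nat.unpair j).2, h⟩) else D0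
  let act : Set ℕ := {j | (Nat.unpair j).2 < N (Nat.unpair j).1}
  let V : ℕ → Set X := fun j => V0 (Nat.unpair j).1
  have hDD : ∀ j (h : (Nat.unpair j).2 < N (Nat.unpair j).1),
      DD j = D (Nat.unpair j).1 (pt (Nat.unpair j).1 ⟨(Nat.unpair j).2, h⟩) := fun j h =>
    dif_pos h
  have hKmono : ∀ a b, a ≤ b → K a ⊆ K b := fun a b h => K.subset h
  have hV0K : ∀ n p, p + 3 ≤ n → Disjoint (V0 n) (K (p + 1)) := by
    intro n p hnp
    rw [Set.disjoint_left]
    intro x hx hx'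
    apply hx.2.2
    show x ∈ (if n < 2 then ∅ else K (n - 2) : Set X)
    rw [if_neg (by omega)]
    exact hKmono _ _ (by omega) hx'
  refine ⟨act, DD, V, fun j hj => ⟨hV0o _, ?_, inter_subset_left⟩, fun x => ?_, fun j hj => ?_,
    fun x hx => ?_⟩
  · rw [hDD j hj]
    exact hDW _ _ (htS _ _ ((t (Nat.unpair j).1).equivFin.symm ⟨(Nat.unpair j).2, hj⟩).2)
  · obtain ⟨p, hp⟩ := mem_iUnion.1 (K.iUnion_eq.symm ▸ mem_univ x : x ∈ ⋃ n, K n)
    obtain ⟨k0, hk0⟩ := pair_bound N (p + 3)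
    refine ⟨K (p + 1), mem_interior_iff_mem_nhds.1 (K.subset_interior_succ p hp), k0,
      fun j hj hkj => ?_⟩
    apply hV0K
    by_contra h
    have := hk0 j (by omega) hj
    omega
  · obtain ⟨k0, hk0⟩ := pair_bound N ((Nat.unpair j).1 + 3)
    refine ⟨k0, fun i hi hki => ?_⟩
    refine (hV0K (Nat.unpair i).1 (Nat.unpair j).1 ?_).mono_right
      fun x hx => interior_subset hx.2.1
    by_contra h
    have := hk0 i (by omega) hi
    omega
  · obtain ⟨n, hn⟩ := hSC x hx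
    obtain ⟨y, hy, hxy⟩ := mem_iUnion₂.1 (htc n hn)
    obtain ⟨z, hz, hzx⟩ := hxy
    let i := (t n).equivFin ⟨y, hy⟩
    have hi : (i : ℕ) < N n := i.2
    have hj : (Nat.unpair (Nat.pair n i)).2 < N (Nat.unpair (Nat.pair n i)).1 := by
      rw [Nat.unpair_pair]
      exact hi
    refine ⟨Nat.pair n i, hj, ?_⟩
    have h1 : DD (Nat.pair n i) = D n y := by
      rw [hDD _ hj]
      have h2 : ∀ (q : ℕ × ℕ) (hq : q = (n, (i : ℕ))) (h : q.2 < N q.1),
          D q.1 (pt q.1 ⟨q.2, h⟩) = D n y := by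
        rintro q rfl h
        show D n ((t n).equivFin.symm i : X) = D n y
        rw [Equiv.symm_apply_apply]
      exact h2 _ (Nat.unpair_pair n i) hj
    rw [h1]
    exact ⟨z, hz, hzx⟩

end Pool.Agent.V1127.Iso
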