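import Pool.Agent.V1127.Iso.Lim

/-!
# Smooth homeomorphisms of corank at most one between noncompact manifolds
-/

set_option autoImplicit false

open Set Filter Topology Metric Function
open scoped Manifold ContDiff

noncomputable section

namespace Pool.Agent.V1127.Iso

open Pool.Agent.Y522 Pool.Agent.Y522.NA Pool.Agent.Y170.NA

variable {m : ℕ} {X Y : Type} [TopologicalSpace X] [T2Space X] [SigmaCompactSpace X]
  [ChartedSpace (E (m + 1)) X] [IsManifold (𝓡 (m + 1)) ∞ X] [TopologicalSpace Y]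
  [ChartedSpace (E (m + 1)) Y] [IsManifold (𝓡 (m + 1)) ∞ Y]

/-- **Removal of the singular set of a smooth homeomorphism of corank at most one, along a smooth
path of such homeomorphisms.** -/
theorem removal_nc (f : X ≃ₜ Y) (hG : Gen m f) (W : Set X) (hW : IsOpen W)
    (hWL : ∀ x, x ∉ W → LD (m + 1) f x) (O : Set (X × Y)) (hO : IsOpen O)
    (hfO : ∀ x, (x, f x) ∈ O) :
    ∃ φ : X → Y, Bijective φ ∧ (∀ x, LD (m + 1) φ x) ∧ Pth m O W f f φ := by
  classical
  set S : Set X := {x | ¬ LD (m + 1) f x} with hSdef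
  have hSc : IsClosed S := by
    rw [← isOpen_compl_iff, isOpen_iff_mem_nhds]
    intro x hx
    have h1 : LD (m + 1) f x := by
      by_contra h
      exact hx h
    filter_upwards [h1.eventually] with y hy h
    exact h hy
  have hSL : ∀ x, x ∉ S → LD (m + 1) f x := fun x hx => by
    by_contra h
    exact hx h
  have hSW : S ⊆ W := fun x hx => by
    by_contra h
    exact hx (hWL x h)
  rcases S.eq_empty_or_nonempty with hE | hne
  · exact ⟨f, f.bijective, fun x => hSL x (by rw [hE]; exact notMem_empty x),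
      Pth.refl hG hfO fun _ _ => rfl⟩
  obtain ⟨act, D, V, hV, hloc, hfin, hcov⟩ := cover f hG S hSc W hW hSW hne
  -- the neighbourhood of the graph
  let T : ℕ → Set (X × Y) := fun i => {p : X × Y | p.1 ∉ closure ((D i).U : Set X)} ∪
    (({p : X × Y | f p.1 ∈ (chartAt (E (m + 1)) (D i).y0).source ∧
      p.2 ∈ (chartAt (E (m + 1)) (D i).y0).source} ∩
      (fun p : X × Y => ‖chartAt (E (m + 1)) (D i).y0 p.2 -
        chartAt (E (m + 1)) (D i).y0 (f p.1)‖) ⁻¹' Iio (D i).η) ∩ {p | p.2 ∈ f '' V i})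
  have hTo : ∀ i ∈ act, IsOpen (T i) := by
    intro i hi
    refine (isClosed_closure.isOpen_compl.preimage continuous_fst).union (IsOpen.inter ?_ ?_)
    · set e := chartAt (E (m + 1)) (D i).y0
      have ho : IsOpen {p : X × Y | f p.1 ∈ e.source ∧ p.2 ∈ e.source} :=
        (e.open_source.preimage (f.continuous.comp continuous_fst)).inter
          (e.open_source.preimage continuous_snd)
      refine ContinuousOn.isOpen_inter_preimage ?_ ho isOpen_Iio
      have c1 : ContinuousOn (fun p : X × Y => e p.2)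
          {p : X × Y | f p.1 ∈ e.source ∧ p.2 ∈ e.source} :=
        e.continuousOn.comp continuous_snd.continuousOn fun p hp => hp.2
      have c2 : ContinuousOn (fun p : X × Y => e (f p.1))
          {p : X × Y | f p.1 ∈ e.source ∧ p.2 ∈ e.source} :=
        e.continuousOn.comp (f.continuous.comp continuous_fst).continuousOn fun p hp => hp.1
      exact (c1.sub c2).norm
    · exact (f.isOpenMap _ (hV i hi).1).preimage continuous_snd
  obtain ⟨O', hO'⟩ : ∃ O' : Set (X × Y), O' = {p | p ∈ O ∧ ∀ i ∈ act, p ∈ T i} := ⟨_, rfl⟩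
  have hO'o : IsOpen O' := by
    rw [isOpen_iff_mem_nhds]
    intro p hp
    rw [hO'] at hp
    obtain ⟨Q, hQ, k0, hk0⟩ := hloc p.1
    have h1 : ∀ᶠ q : X × Y in 𝓝 p, ∀ i ∈ Iio k0, i ∈ act → q ∈ T i := by
      rw [eventually_all_finite (finite_Iio k0)]
      intro i _
      by_cases hi : i ∈ act
      · filter_upwards [(hTo i hi).mem_nhds (hp.2 i hi)] with q hq _ using hq
      · exact Eventually.of_forall fun q h => absurd h hi
    have h2 : ∀ᶠ q : X × Y in 𝓝 p, q.1 ∈ Q := (continuous_fst.tendsto p).eventually hQ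
    filter_upwards [h1, h2, hO.mem_nhds hp.1] with q hq1 hq2 hq3
    rw [hO']
    refine ⟨hq3, fun i hi => ?_⟩
    rcases lt_or_ge i k0 with h | h
    · exact hq1 i h hi
    · exact Or.inl fun hc => Set.disjoint_left.1 (hk0 i hi h) ((hV i hi).2.1 hc) hq2
  have hfO' : ∀ x, (x, f x) ∈ O' := by
    intro x
    rw [hO']
    refine ⟨hfO x, fun i hi => ?_⟩
    by_cases hx : x ∈ closure ((D i).U : Set X)
    · refine Or.inr ⟨⟨⟨(D i).clo x hx, (D i).clo x hx⟩, ?_⟩, ⟨x, (hV i hi).2.1 hx, rfl⟩⟩
      show ‖_ - _‖ < _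
      rw [sub_self, norm_zero]
      exact (D i).pos
    · exact Or.inl hx
  have hOD : ∀ p ∈ O', ∀ j ∈ act, p.1 ∈ closure ((D j).U : Set X) →
      p.2 ∈ (chartAt (E (m + 1)) (D j).y0).source ∧
      ‖chartAt (E (m + 1)) (D j).y0 p.2 - chartAt (E (m + 1)) (D j).y0 (f p.1)‖
        < (D j).η := by
    intro p hp j hj hc
    rw [hO'] at hp
    rcases hp.2 j hj with h | h
    · exact absurd hc h
    · exact ⟨h.1.1.2, h.1.2⟩
  have hOV : ∀ p ∈ O', ∀ j ∈ act, p.1 ∈ closure ((D j).U : Set X) → p.2 ∈ f '' V j := by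
    intro p hp j hj hc
    rw [hO'] at hp
    rcases hp.2 j hj with h | h
    · exact absurd hc h
    · exact h.2
  -- the steps
  let U' : ℕ → Set X := fun k => {x | k ∈ act ∧ x ∈ (D k).U}
  have hstep : ∀ k, ∀ G : X → Y, IvN m f act D O' k G → ∃ G' : X → Y,
      IvN m f act D O' (k + 1) G' ∧ (∀ x, x ∉ U' k → G' x = G x) ∧
      (∀ x, LD (m + 1) G x → LD (m + 1) G' x) ∧ Pth m O' (U' k) G G G' := by
    intro k G hI
    by_cases hk : k ∈ act
    · obtain ⟨N, hN⟩ := hfin k hk
      obtain ⟨G', g1, g2, g3, g4⟩ := step_n f act D O' hO'o hOD k hk N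
        (fun j hj hNj => (hN j hj hNj).mono (subset_closure.trans (hV j hj).2.1)
          (subset_closure.trans (hV k hk).2.1)) G hI
      have hUk : U' k = ((D k).U : Set X) := by
        ext x
        exact ⟨fun h => h.2, fun h => ⟨hk, h⟩⟩
      refine ⟨G', g1, fun x hx => g2 x fun h => hx ⟨hk, h⟩, g3, ?_⟩
      rw [hUk]
      exact g4
    · refine ⟨G, ⟨hI.gen, hI.gr, hI.der, fun i hi hik => hI.good i hi ?_⟩, fun _ _ => rfl,
        fun _ h => h, Pth.refl hI.gen hI.gr fun _ _ => rfl⟩
      rcases Nat.lt_succ_iff_lt_or_eq.1 hik with h | h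
      · exact h
      · rw [h] at hi
        exact absurd hi hk
  choose! nx n1 n2 n3 n4 using hstep
  let G : ℕ → X → Y := fun k => Nat.rec (f : X → Y) (fun k g => nx k g) k
  have hG0 : G 0 = f := rfl
  have hGs : ∀ k, G (k + 1) = nx k (G k) := fun k => rfl
  have hI : ∀ k, IvN m f act D O' k (G k) := by
    intro k
    induction k with
    | zero =>
      refine ⟨hG, hfO', ?_, fun i _ hi => absurd hi (Nat.not_lt_zero _)⟩
      intro j _ z hz
      have h1 := Pool.Agent.Y870.SH.NBox_fderiv (D j).nb hz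
      have h2 : fderiv ℝ (fun w => tl ((D j).L (chartAt (E (m + 1)) (D j).y0
          (G 0 ((D j).A w : X))))) z = tl := h1
      rw [h2, sub_self, norm_zero]
      exact (D j).pos
    | succ k ih =>
      rw [hGs]
      exact n1 k _ ih
  have hoff : ∀ k x, x ∉ U' k → G (k + 1) x = G k x := fun k x hx => by
    rw [hGs]
    exact n2 k _ (hI k) x hx
  have hld : ∀ k x, LD (m + 1) (G k) x → LD (m + 1) (G (k + 1)) x := fun k x hx => by
    rw [hGs]
    exact n3 k _ (hI k) x hx
  have hP : ∀ k, Pth m O' (U' k) (G k) (G k) (G (k + 1)) := fun k => by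
    rw [hGs]
    exact n4 k _ (hI k)
  -- local finiteness
  have hU : ∀ x, ∃ Q ∈ 𝓝 x, ∃ k0, ∀ k, k0 ≤ k → ∀ x' ∈ Q, x' ∉ U' k := by
    intro x
    obtain ⟨Q, hQ, k0, hk0⟩ := hloc x
    refine ⟨Q, hQ, k0, fun k hk x' hx' hU => ?_⟩
    exact Set.disjoint_left.1 (hk0 k hU.1 hk) ((hV k hU.1).2.1 (subset_closure hU.2)) hx'
  choose Q hQ κ hκ using hU
  have hst : ∀ x k, κ x ≤ k → ∀ x' ∈ Q x, G k x' = G (κ x) x' := by
    intro x k hk x' hx'
    obtain ⟨d, rfl⟩ := Nat.exists_eq_add_of_le hk
    induction d with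
    | zero => rfl
    | succ d ih =>
      rw [← add_assoc, hoff _ x' (hκ x _ (by omega) x' hx')]
      exact ih (by omega)
  have hst' : ∀ x k, κ x ≤ k → G k x = G (κ x) x := fun x k hk =>
    hst x k hk x (mem_of_mem_nhds (hQ x))
  let Fi : X → Y := fun x => G (κ x) x
  have hFi : ∀ x k, κ x ≤ k → ∀ x' ∈ Q x, Fi x' = G k x' := by
    intro x k hk x' hx'
    show G (κ x') x' = G k x'
    rw [← hst' x' (max k (κ x')) (le_max_right _ _), hst x _ (hk.trans (le_max_left _ _)) x' hx',
      hst x k hk x' hx']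
  have hbij : Bijective Fi := by
    constructor
    · intro x y hxy
      have h1 : G (max (κ x) (κ y)) x = G (max (κ x) (κ y)) y := by
        rw [hst' x _ (le_max_left _ _), hst' y _ (le_max_right _ _)]
        exact hxy
      exact (hI _).gen.2.1.1 h1
    · intro y
      obtain ⟨R, hR, k0, hk0⟩ := hloc (f.symm y)
      obtain ⟨x, hx⟩ := (hI k0).gen.2.1.2 y
      have hxy : ∀ d, G (k0 + d) x = y := by
        intro d
        induction d with
        | zero => exact hx
        | succ d ih =>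
          rw [← add_assoc, hoff _ x, ih]
          intro hU
          have h1 : (x, G (k0 + d) x) ∈ O' := (hI _).gr x
          rw [ih] at h1
          obtain ⟨x', hx', hx''⟩ := hOV _ h1 (k0 + d) hU.1 (subset_closure hU.2)
          have hx3 : f x' = y := hx''
          have h2 : f.symm y = x' := by
            rw [← hx3]
            exact f.symm_apply_apply x'
          have h3 := mem_of_mem_nhds hR
          rw [h2] at h3
          exact Set.disjoint_left.1 (hk0 (k0 + d) hU.1 (by omega)) hx' h3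
      refine ⟨x, ?_⟩
      show G (κ x) x = y
      rw [← hst' x (k0 + κ x) (by omega)]
      exact hxy _
  refine ⟨Fi, hbij, fun x => ?_, ?_⟩
  · have hk : ∃ k, κ x ≤ k ∧ LD (m + 1) (G k) x := by
      by_cases hx : x ∈ S
      · obtain ⟨j, hj, z, hz, hzx⟩ := hcov x hx
        refine ⟨max (κ x) (j + 1), le_max_left _ _, ?_⟩
        have h1 := (hI (max (κ x) (j + 1))).good j hj
          (lt_of_lt_of_le (Nat.lt_succ_self j) (le_max_right _ _)) z hz
        rwa [hzx] at h1
      · refine ⟨κ x, le_rfl, ?_⟩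
        have h1 : ∀ k, LD (m + 1) (G k) x := by
          intro k
          induction k with
          | zero => exact hSL x hx
          | succ k ih => exact hld k x ih
        exact h1 _
    obtain ⟨k, hk1, hk2⟩ := hk
    refine hk2.congr ?_
    filter_upwards [hQ x] with x' hx'
    exact hFi x k hk1 x' hx'
  · have hp := infinite_path (f := f) (G := G) O' W U' hG0 (fun k => (hI k).gen)
      (fun k x => (hI k).gr x) (fun k x hx => (hV k hx.1).2.2 ((hV k hx.1).2.1
        (subset_closure hx.2))) (fun x => ⟨Q x, hQ x, κ x, hκ x⟩) hP Fi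
      (fun x => ⟨Q x, hQ x, κ x, hFi x⟩) hbij
    exact hp.mono (fun p hp => by rw [hO'] at hp; exact hp.1) (subset_refl W)

end Pool.Agent.V1127.Iso
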