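import Pool.Agent.V1127.Iso.NCF

/-!
# Homeomorphisms which are smooth of corank at most one off a closed set
-/

set_option autoImplicit false

open Set Filter Topology Metric Function
open scoped Manifold ContDiff

noncomputable section

namespace Pool.Agent.V1127.Iso

open Pool.Agent.Y522 Pool.Agent.Y522.NA Pool.Agent.Y170.NA

section rank

variable {n m : ℕ} {A A' B B' : Type} [TopologicalSpace A] [ChartedSpace (E n) A]
  [IsManifold (𝓡 n) ∞ A] [TopologicalSpace A'] [ChartedSpace (E n) A'] [IsManifold (𝓡 n) ∞ A']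
  [TopologicalSpace B] [ChartedSpace (E n) B] [IsManifold (𝓡 n) ∞ B]
  [TopologicalSpace B'] [ChartedSpace (E n) B'] [IsManifold (𝓡 n) ∞ B']

omit [IsManifold (𝓡 n) ∞ A] [IsManifold (𝓡 n) ∞ B] in
theorem LD.mfderiv_bijective {f : A → B} {x : A} (hf : LD n f x) :
    Bijective (mfderiv (𝓡 n) (𝓡 n) f x) := by
  have h := hf.mfderivToContinuousLinearEquiv_coe (by simp)
  rw [← h]
  exact (hf.mfderivToContinuousLinearEquiv (by simp)).bijective

theorem rank_comp (g : A → B) (h₁ : A' → A) (h₂ : B → B') (a : A') (h1 : LD n h₁ a)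
    (h2 : LD n h₂ (g (h₁ a))) (hg : MDifferentiableAt (𝓡 n) (𝓡 n) g (h₁ a))
    (hr : m ≤ Module.finrank ℝ
      (LinearMap.range (mfderiv (𝓡 n) (𝓡 n) g (h₁ a)).toLinearMap)) :
    m ≤ Module.finrank ℝ
      (LinearMap.range (mfderiv (𝓡 n) (𝓡 n) (fun x => h₂ (g (h₁ x))) a).toLinearMap) := by
  have t1 : HasMFDerivAt (𝓡 n) (𝓡 n) (fun x => g (h₁ x)) a
      ((mfderiv (𝓡 n) (𝓡 n) g (h₁ a)).comp (mfderiv (𝓡 n) (𝓡 n) h₁ a)) :=
    HasMFDerivAt.comp a hg.hasMFDerivAt h1.mdifferentiableAt.hasMFDerivAt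
  have t2 : HasMFDerivAt (𝓡 n) (𝓡 n) (fun x => h₂ (g (h₁ x))) a
      ((mfderiv (𝓡 n) (𝓡 n) h₂ (g (h₁ a))).comp
        ((mfderiv (𝓡 n) (𝓡 n) g (h₁ a)).comp (mfderiv (𝓡 n) (𝓡 n) h₁ a))) :=
    HasMFDerivAt.comp a (g := h₂) (f := fun x => g (h₁ x)) h2.mdifferentiableAt.hasMFDerivAt t1
  rw [t2.mfderiv]
  have b1 := (LD.mfderiv_bijective h1).2
  have b2 := (LD.mfderiv_bijective h2).1
  let D1 : E n →L[ℝ] E n := mfderiv (𝓡 n) (𝓡 n) h₁ a
  let Dg : E n →L[ℝ] E n := mfderiv (𝓡 n) (𝓡 n) g (h₁ a)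
  let D2 : E n →L[ℝ] E n := mfderiv (𝓡 n) (𝓡 n) h₂ (g (h₁ a))
  have b1' : Surjective D1.toLinearMap := b1
  have b2' : Injective D2.toLinearMap := b2
  have hr' : m ≤ Module.finrank ℝ (LinearMap.range Dg.toLinearMap) := hr
  show m ≤ Module.finrank ℝ (LinearMap.range
    (D2.toLinearMap ∘ₗ (Dg.toLinearMap ∘ₗ D1.toLinearMap)))
  rw [LinearMap.range_comp, LinearMap.range_comp_of_range_eq_top _
    (LinearMap.range_eq_top.2 b1')]
  rw [← (Submodule.equivMapOfInjective D2.toLinearMap b2' _).finrank_eq]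
  exact hr'

end rank

variable {m : ℕ} {X Y : Type} [TopologicalSpace X] [T2Space X] [SigmaCompactSpace X]
  [ChartedSpace (E (m + 1)) X] [IsManifold (𝓡 (m + 1)) ∞ X] [TopologicalSpace Y]
  [ChartedSpace (E (m + 1)) Y] [IsManifold (𝓡 (m + 1)) ∞ Y]

/-- **Homeomorphisms which are smooth of corank at most one off a closed set are isotopic, relative
to that set, to homeomorphisms which are diffeomorphisms off the set.** -/
theorem off_closed (f : X ≃ₜ Y) (S : Set X) (hS : IsClosed S)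
    (hs : ∀ x, x ∉ S → ContMDiffAt (𝓡 (m + 1)) (𝓡 (m + 1)) ∞ f x)
    (hr : ∀ x, x ∉ S → m ≤ Module.finrank ℝ
      (LinearMap.range (mfderiv (𝓡 (m + 1)) (𝓡 (m + 1)) f x).toLinearMap))
    (W : Set X) (hW : IsOpen W) (hWL : ∀ x, x ∉ W → x ∉ S → LD (m + 1) f x)
    (O : Set (X × Y)) (hO : IsOpen O) (hfO : ∀ x, (x, f x) ∈ O) :
    ∃ K : ℝ × X → Y, Continuous K ∧ (∀ t, Bijective fun x => K (t, x)) ∧
      (∀ t x, (x, K (t, x)) ∈ O) ∧ (∀ t x, (x ∈ S ∨ x ∉ W) → K (t, x) = f x) ∧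
      (∀ t ≤ (0 : ℝ), ∀ x, K (t, x) = f x) ∧ (∀ t, (1 : ℝ) ≤ t → ∀ x, K (t, x) = K (1, x)) ∧
      (∀ t x, x ∉ S → ContMDiffAt ((𝓘(ℝ, ℝ)).prod (𝓡 (m + 1))) (𝓡 (m + 1)) ∞ K (t, x)) ∧
      (∀ t x, x ∉ S → m ≤ Module.finrank ℝ (LinearMap.range
        (mfderiv (𝓡 (m + 1)) (𝓡 (m + 1)) (fun x => K (t, x)) x).toLinearMap)) ∧
      ∀ x, x ∉ S → LD (m + 1) (fun x => K (1, x)) x := by
  classical
  have i1 : LocallyCompactSpace X := ChartedSpace.locallyCompactSpace (E (m + 1)) X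
  have i2 : SecondCountableTopology X := ChartedSpace.secondCountable_of_sigmaCompact (E (m + 1)) X
  have i3 : TopologicalSpace.MetrizableSpace X :=
    TopologicalSpace.metrizableSpace_of_t3_secondCountable X
  have i4 : TopologicalSpace.MetrizableSpace Y := f.symm.isEmbedding.metrizableSpace
  let _ : MetricSpace Y := TopologicalSpace.metrizableSpaceMetric Y
  let U : TopologicalSpace.Opens X := ⟨Sᶜ, hS.isOpen_compl⟩
  have hfS : IsClosed (f '' S) := f.isClosedMap _ hS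
  let V : TopologicalSpace.Opens Y := ⟨(f '' S)ᶜ, hfS.isOpen_compl⟩
  have hUV : ∀ x, x ∈ U ↔ f x ∈ V := by
    intro x
    show x ∉ S ↔ f x ∉ f '' S
    rw [f.injective.mem_set_image]
  have i5 : SecondCountableTopology U := inferInstance
  have i6 : LocallyCompactSpace U := ChartedSpace.locallyCompactSpace (E (m + 1)) U
  have i7 : SigmaCompactSpace U := inferInstance
  let g : U ≃ₜ V := f.subtype (p := fun x => x ∈ U) (q := fun y => y ∈ V) hUV
  have hg : ∀ u : U, (g u : Y) = f u := fun u => rfl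
  -- local inverses
  have pU := fun u : U => (LD_val (n := m + 1) U u).exists_inverse
  have pV := fun v : V => (LD_val (n := m + 1) V v).exists_inverse
  choose rU rU1 rU2 rU3 rU4 using pU
  choose rV rV1 rV2 rV3 rV4 using pV
  have hgloc : ∀ u : U, (g : U → V) =ᶠ[𝓝 u] fun u' => rV (g u) (f u') := by
    intro u
    have h1 : ∀ᶠ u' in 𝓝 u, rV (g u) ((g u' : V) : Y) = g u' :=
      (g.continuous.tendsto u).eventually (rV3 (g u))
    filter_upwards [h1] with u' hu'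
    exact hu'.symm
  have hfu : ∀ u : U, ContMDiffAt (𝓡 (m + 1)) (𝓡 (m + 1)) ∞ (fun u' : U => f u') u := fun u =>
    ContMDiffAt.comp u (hs u u.2) contMDiff_subtype_val.contMDiffAt
  have hrV1 : ∀ u : U, LD (m + 1) (rV (g u)) (f u) := fun u => rV1 (g u)
  have hGen : Gen m g := by
    refine ⟨fun u => ?_, g.bijective, fun u => ?_⟩
    · refine ContMDiffAt.congr_of_eventuallyEq ?_ (hgloc u)
      exact ContMDiffAt.comp u (hrV1 u).contMDiffAt (hfu u)
    · rw [(hgloc u).mfderiv_eq]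
      exact rank_comp f (Subtype.val : U → X) (rV (g u)) u (LD_val U u) (hrV1 u)
        ((hs u u.2).mdifferentiableAt (by simp)) (hr u u.2)
  let O' : Set (U × V) := {p | edist (p.2 : Y) (f p.1) < infEDist (f p.1) (f '' S) ∧
    ((p.1 : X), (p.2 : Y)) ∈ O}
  have hO'o : IsOpen O' := by
    have c1 : Continuous fun p : U × V => (p.1 : X) := continuous_subtype_val.comp continuous_fst
    have c2 : Continuous fun p : U × V => (p.2 : Y) := continuous_subtype_val.comp continuous_snd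
    refine IsOpen.inter ?_ (hO.preimage (c1.prodMk c2))
    exact isOpen_lt (c2.edist (f.continuous.comp c1))
      (continuous_infEDist.comp (f.continuous.comp c1))
  have hgO' : ∀ u, (u, g u) ∈ O' := by
    intro u
    refine ⟨?_, hfO u⟩
    show edist (f u) (f u) < infEDist (f u) (f '' S)
    rw [edist_self]
    rw [pos_iff_ne_zero, Ne, ← Metric.mem_iff_infEDist_zero_of_closed hfS]
    exact (hUV u).1 u.2
  obtain ⟨φ, -, h2, k, k1, k2, k3, k4, k5, k6⟩ := removal_nc g hGen {u | (u : X) ∈ W}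
    (hW.preimage continuous_subtype_val) (fun u hu => by
      refine LD.congr ?_ (hgloc u)
      exact LD.comp_fun (hrV1 u) (LD.comp_fun (g := f) (hWL u hu u.2) (LD_val U u))) O' hO'o hgO'
  let K : ℝ × X → Y := fun q => if h : q.2 ∈ S then f q.2 else (k (q.1, ⟨q.2, h⟩) : V)
  have hKS : ∀ t x, x ∈ S → K (t, x) = f x := fun t x hx => dif_pos hx
  have hKU : ∀ t (u : U), K (t, u) = k (t, u) := fun t u => dif_neg u.2
  -- local description
  have hrU1 : ∀ u : U, LD (m + 1) (rU u) (u : X) := rU1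
  have hKloc : ∀ t (u : U), K =ᶠ[𝓝 (t, (u : X))]
      fun q : ℝ × X => ((k (q.1, rU u q.2) : V) : Y) := by
    intro t u
    have h1 : ∀ᶠ q : ℝ × X in 𝓝 (t, (u : X)), ((rU u q.2 : U) : X) = q.2 :=
      (continuous_snd.tendsto (t, (u : X))).eventually (rU4 u)
    filter_upwards [h1] with q hq
    have h3 := hKU q.1 (rU u q.2)
    rw [hq] at h3
    exact h3
  have hKloc' : ∀ t (u : U), (fun x => K (t, x)) =ᶠ[𝓝 (u : X)]
      fun x => ((k (t, rU u x) : V) : Y) := by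
    intro t u
    have h1 : ∀ᶠ x in 𝓝 (u : X), ((rU u x : U) : X) = x := rU4 u
    filter_upwards [h1] with x hx
    have h3 := hKU t (rU u x)
    rw [hx] at h3
    exact h3
  have hrUu : ∀ u : U, rU u (u : X) = u := rU2
  have hsmK : ∀ t x, x ∉ S → ContMDiffAt ((𝓘(ℝ, ℝ)).prod (𝓡 (m + 1))) (𝓡 (m + 1)) ∞ K
      (t, x) := by
    intro t x hx
    let u : U := ⟨x, hx⟩
    refine ContMDiffAt.congr_of_eventuallyEq ?_ (hKloc t u)
    have c1 : ContMDiffAt ((𝓘(ℝ, ℝ)).prod (𝓡 (m + 1))) ((𝓘(ℝ, ℝ)).prod (𝓡 (m + 1))) ∞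
        (fun q : ℝ × X => (q.1, rU u q.2)) (t, x) :=
      contMDiffAt_fst.prodMk (ContMDiffAt.comp (g := rU u) (f := fun q : ℝ × X => q.2) (t, x)
        (hrU1 u).contMDiffAt contMDiffAt_snd)
    have c2 : ContMDiffAt ((𝓘(ℝ, ℝ)).prod (𝓡 (m + 1))) (𝓡 (m + 1)) ∞
        (fun q : ℝ × X => k (q.1, rU u q.2)) (t, x) :=
      ContMDiffAt.comp (g := k) (f := fun q : ℝ × X => (q.1, rU u q.2)) (t, x) (k1 _) c1
    exact ContMDiffAt.comp (g := (Subtype.val : V → Y)) (f := fun q : ℝ × X =>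
      k (q.1, rU u q.2)) (t, x) contMDiff_subtype_val.contMDiffAt c2
  have hclose : ∀ t x, edist (K (t, x)) (f x) ≤ infEDist (f x) (f '' S) := by
    intro t x
    by_cases hx : x ∈ S
    · rw [hKS t x hx, edist_self]
      exact zero_le
    · have h3 := (k3 t ⟨x, hx⟩).1.le
      have h4 := hKU t ⟨x, hx⟩
      rw [← h4] at h3
      exact h3
  refine ⟨K, ?_, fun t => ⟨?_, ?_⟩, fun t x => ?_, fun t x hx => ?_, fun t ht x => ?_,
    fun t ht x => ?_, hsmK, fun t x hx => ?_, fun x hx => ?_⟩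
  · rw [continuous_iff_continuousAt]
    rintro ⟨t, x⟩
    by_cases hx : x ∈ S
    · rw [ContinuousAt, hKS t x hx, tendsto_iff_edist_tendsto_0]
      have h1 : Tendsto (fun q : ℝ × X => 2 * edist (f q.2) (f x)) (𝓝 (t, x)) (𝓝 0) := by
        have c1 : Tendsto (fun q : ℝ × X => edist (f q.2) (f x)) (𝓝 (t, x)) (𝓝 0) := by
          have := ((f.continuous.comp continuous_snd).tendsto (t, x)).edist
            (tendsto_const_nhds (x := f x))
          simpa using this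
        have := ENNReal.Tendsto.const_mul (a := 2) c1 (Or.inr (by simp))
        simpa using this
      refine tendsto_of_tendsto_of_tendsto_of_le_of_le tendsto_const_nhds h1 (fun q => zero_le)
        fun q => ?_
      have h2 : infEDist (f q.2) (f '' S) ≤ edist (f q.2) (f x) :=
        infEDist_le_edist_of_mem (mem_image_of_mem f hx)
      calc edist (K q) (f x) ≤ edist (K (q.1, q.2)) (f q.2) + edist (f q.2) (f x) :=
            edist_triangle _ _ _
        _ ≤ edist (f q.2) (f x) + edist (f q.2) (f x) :=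
            add_le_add ((hclose q.1 q.2).trans h2) le_rfl
        _ = 2 * edist (f q.2) (f x) := (two_mul _).symm
    · exact (hsmK t x hx).continuousAt
  · intro x y hxy
    have hxy' : K (t, x) = K (t, y) := hxy
    by_cases hx : x ∈ S <;> by_cases hy : y ∈ S
    · rw [hKS t x hx, hKS t y hy] at hxy'
      exact f.injective hxy'
    · rw [hKS t x hx] at hxy'
      have h1 := hKU t ⟨y, hy⟩
      rw [← hxy'] at h1
      exact absurd (mem_image_of_mem f hx) (h1 ▸ (k (t, ⟨y, hy⟩)).2 : f x ∈ (f '' S)ᶜ)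
    · rw [hKS t y hy] at hxy'
      have h1 := hKU t ⟨x, hx⟩
      rw [hxy'] at h1
      exact absurd (mem_image_of_mem f hy) (h1 ▸ (k (t, ⟨x, hx⟩)).2 : f y ∈ (f '' S)ᶜ)
    · have h1 : (k (t, ⟨x, hx⟩) : Y) = k (t, ⟨y, hy⟩) := by
        rw [← hKU t ⟨x, hx⟩, ← hKU t ⟨y, hy⟩]
        exact hxy'
      exact congrArg Subtype.val ((k2 t).2.1.1 (Subtype.ext h1))
  · intro y
    by_cases hy : y ∈ f '' S
    · obtain ⟨x, hx, rfl⟩ := hy
      exact ⟨x, hKS t x hx⟩
    · obtain ⟨u, hu⟩ := (k2 t).2.1.2 ⟨y, hy⟩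
      exact ⟨u, (hKU t u).trans (congrArg Subtype.val hu)⟩
  · by_cases hx : x ∈ S
    · rw [hKS t x hx]
      exact hfO x
    · have h1 := (k3 t ⟨x, hx⟩).2
      rw [← hKU t ⟨x, hx⟩] at h1
      exact h1
  · by_cases hxS : x ∈ S
    · exact hKS t x hxS
    · have hxW : x ∉ W := hx.resolve_left hxS
      exact (hKU t ⟨x, hxS⟩).trans (congrArg Subtype.val (k4 t ⟨x, hxS⟩ hxW))
  · by_cases hx : x ∈ S
    · exact hKS t x hx
    · exact (hKU t ⟨x, hx⟩).trans (congrArg Subtype.val (k5 t ht ⟨x, hx⟩))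
  · by_cases hx : x ∈ S
    · rw [hKS t x hx, hKS 1 x hx]
    · have h1 := (hKU t ⟨x, hx⟩).trans (congrArg Subtype.val (k6 t ht ⟨x, hx⟩))
      have h3 := (hKU 1 ⟨x, hx⟩).trans (congrArg Subtype.val (k6 1 le_rfl ⟨x, hx⟩))
      exact h1.trans h3.symm
  · rw [(hKloc' t ⟨x, hx⟩).mfderiv_eq]
    have e1 : rU ⟨x, hx⟩ x = ⟨x, hx⟩ := hrUu ⟨x, hx⟩
    refine rank_comp (fun u : U => k (t, u)) (rU ⟨x, hx⟩) (Subtype.val : V → Y) x
      (hrU1 ⟨x, hx⟩) (LD_val V _) ?_ ?_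
    · rw [e1]
      exact ((k2 t).1 _).mdifferentiableAt (by simp)
    · rw [e1]
      exact (k2 t).2.2 ⟨x, hx⟩
  · refine LD.congr ?_ (hKloc' 1 ⟨x, hx⟩)
    have e1 : rU ⟨x, hx⟩ x = ⟨x, hx⟩ := hrUu ⟨x, hx⟩
    have e2 : (fun u : U => k (1, u)) = φ := funext fun u => k6 1 le_rfl u
    have e3 : LD (m + 1) (fun u : U => k (1, u)) (rU ⟨x, hx⟩ x) := by
      rw [e2]
      exact h2 _
    exact LD.comp_fun (LD_val V _) (LD.comp_fun (g := fun u : U => k (1, u)) e3 (hrU1 ⟨x, hx⟩))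

end Pool.Agent.V1127.Iso
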