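import Pool.Agent.V1127.Iso.Step
import Pool.Agent.Y170.NA.Step

/-!
# Smooth paths of smooth bijections of corank at most one
-/

set_option autoImplicit false

open Set Filter Topology Metric Function
open scoped Manifold ContDiff

noncomputable section

namespace Pool.Agent.V1127.Iso

open Pool.Agent.Y522 Pool.Agent.Y522.NA Pool.Agent.Y170.NA

section defs

variable (m : ℕ) {X Y : Type} [TopologicalSpace X] [ChartedSpace (E (m + 1)) X]
  [TopologicalSpace Y] [ChartedSpace (E (m + 1)) Y]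

/-- smooth bijections whose differentials have corank at most one -/
def Gen (f : X → Y) : Prop :=
  ContMDiff (𝓡 (m + 1)) (𝓡 (m + 1)) ∞ f ∧ Bijective f ∧
    ∀ x, m ≤ Module.finrank ℝ
      (LinearMap.range (mfderiv (𝓡 (m + 1)) (𝓡 (m + 1)) f x).toLinearMap)

/-- smooth families -/
def Smf (K : ℝ × X → Y) : Prop :=
  ContMDiff ((𝓘(ℝ, ℝ)).prod (𝓡 (m + 1))) (𝓡 (m + 1)) ∞ K

/-- `f` and `g` are joined by a smooth path of smooth bijections of corank at most one with graphs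
in `O` which agree with `f₀` outside `W` -/
def Pth (O : Set (X × Y)) (W : Set X) (f₀ f g : X → Y) : Prop :=
  ∃ K : ℝ × X → Y, Smf m K ∧ (∀ t, Gen m fun x => K (t, x)) ∧ (∀ t x, (x, K (t, x)) ∈ O) ∧
    (∀ t x, x ∉ W → K (t, x) = f₀ x) ∧ (∀ t ≤ (0 : ℝ), ∀ x, K (t, x) = f x) ∧
    ∀ t, (1 : ℝ) ≤ t → ∀ x, K (t, x) = g x

end defs

section paths

variable {m : ℕ} {X Y : Type} [TopologicalSpace X] [ChartedSpace (E (m + 1)) X]
  [TopologicalSpace Y] [ChartedSpace (E (m + 1)) Y]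

theorem Smf.repar {K : ℝ × X → Y} (hK : Smf m K) {φ : ℝ → ℝ} (hφ : ContDiff ℝ ∞ φ) :
    Smf m fun q : ℝ × X => K (φ q.1, q.2) := by
  refine ContMDiff.comp (g := K) (f := fun q : ℝ × X => (φ q.1, q.2)) hK ?_
  exact (hφ.contMDiff.comp contMDiff_fst).prodMk contMDiff_snd

theorem Pth.refl {O : Set (X × Y)} {W : Set X} {f₀ f : X → Y} (hf : Gen m f)
    (hO : ∀ x, (x, f x) ∈ O) (hW : ∀ x, x ∉ W → f x = f₀ x) : Pth m O W f₀ f f :=
  ⟨fun q => f q.2, hf.1.comp contMDiff_snd, fun _ => hf, fun _ x => hO x, fun _ x hx => hW x hx,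
    fun _ _ _ => rfl, fun _ _ _ => rfl⟩

theorem Pth.symm {O : Set (X × Y)} {W : Set X} {f₀ f g : X → Y} (h : Pth m O W f₀ f g) :
    Pth m O W f₀ g f := by
  obtain ⟨K, h1, h2, h3, h4, h5, h6⟩ := h
  refine ⟨fun q => K (1 - q.1, q.2), h1.repar (φ := fun t => 1 - t) (by fun_prop),
    fun t => h2 (1 - t), fun t x => h3 _ x, fun t x hx => h4 _ x hx,
    fun t ht x => h6 _ (by linarith) x, fun t ht x => h5 _ (by linarith) x⟩

theorem Pth.trans {O : Set (X × Y)} {W : Set X} {f₀ f g h : X → Y} (p : Pth m O W f₀ f g)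
    (q : Pth m O W f₀ g h) : Pth m O W f₀ f h := by
  obtain ⟨K, k1, k2, k3, k4, k5, k6⟩ := p
  obtain ⟨L, l1, l2, l3, l4, l5, l6⟩ := q
  have s1 : Smf m fun q : ℝ × X => K (3 * q.1, q.2) :=
    k1.repar (φ := fun t => 3 * t) (by fun_prop)
  have s2 : Smf m fun q : ℝ × X => L (3 * q.1 - 2, q.2) :=
    l1.repar (φ := fun t => 3 * t - 2) (by fun_prop)
  classical
  let M : ℝ × X → Y := fun q => if q.1 ≤ 1 / 2 then K (3 * q.1, q.2) else L (3 * q.1 - 2, q.2)
  have e1 : ∀ t x, t < 2 / 3 → M (t, x) = K (3 * t, x) := by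
    intro t x ht
    show (if t ≤ 1 / 2 then K (3 * t, x) else L (3 * t - 2, x)) = _
    split_ifs with h1
    · rfl
    · rw [k6 (3 * t) (by linarith), l5 (3 * t - 2) (by linarith)]
  have e2 : ∀ t x, 1 / 3 < t → M (t, x) = L (3 * t - 2, x) := by
    intro t x ht
    show (if t ≤ 1 / 2 then K (3 * t, x) else L (3 * t - 2, x)) = _
    split_ifs with h1
    · rw [k6 (3 * t) (by linarith), l5 (3 * t - 2) (by linarith)]
    · rfl
  have hM : ∀ t, (fun x => M (t, x)) = (fun x => K (3 * t, x)) ∨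
      (fun x => M (t, x)) = fun x => L (3 * t - 2, x) := by
    intro t
    rcases lt_or_ge t (2 / 3) with h1 | h1
    · exact Or.inl (funext fun x => e1 t x h1)
    · exact Or.inr (funext fun x => e2 t x (by linarith))
  refine ⟨M, ?_, fun t => ?_, fun t x => ?_, fun t x hx => ?_, fun t ht x => ?_, fun t ht x => ?_⟩
  · rintro ⟨t, x⟩
    rcases lt_or_ge t (2 / 3) with h1 | h1
    · refine (s1 (t, x)).congr_of_eventuallyEq ?_
      have h2 : ∀ᶠ q : ℝ × X in 𝓝 (t, x), q.1 < 2 / 3 :=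
        continuous_fst.continuousAt.eventually (gt_mem_nhds h1)
      filter_upwards [h2] with q hq
      exact e1 q.1 q.2 hq
    · refine (s2 (t, x)).congr_of_eventuallyEq ?_
      have h2 : ∀ᶠ q : ℝ × X in 𝓝 (t, x), 1 / 3 < q.1 :=
        continuous_fst.continuousAt.eventually (lt_mem_nhds (by linarith))
      filter_upwards [h2] with q hq
      exact e2 q.1 q.2 hq
  · rcases hM t with h1 | h1
    · rw [h1]; exact k2 _
    · rw [h1]; exact l2 _
  · rcases hM t with h1 | h1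
    · rw [congrFun h1 x]; exact k3 _ x
    · rw [congrFun h1 x]; exact l3 _ x
  · rcases hM t with h1 | h1
    · rw [congrFun h1 x]; exact k4 _ x hx
    · rw [congrFun h1 x]; exact l4 _ x hx
  · rw [e1 t x (by linarith)]
    exact k5 _ (by linarith) x
  · rw [e2 t x (by linarith)]
    exact l6 _ (by linarith) x

theorem Pth.mono {O O' : Set (X × Y)} {W W' : Set X} {f₀ f g : X → Y} (hO : O ⊆ O') (hW : W ⊆ W')
    (h : Pth m O W f₀ f g) : Pth m O' W' f₀ f g := by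
  obtain ⟨K, k1, k2, k3, k4, k5, k6⟩ := h
  exact ⟨K, k1, k2, fun t x => hO (k3 t x), fun t x hx => k4 t x fun h => hx (hW h), k5, k6⟩

/-- paths parametrised by `[0,1]` -/
theorem Pth.of_unit {O : Set (X × Y)} {W : Set X} {f₀ : X → Y} (K : ℝ × X → Y) (hK : Smf m K)
    (h1 : ∀ t ∈ Icc (0 : ℝ) 1, Gen m fun x => K (t, x))
    (h2 : ∀ t ∈ Icc (0 : ℝ) 1, ∀ x, (x, K (t, x)) ∈ O)
    (h3 : ∀ t ∈ Icc (0 : ℝ) 1, ∀ x, x ∉ W → K (t, x) = f₀ x) :
    Pth m O W f₀ (fun x => K (0, x)) (fun x => K (1, x)) := by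
  have hs : ∀ t, Real.smoothTransition t ∈ Icc (0 : ℝ) 1 := fun t =>
    ⟨Real.smoothTransition.nonneg t, Real.smoothTransition.le_one t⟩
  refine ⟨fun q => K (Real.smoothTransition q.1, q.2),
    hK.repar (φ := Real.smoothTransition) Real.smoothTransition.contDiff,
    fun t => h1 _ (hs t), fun t x => h2 _ (hs t) x, fun t x hx => h3 _ (hs t) x hx,
    fun t ht x => ?_, fun t ht x => ?_⟩
  · simp only [Real.smoothTransition.zero_of_nonpos ht]
  · simp only [Real.smoothTransition.one_of_one_le ht]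

end paths

section rank

variable {m : ℕ} {X Y : Type} [TopologicalSpace X] [ChartedSpace (E (m + 1)) X]
  [TopologicalSpace Y] [ChartedSpace (E (m + 1)) Y]

theorem surj_of_near {S : E (m + 1) →L[ℝ] E m} (h : ‖S - tl‖ < 1) : Surjective S := by
  have hi : Injective (S ∘L inc).toLinearMap := by
    rw [← LinearMap.ker_eq_bot, LinearMap.ker_eq_bot']
    intro v hv
    have hv' : S (inc v) = 0 := hv
    have h1 : tl (inc v) = v := by
      have := congrArg (fun T : E m →L[ℝ] E m => T v) (Pool.Agent.Y337.SH.tl_comp_inc (m := m))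
      exact this
    have h2 : ‖v‖ ≤ ‖S - tl‖ * ‖v‖ := by
      have h3 : (S - tl : E (m + 1) →L[ℝ] E m) (inc v) = -v := by
        rw [ContinuousLinearMap.sub_apply, hv', h1, zero_sub]
      have h4 := (S - tl : E (m + 1) →L[ℝ] E m).le_opNorm (inc v)
      rw [h3, norm_neg] at h4
      refine h4.trans (mul_le_mul_of_nonneg_left ?_ (norm_nonneg _))
      have h5 := (inc : E m →L[ℝ] E (m + 1)).le_opNorm v
      refine h5.trans ?_
      have h6 := Pool.Agent.Y337.SH.norm_inc_le (m := m)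
      calc ‖(inc : E m →L[ℝ] E (m + 1))‖ * ‖v‖ ≤ 1 * ‖v‖ :=
            mul_le_mul_of_nonneg_right h6 (norm_nonneg _)
        _ = ‖v‖ := one_mul _
    by_contra hne
    have h7 : 0 < ‖v‖ := norm_pos_iff.2 hne
    nlinarith
  have hs : Surjective (S ∘L inc).toLinearMap := LinearMap.injective_iff_surjective.1 hi
  intro y
  obtain ⟨v, hv⟩ := hs y
  exact ⟨inc v, hv⟩

theorem rank_of_surj (G : X → Y) (e : Y → E (m + 1)) (a : E (m + 1) → X) (z : E (m + 1))
    (T : E (m + 1) →L[ℝ] E m) (hG : MDifferentiableAt (𝓡 (m + 1)) (𝓡 (m + 1)) G (a z))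
    (he : MDifferentiableAt (𝓡 (m + 1)) (𝓡 (m + 1)) e (G (a z)))
    (ha : MDifferentiableAt (𝓡 (m + 1)) (𝓡 (m + 1)) a z)
    (hs : Surjective (fderiv ℝ (fun w => T (e (G (a w)))) z)) :
    m ≤ Module.finrank ℝ
      (LinearMap.range (mfderiv (𝓡 (m + 1)) (𝓡 (m + 1)) G (a z)).toLinearMap) := by
  have hT : MDifferentiableAt (𝓡 (m + 1)) (𝓡 m) (T : E (m + 1) → E m) (e (G (a z))) :=
    T.contMDiff.mdifferentiableAt (by simp : (∞ : WithTop ℕ∞) ≠ 0)
  have h1 : HasMFDerivAt (𝓡 (m + 1)) (𝓡 m) (fun w => T (e (G (a w)))) z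
      ((T : E (m + 1) →L[ℝ] E m).comp ((mfderiv (𝓡 (m + 1)) (𝓡 (m + 1)) e (G (a z))).comp
        ((mfderiv (𝓡 (m + 1)) (𝓡 (m + 1)) G (a z)).comp
          (mfderiv (𝓡 (m + 1)) (𝓡 (m + 1)) a z)))) := by
    have t1 : HasMFDerivAt (𝓡 (m + 1)) (𝓡 (m + 1)) (fun w => G (a w)) z
        ((mfderiv (𝓡 (m + 1)) (𝓡 (m + 1)) G (a z)).comp
          (mfderiv (𝓡 (m + 1)) (𝓡 (m + 1)) a z)) :=
      HasMFDerivAt.comp z hG.hasMFDerivAt ha.hasMFDerivAt
    have t2 : HasMFDerivAt (𝓡 (m + 1)) (𝓡 (m + 1)) (fun w => e (G (a w))) z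
        ((mfderiv (𝓡 (m + 1)) (𝓡 (m + 1)) e (G (a z))).comp
        ((mfderiv (𝓡 (m + 1)) (𝓡 (m + 1)) G (a z)).comp
          (mfderiv (𝓡 (m + 1)) (𝓡 (m + 1)) a z))) :=
      HasMFDerivAt.comp z (g := e) (f := fun w => G (a w)) he.hasMFDerivAt t1
    have t3 : HasMFDerivAt (𝓡 (m + 1)) (𝓡 m) (T : E (m + 1) → E m) (e (G (a z))) T :=
      T.hasMFDerivAt
    exact HasMFDerivAt.comp z (g := (T : E (m + 1) → E m)) (f := fun w => e (G (a w))) t3 t2
  have h2 := h1.mfderiv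
  rw [mfderiv_eq_fderiv] at h2
  let D : E (m + 1) →L[ℝ] E (m + 1) := mfderiv (𝓡 (m + 1)) (𝓡 (m + 1)) G (a z)
  show m ≤ Module.finrank ℝ (LinearMap.range D.toLinearMap)
  let P : E (m + 1) →ₗ[ℝ] E m := (T : E (m + 1) →L[ℝ] E m).toLinearMap ∘ₗ
    (mfderiv (𝓡 (m + 1)) (𝓡 (m + 1)) e (G (a z))).toLinearMap
  have h4 : Surjective (P ∘ₗ (LinearMap.range D.toLinearMap).subtype) := by
    intro w
    obtain ⟨v, hv⟩ := hs w
    rw [h2] at hv
    exact ⟨⟨_, LinearMap.mem_range_self D.toLinearMap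
      (mfderiv (𝓡 (m + 1)) (𝓡 (m + 1)) a z v)⟩, hv⟩
  have h5 := LinearMap.finrank_le_finrank_of_surjective h4
  rwa [finrank_euclideanSpace, Fintype.card_fin] at h5

end rank

end Pool.Agent.V1127.Iso
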