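import Pool.Agent.V1127.Iso.Path

/-!
# The segment in a chart is a smooth path of smooth bijections of corank at most one
-/

set_option autoImplicit false

open Set Filter Topology Metric Function
open scoped Manifold ContDiff

noncomputable section

namespace Pool.Agent.V1127.Iso

open Pool.Agent.Y522 Pool.Agent.Y522.NA Pool.Agent.Y170.NA

section smooth

variable {n : ℕ} {X Y : Type} [TopologicalSpace X] [ChartedSpace (E n) X]
  [TopologicalSpace Y] [ChartedSpace (E n) Y]

omit [ChartedSpace (E n) X] [ChartedSpace (E n) Y] in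
theorem seg_off (U : TopologicalSpace.Opens X) (e : OpenPartialHomeomorph Y (E n))
    (F' : U → E n) (G : X → Y) (hsrc : ∀ u : U, G u ∈ e.source) (K : Set U)
    (hoff : ∀ u ∉ K, F' u = e (G u)) (s : ℝ) {x : X} (hx : x ∉ Subtype.val '' K) :
    glue U e (fun u => AffineMap.lineMap (e (G u)) (F' u) s) G x = G x := by
  refine glue_off U e _ G hsrc K (fun u hu => ?_) hx
  rw [hoff u hu, AffineMap.lineMap_same_apply]

theorem seg_smooth (U : TopologicalSpace.Opens X) (e : OpenPartialHomeomorph Y (E n))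
    (he : ∀ z ∈ e.target, LD n (e.symm : E n → Y) z)
    (he' : ∀ y ∈ e.source, LD n (e : Y → E n) y)
    (F' : U → E n) (G : X → Y) (hG : ContMDiff (𝓡 n) (𝓡 n) ∞ G)
    (hsrc : ∀ u : U, G u ∈ e.source)
    (htgt : ∀ s ∈ Icc (0 : ℝ) 1, ∀ u : U,
      (AffineMap.lineMap (e (G u)) (F' u) s : E n) ∈ e.target)
    (hF' : ∀ u : U, ContMDiffAt (𝓡 n) (𝓡 n) ∞ F' u) (K : Set U)
    (hK : IsClosed (Subtype.val '' K : Set X)) (hoff : ∀ u ∉ K, F' u = e (G u)) :
    ContMDiff ((𝓘(ℝ, ℝ)).prod (𝓡 n)) (𝓡 n) ∞ (fun q : ℝ × X =>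
      glue U e (fun u => AffineMap.lineMap (e (G u)) (F' u) (Real.smoothTransition q.1)) G
        q.2) := by
  rintro ⟨t, x⟩
  by_cases hx : x ∈ U
  · obtain ⟨p, hp1, hp2, hp3, hp4⟩ := (LD_val (n := n) U ⟨x, hx⟩).exists_inverse
    have hp2' : p x = ⟨x, hx⟩ := hp2
    have c1 : ContMDiffAt ((𝓘(ℝ, ℝ)).prod (𝓡 n)) (𝓡 n) ∞ (fun q : ℝ × X => p q.2) (t, x) :=
      ContMDiffAt.comp (g := p) (f := fun q : ℝ × X => q.2) (t, x)
        hp1.contMDiffAt contMDiffAt_snd
    have c2 : ContMDiffAt ((𝓘(ℝ, ℝ)).prod (𝓡 n)) (𝓡 n) ∞ (fun q : ℝ × X => (p q.2 : X))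
        (t, x) :=
      ContMDiffAt.comp (g := (Subtype.val : U → X)) (f := fun q : ℝ × X => p q.2) (t, x)
        contMDiff_subtype_val.contMDiffAt c1
    have c3 : ContMDiffAt ((𝓘(ℝ, ℝ)).prod (𝓡 n)) (𝓡 n) ∞ (fun q : ℝ × X => G (p q.2 : X))
        (t, x) :=
      ContMDiffAt.comp (g := G) (f := fun q : ℝ × X => (p q.2 : X)) (t, x) hG.contMDiffAt c2
    have c4 : ContMDiffAt ((𝓘(ℝ, ℝ)).prod (𝓡 n)) (𝓡 n) ∞ (fun q : ℝ × X => e (G (p q.2 : X)))
        (t, x) :=
      ContMDiffAt.comp (g := e) (f := fun q : ℝ × X => G (p q.2 : X)) (t, x)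
        (he' _ (hsrc _)).contMDiffAt c3
    have c5 : ContMDiffAt ((𝓘(ℝ, ℝ)).prod (𝓡 n)) (𝓡 n) ∞ (fun q : ℝ × X => F' (p q.2))
        (t, x) :=
      ContMDiffAt.comp (g := F') (f := fun q : ℝ × X => p q.2) (t, x) (hF' _) c1
    have c6 : ContMDiffAt ((𝓘(ℝ, ℝ)).prod (𝓡 n)) 𝓘(ℝ, ℝ) ∞
        (fun q : ℝ × X => Real.smoothTransition q.1) (t, x) :=
      ContMDiffAt.comp (g := Real.smoothTransition) (f := fun q : ℝ × X => q.1) (t, x)
        Real.smoothTransition.contDiff.contMDiff.contMDiffAt contMDiffAt_fst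
    have c7 : ContMDiffAt ((𝓘(ℝ, ℝ)).prod (𝓡 n)) (𝓡 n) ∞ (fun q : ℝ × X =>
        (AffineMap.lineMap (e (G (p q.2 : X))) (F' (p q.2)) (Real.smoothTransition q.1) : E n))
        (t, x) := by
      refine ((c6.smul (c5.sub c4)).add c4).congr_of_eventuallyEq
        (Eventually.of_forall fun q => ?_)
      exact AffineMap.lineMap_apply _ _ _
    have c8 : ContMDiffAt ((𝓘(ℝ, ℝ)).prod (𝓡 n)) (𝓡 n) ∞ (fun q : ℝ × X =>
        e.symm (AffineMap.lineMap (e (G (p q.2 : X))) (F' (p q.2))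
          (Real.smoothTransition q.1) : E n)) (t, x) :=
      ContMDiffAt.comp (g := e.symm) (f := fun q : ℝ × X =>
        (AffineMap.lineMap (e (G (p q.2 : X))) (F' (p q.2)) (Real.smoothTransition q.1) : E n))
        (t, x) (he _ (htgt _ ⟨Real.smoothTransition.nonneg t, Real.smoothTransition.le_one t⟩
          _)).contMDiffAt c7
    refine c8.congr_of_eventuallyEq ?_
    have hp5 : ∀ᶠ z in 𝓝 x, ((p z : U) : X) = z := hp4
    have hev : ∀ᶠ q : ℝ × X in 𝓝 (t, x), ((p q.2 : U) : X) = q.2 :=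
      (continuous_snd.tendsto (t, x)).eventually hp5
    filter_upwards [hev] with q hq
    have h1 := glue_in U e (fun u => AffineMap.lineMap (e (G u)) (F' u)
      (Real.smoothTransition q.1)) G (p q.2)
    rw [hq] at h1
    rw [h1, hq]
  · have hxK : x ∉ Subtype.val '' K := by
      rintro ⟨u, _, rfl⟩
      exact hx u.2
    have c1 : ContMDiffAt ((𝓘(ℝ, ℝ)).prod (𝓡 n)) (𝓡 n) ∞ (fun q : ℝ × X => G q.2) (t, x) :=
      ContMDiffAt.comp (g := G) (f := fun q : ℝ × X => q.2) (t, x) hG.contMDiffAt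
        contMDiffAt_snd
    refine c1.congr_of_eventuallyEq ?_
    have hev : ∀ᶠ q : ℝ × X in 𝓝 (t, x), q.2 ∈ (Subtype.val '' K : Set X)ᶜ :=
      continuous_snd.continuousAt.eventually (hK.isOpen_compl.mem_nhds hxK)
    filter_upwards [hev] with q hq
    exact seg_off U e F' G hsrc K hoff _ hq

end smooth

section path

variable {m : ℕ} {X Y : Type} [TopologicalSpace X] [ChartedSpace (E (m + 1)) X]
  [TopologicalSpace Y] [ChartedSpace (E (m + 1)) Y]

theorem seg_path (U : TopologicalSpace.Opens X) (e : OpenPartialHomeomorph Y (E (m + 1)))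
    (he : ∀ z ∈ e.target, LD (m + 1) (e.symm : E (m + 1) → Y) z)
    (he' : ∀ y ∈ e.source, LD (m + 1) (e : Y → E (m + 1)) y)
    (F' : U → E (m + 1)) (G : X → Y) (hG : Gen m G) (hsrc : ∀ u : U, G u ∈ e.source)
    (A : E (m + 1) → U) (L : E (m + 1) ≃L[ℝ] E (m + 1))
    (hA : ∀ z ∈ box m 1 1, LD (m + 1) A z)
    (hd : ∀ z ∈ box m 1 1, ‖fderiv ℝ (fun w => tl (L (e (G (A w : X))))) z - tl‖ < 1)
    (hF' : ∀ u : U, ContMDiffAt (𝓡 (m + 1)) (𝓡 (m + 1)) ∞ F' u)
    (htl : ∀ u : U, tl (L (F' u)) = tl (L (e (G u))))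
    (hK : IsClosed (Subtype.val '' (A '' box m 1 1) : Set X))
    (hoff : ∀ u ∉ A '' box m 1 1, F' u = e (G u))
    (hseg : ∀ s ∈ Icc (0 : ℝ) 1,
      Injective (fun u : U => (AffineMap.lineMap (e (G u)) (F' u) s : E (m + 1))) ∧
      range (fun u : U => (AffineMap.lineMap (e (G u)) (F' u) s : E (m + 1))) =
        range fun u : U => e (G u))
    (O : Set (X × Y)) (hGO : ∀ x, (x, G x) ∈ O)
    (hO : ∀ u ∈ A '' box m 1 1, ∀ s ∈ Icc (0 : ℝ) 1,
      ((u : X), e.symm (AffineMap.lineMap (e (G u)) (F' u) s)) ∈ O)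
    (W : Set X) (f : X → Y) (hUW : (U : Set X) ⊆ W) (hGf : ∀ x ∉ W, G x = f x) :
    Pth m O W f G (glue U e F' G) := by
  have hσ : ∀ t, Real.smoothTransition t ∈ Icc (0 : ℝ) 1 := fun t =>
    ⟨Real.smoothTransition.nonneg t, Real.smoothTransition.le_one t⟩
  have htgt : ∀ s ∈ Icc (0 : ℝ) 1, ∀ u : U,
      (AffineMap.lineMap (e (G u)) (F' u) s : E (m + 1)) ∈ e.target := by
    intro s hs u
    have h1 : (AffineMap.lineMap (e (G u)) (F' u) s : E (m + 1)) ∈ range fun u : U => e (G u) := by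
      rw [← (hseg s hs).2]
      exact ⟨u, rfl⟩
    obtain ⟨v, hv⟩ := h1
    rw [← hv]
    exact e.map_source (hsrc v)
  have hsm := seg_smooth U e he he' F' G hG.1 hsrc htgt hF' (A '' box m 1 1) hK hoff
  refine ⟨_, hsm, fun t => ⟨?_, ?_, ?_⟩, fun t x => ?_, fun t x hx => ?_, fun t ht x => ?_,
    fun t ht x => ?_⟩
  · exact ContMDiff.comp (g := fun q : ℝ × X => glue U e (fun u => AffineMap.lineMap (e (G u))
      (F' u) (Real.smoothTransition q.1)) G q.2) (f := fun x : X => (t, x)) hsm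
      (contMDiff_const.prodMk contMDiff_id)
  · exact glue_bij U e _ G hG.2.1 hsrc (hseg _ (hσ t)).1 (hseg _ (hσ t)).2
  · intro x
    show m ≤ Module.finrank ℝ (LinearMap.range (mfderiv (𝓡 (m + 1)) (𝓡 (m + 1))
      (glue U e (fun u => AffineMap.lineMap (e (G u)) (F' u) (Real.smoothTransition t)) G)
        x).toLinearMap)
    by_cases hx : x ∈ (Subtype.val '' (A '' box m 1 1) : Set X)
    · obtain ⟨u, ⟨z, hz, rfl⟩, rfl⟩ := hx
      have hsmt : ContMDiff (𝓡 (m + 1)) (𝓡 (m + 1)) ∞ (glue U e (fun u =>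
          AffineMap.lineMap (e (G u)) (F' u) (Real.smoothTransition t)) G) :=
        ContMDiff.comp (g := fun q : ℝ × X => glue U e (fun u => AffineMap.lineMap (e (G u))
          (F' u) (Real.smoothTransition q.1)) G q.2) (f := fun x : X => (t, x)) hsm
          (contMDiff_const.prodMk contMDiff_id)
      have hin : ∀ v : U, glue U e (fun u =>
          AffineMap.lineMap (e (G u)) (F' u) (Real.smoothTransition t)) G v =
          e.symm (AffineMap.lineMap (e (G v)) (F' v) (Real.smoothTransition t)) := fun v =>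
        glue_in U e _ G v
      refine rank_of_surj _ e (fun w => (A w : X)) z
        ((tl : E (m + 1) →L[ℝ] E m) ∘L (L : E (m + 1) →L[ℝ] E (m + 1)))
        (hsmt.mdifferentiableAt (by simp)) ?_ ?_ ?_
      · refine (he' _ ?_).mdifferentiableAt
        rw [hin]
        exact e.map_target (htgt _ (hσ t) _)
      · exact LD.mdifferentiableAt (LD.comp_fun (LD_val _ _) (hA z hz))
      · have h1 : (fun w => ((tl : E (m + 1) →L[ℝ] E m) ∘L (L : E (m + 1) →L[ℝ] E (m + 1)))
            (e (glue U e (fun u =>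
              AffineMap.lineMap (e (G u)) (F' u) (Real.smoothTransition t)) G (A w : X)))) =
            fun w => tl (L (e (G (A w : X)))) := by
          funext w
          rw [hin, e.right_inv (htgt _ (hσ t) _)]
          show tl (L (AffineMap.lineMap (e (G (A w : X))) (F' (A w))
            (Real.smoothTransition t))) = _
          rw [AffineMap.lineMap_apply, vsub_eq_sub, vadd_eq_add, map_add, map_add, map_smul,
            map_smul, map_sub, map_sub, htl, sub_self, smul_zero, zero_add]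
        rw [h1]
        exact surj_of_near (hd z hz)
    · have h1 : glue U e (fun u => AffineMap.lineMap (e (G u)) (F' u)
          (Real.smoothTransition t)) G =ᶠ[𝓝 x] G := by
        filter_upwards [hK.isOpen_compl.mem_nhds hx] with y hy
        exact seg_off U e F' G hsrc _ hoff _ hy
      rw [h1.mfderiv_eq]
      exact hG.2.2 x
  · by_cases h : x ∈ (Subtype.val '' (A '' box m 1 1) : Set X)
    · obtain ⟨u, hu, rfl⟩ := h
      show ((u : X), glue U e (fun u => AffineMap.lineMap (e (G u)) (F' u)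
          (Real.smoothTransition t)) G u) ∈ O
      rw [glue_in]
      exact hO u hu _ (hσ t)
    · show (x, glue U e (fun u => AffineMap.lineMap (e (G u)) (F' u)
          (Real.smoothTransition t)) G x) ∈ O
      rw [seg_off U e F' G hsrc _ hoff _ h]
      exact hGO x
  · show glue U e (fun u => AffineMap.lineMap (e (G u)) (F' u)
          (Real.smoothTransition t)) G x = f x
    rw [glue_out U e _ G (fun h => hx (hUW h))]
    exact hGf x hx
  · show glue U e (fun u => AffineMap.lineMap (e (G u)) (F' u)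
          (Real.smoothTransition t)) G x = G x
    rw [Real.smoothTransition.zero_of_nonpos ht]
    by_cases h : x ∈ U
    · rw [show x = ((⟨x, h⟩ : U) : X) from rfl, glue_in, AffineMap.lineMap_apply_zero]
      exact e.left_inv (hsrc ⟨x, h⟩)
    · exact glue_out U e _ G h
  · show glue U e (fun u => AffineMap.lineMap (e (G u)) (F' u)
          (Real.smoothTransition t)) G x = glue U e F' G x
    rw [Real.smoothTransition.one_of_one_le ht]
    congr 1
    funext u
    exact AffineMap.lineMap_apply_one _ _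

end path

end Pool.Agent.V1127.Iso
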