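import Pool.Agent.V1127.Iso.StepP

/-!
# Smooth bijections of corank at most one: one step, for countable families of boxes
-/

set_option autoImplicit false

open Set Filter Topology Metric Function
open scoped Manifold ContDiff

noncomputable section

namespace Pool.Agent.V1127.Iso

open Pool.Agent.Y522 Pool.Agent.Y522.NA Pool.Agent.Y170.NA

section defs

variable (m : ℕ) {X Y : Type} [TopologicalSpace X] [T2Space X] [ChartedSpace (E (m + 1)) X]
  [IsManifold (𝓡 (m + 1)) ∞ X] [TopologicalSpace Y] [ChartedSpace (E (m + 1)) Y]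

/-- the state after `k` steps -/
structure IvN (f : X → Y) (act : Set ℕ) (D : ℕ → Dt m f) (O : Set (X × Y)) (k : ℕ) (G : X → Y) :
    Prop where
  gen : Gen m G
  gr : ∀ x, (x, G x) ∈ O
  der : ∀ j ∈ act, ∀ z ∈ box m 1 1,
    ‖fderiv ℝ (fun w => tl ((D j).L (chartAt (E (m + 1)) (D j).y0 (G ((D j).A w : X))))) z - tl‖
      < (D j).η
  good : ∀ i ∈ act, i < k → ∀ z ∈ box m (1 / 4) (1 / 4), LD (m + 1) G ((D i).A z : X)

end defs

variable {m : ℕ} {X Y : Type} [TopologicalSpace X] [T2Space X] [ChartedSpace (E (m + 1)) X]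
  [IsManifold (𝓡 (m + 1)) ∞ X] [TopologicalSpace Y] [ChartedSpace (E (m + 1)) Y]
  [IsManifold (𝓡 (m + 1)) ∞ Y]

omit [IsManifold (𝓡 (m + 1)) ∞ X] in
/-- one step of the smoothing; outside the chart nothing is changed, local diffeomorphisms are
preserved and the old and the new map are joined by a path -/
theorem step_n (f : X → Y) (act : Set ℕ) (D : ℕ → Dt m f) (O : Set (X × Y)) (hO : IsOpen O)
    (hOD : ∀ p ∈ O, ∀ j ∈ act, p.1 ∈ closure ((D j).U : Set X) →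
      p.2 ∈ (chartAt (E (m + 1)) (D j).y0).source ∧
      ‖chartAt (E (m + 1)) (D j).y0 p.2 - chartAt (E (m + 1)) (D j).y0 (f p.1)‖ < (D j).η)
    (k : ℕ) (hk : k ∈ act) (N : ℕ)
    (hN : ∀ j ∈ act, N ≤ j → Disjoint ((D j).U : Set X) ((D k).U : Set X))
    (G : X → Y) (hG : IvN m f act D O k G) :
    ∃ G' : X → Y, IvN m f act D O (k + 1) G' ∧ (∀ x, x ∉ (D k).U → G' x = G x) ∧
      (∀ x, LD (m + 1) G x → LD (m + 1) G' x) ∧
      Pth m O ((D k).U : Set X) G G G' := by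
  classical
  set κ : ℕ := k with hκ
  set U := (D κ).U with hU
  set e := chartAt (E (m + 1)) (D κ).y0 with he
  have heLD : ∀ y ∈ e.source, LD (m + 1) (e : Y → E (m + 1)) y := fun y hy =>
    Pool.Agent.Y66.CM.LD_chart _ y hy
  have hesLD : ∀ z ∈ e.target, LD (m + 1) (e.symm : E (m + 1) → Y) z := fun z hz =>
    chart_symm_smooth _ hz
  have hsrcj : ∀ j ∈ act, ∀ u : (D j).U, G u ∈ (chartAt (E (m + 1)) (D j).y0).source :=
    fun j hj u => (hOD _ (hG.gr u) j hj (subset_closure u.2)).1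
  have hsrc : ∀ u : U, G u ∈ e.source := hsrcj κ hk
  let F : U → E (m + 1) := fun u => e (G u)
  have hFs : ∀ u, ContMDiffAt (𝓡 (m + 1)) (𝓡 (m + 1)) ∞ F u := fun u =>
    (heLD _ (hsrc u)).contMDiffAt.comp u (hG.gen.1.contMDiffAt.comp u contMDiff_subtype_val.contMDiffAt)
  have hFc : Continuous F := continuous_iff_continuousAt.mpr fun u => (hFs u).continuousAt
  have hFi : Injective F := fun u v huv =>
    Subtype.ext (hG.gen.2.1.1 (e.injOn (hsrc u) (hsrc v) huv))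
  -- the boxes in `X`
  let a : ℕ → E (m + 1) → X := fun j w => ((D j).A w : X)
  have haLD : ∀ j, ∀ z ∈ box m 1 1, LD (m + 1) (a j) z := fun j z hz =>
    LD.comp_fun (LD_val _ _) ((D j).nb.ld z hz)
  have haC : ∀ j, ContinuousOn (a j) (box m 1 1) := fun j z hz =>
    (haLD j z hz).continuousAt.continuousWithinAt
  let b : ℕ → E (m + 1) → U := fun j w => if h : a j w ∈ U then ⟨a j w, h⟩ else (D κ).A 0
  have hb : ∀ j w, a j w ∈ U → (b j w : X) = a j w := by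
    intro j w hw
    show ((if h : a j w ∈ U then ⟨a j w, h⟩ else (D κ).A 0 : U) : X) = a j w
    rw [dif_pos hw]
  have hKUc : IsCompact ((D κ).A '' box m 1 1) :=
    (isCompact_box 1 1).image_of_continuousOn
      (Pool.Agent.Y870.SH.continuousOn_of_NBox (D κ).nb)
  have hKval : (Subtype.val '' ((D κ).A '' box m 1 1) : Set X) = a κ '' box m 1 1 := by
    rw [image_image]
  have hKc : IsCompact (a κ '' box m 1 1) := (isCompact_box 1 1).image_of_continuousOn (haC κ)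
  have hKcl : IsClosed (a κ '' box m 1 1) := hKc.isClosed
  have hKU : ∀ x ∈ a κ '' box m 1 1, x ∈ U := by
    rintro x ⟨w, _, rfl⟩
    exact ((D κ).A w).2
  let Oj : ℕ → Set (E (m + 1)) := fun j => box m 1 1 ∩ a j ⁻¹' (a κ '' box m 1 1)
  have hOjc : ∀ j, IsCompact (Oj j) := fun j =>
    (isCompact_box 1 1).of_isClosed_subset
      ((haC j).preimage_isClosed_of_isClosed (isCompact_box 1 1).isClosed hKcl) inter_subset_left
  have hOjN : ∀ j ∈ act, ∀ z ∈ Oj j, j < N := by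
    intro j hj z hz
    by_contra hlt
    have h1 := hN j hj (not_lt.1 hlt)
    obtain ⟨w, -, hw⟩ := hz.2
    have h2 : a j z ∈ ((D κ).U : Set X) := by
      rw [← hw]
      exact ((D κ).A w).2
    exact Set.disjoint_left.1 h1 ((D j).A z).2 h2
  have hOjU : ∀ j, ∀ z ∈ Oj j, a j z ∈ U := fun j z hz => hKU _ hz.2
  have hbLD : ∀ j, ∀ z ∈ Oj j, LD (m + 1) (b j) z := fun j z hz =>
    LD_lift U (haLD j z hz.1) (b j) (hb j) (hOjU j z hz)
  have hsm_tl : ∀ z ∈ box m 1 1, ∀ᶠ y in 𝓝 ((D κ).A z),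
      ContMDiffAt (𝓡 (m + 1)) (𝓡 m) ∞ (fun y => tl ((D κ).L (F y))) y := by
    intro z _
    refine Eventually.of_forall fun y => ?_
    have hT : ContMDiff (𝓡 (m + 1)) (𝓡 m) ∞ (fun w : E (m + 1) => tl ((D κ).L w)) :=
      ((tl : E (m + 1) →L[ℝ] E m) ∘L ((D κ).L : E (m + 1) →L[ℝ] E (m + 1))).contMDiff
    exact ContMDiffAt.comp (g := fun w : E (m + 1) => tl ((D κ).L w)) y hT.contMDiffAt (hFs y)
  have key := fun (ε : ℝ) (hε : 0 < ε) => (D κ).step F hFc hFi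
    (fun p => (hOD _ (hG.gr p) κ hk (subset_closure p.2)).2.le) hsm_tl
    (fun z hz => (hG.der κ hk z hz).le) N (fun j => b j) (fun j => Oj j) (fun j => hOjc j)
    (fun j z hz => ⟨hbLD j z hz, Eventually.of_forall fun y => hFs y⟩) ε hε
  choose! F' hStep using key
  have hc0 : ∀ ε : ℝ, 0 < ε → Continuous (F' ε) := fun ε hε => (hStep ε hε).1
  have hi : ∀ ε : ℝ, 0 < ε → Injective (F' ε) := fun ε hε => (hStep ε hε).2.1
  have hr : ∀ ε : ℝ, 0 < ε → range (F' ε) = range F := fun ε hε => (hStep ε hε).2.2.1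
  have hoff : ∀ ε : ℝ, 0 < ε → ∀ p, p ∉ (D κ).A '' box m 1 1 → F' ε p = F p :=
    fun ε hε => (hStep ε hε).2.2.2.1
  have hcl : ∀ ε : ℝ, 0 < ε → ∀ p, ‖F' ε p - F p‖ ≤ ε := fun ε hε => (hStep ε hε).2.2.2.2.1
  have htl : ∀ ε : ℝ, 0 < ε → ∀ p, tl ((D κ).L (F' ε p)) = tl ((D κ).L (F p)) :=
    fun ε hε => (hStep ε hε).2.2.2.2.2.1
  have hsmn : ∀ ε : ℝ, 0 < ε → ∀ p, SmN m F p → SmN m (F' ε) p :=
    fun ε hε => (hStep ε hε).2.2.2.2.2.2.1
  have hld : ∀ ε : ℝ, 0 < ε → ∀ p, LD (m + 1) F p → LD (m + 1) (F' ε) p :=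
    fun ε hε => (hStep ε hε).2.2.2.2.2.2.2.1
  have hgd : ∀ ε : ℝ, 0 < ε → ∀ z ∈ box m (1 / 4) (1 / 4), LD (m + 1) (F' ε) ((D κ).A z) :=
    fun ε hε => (hStep ε hε).2.2.2.2.2.2.2.2.1
  have hdd : ∀ ε : ℝ, 0 < ε → ∀ j : Fin N, ∀ z ∈ Oj j,
      ‖fderiv ℝ (fun w => F' ε (b j w)) z - fderiv ℝ (fun w => F (b j w)) z‖ ≤ ε :=
    fun ε hε => (hStep ε hε).2.2.2.2.2.2.2.2.2.1
  have hsg : ∀ ε : ℝ, 0 < ε → ∀ s ∈ Icc (0 : ℝ) 1,
      Injective (fun p => (AffineMap.lineMap (F p) (F' ε p) s : E (m + 1))) ∧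
      range (fun p => (AffineMap.lineMap (F p) (F' ε p) s : E (m + 1))) = range F :=
    fun ε hε => (hStep ε hε).2.2.2.2.2.2.2.2.2.2
  have htgt : ∀ ε : ℝ, 0 < ε → ∀ u : U, F' ε u ∈ e.target := by
    intro ε hε u
    have h1 : F' ε u ∈ range F := by rw [← hr ε hε]; exact mem_range_self u
    obtain ⟨v, hv⟩ := h1
    rw [← hv]
    exact e.map_source (hsrc v)
  have hF's : ∀ ε : ℝ, 0 < ε → ∀ u : U, ContMDiffAt (𝓡 (m + 1)) (𝓡 (m + 1)) ∞ (F' ε) u :=
    fun ε hε u => (hsmn ε hε u (Eventually.of_forall fun y => hFs y)).self_of_nhds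
  -- first condition
  have ev1 : ∀ᶠ ε in 𝓝[>] (0 : ℝ), ∀ u ∈ (D κ).A '' box m 1 1,
      ((u : X), glue U e (F' ε) G u) ∈ O := by
    refine ev_compact hKUc (P := fun ε (u : U) => ((u : X), glue U e (F' ε) G u) ∈ O)
      fun u₀ _ => ?_
    have t1 := tendsto_unif F' F ((D κ).A '' box m 1 1) u₀ hFc.continuousAt.continuousWithinAt
      (fun ε hε u _ => hcl ε hε u)
    have t2 : Tendsto (e.symm : E (m + 1) → Y) (𝓝 (F u₀)) (𝓝 (e.symm (F u₀))) :=
      (hesLD _ (e.map_source (hsrc u₀))).continuousAt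
    have t3 : Tendsto (fun p : ℝ × U => (p.2 : X)) (𝓝[>] 0 ×ˢ 𝓝[(D κ).A '' box m 1 1] u₀)
        (𝓝 (u₀ : X)) :=
      (continuous_subtype_val.tendsto u₀).comp
        ((tendsto_id.mono_left nhdsWithin_le_nhds).comp tendsto_snd)
    have t4 := t3.prodMk_nhds (t2.comp t1)
    have h0 : ((u₀ : X), e.symm (F u₀)) ∈ O := by
      have : e.symm (F u₀) = G u₀ := e.left_inv (hsrc u₀)
      rw [this]
      exact hG.gr u₀
    filter_upwards [t4.eventually (hO.mem_nhds h0)] with p hp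
    have : glue U e (F' p.1) G p.2 = e.symm (F' p.1 p.2) := glue_in U e (F' p.1) G p.2
    rw [this]
    exact hp
  -- second condition
  have ev2 : ∀ j : Fin N, (j : ℕ) ∈ act → ∀ᶠ ε in 𝓝[>] (0 : ℝ), ∀ z ∈ Oj j,
      ‖fderiv ℝ (fun w => tl ((D j).L (chartAt (E (m + 1)) (D j).y0
        (glue U e (F' ε) G (a j w))))) z - tl‖ < (D j).η := by
    intro j hj
    set e' := chartAt (E (m + 1)) (D j).y0 with he'
    have he'LD : ∀ y ∈ e'.source, LD (m + 1) (e' : Y → E (m + 1)) y := fun y hy =>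
      Pool.Agent.Y66.CM.LD_chart _ y hy
    set T : E (m + 1) →L[ℝ] E m :=
      (tl : E (m + 1) →L[ℝ] E m) ∘L ((D j).L : E (m + 1) →L[ℝ] E (m + 1)) with hT
    refine ev_compact (hOjc j) (P := fun ε z => ‖fderiv ℝ (fun w => tl ((D j).L (e'
        (glue U e (F' ε) G (a j w))))) z - tl‖ < (D j).η) fun z₀ hz₀ => ?_
    have hb0 : (b j z₀ : X) = a j z₀ := hb j z₀ (hOjU j z₀ hz₀)
    have hGz : e.symm (F (b j z₀)) = G (a j z₀) := by
      have : e.symm (F (b j z₀)) = G (b j z₀) := e.left_inv (hsrc _)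
      rw [this, hb0]
    have hGs : G (a j z₀) ∈ e'.source := hsrcj j hj ((D j).A z₀)
    have hbc : ContinuousAt (b j) z₀ := (hbLD j z₀ hz₀).continuousAt
    have c1 : ContinuousWithinAt (fun z => F (b j z)) (Oj j) z₀ :=
      (hFc.continuousAt.comp hbc).continuousWithinAt
    have t1 := tendsto_unif (fun ε z => F' ε (b j z)) (fun z => F (b j z)) (Oj j) z₀ c1
      (fun ε hε z _ => hcl ε hε (b j z))
    have cd : ContDiffAt ℝ ∞ (fun w => F (b j w)) z₀ :=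
      contMDiffAt_iff_contDiffAt.1 ((hFs _).comp z₀ (hbLD j z₀ hz₀).contMDiffAt)
    have c2 : ContinuousWithinAt (fun z => fderiv ℝ (fun w => F (b j w)) z) (Oj j) z₀ :=
      (cd.fderiv_right (m := 0) (by simp)).continuousAt.continuousWithinAt
    have t2 := tendsto_unif (fun ε z => fderiv ℝ (fun w => F' ε (b j w)) z)
      (fun z => fderiv ℝ (fun w => F (b j w)) z) (Oj j) z₀ c2
      (fun ε hε z hz => hdd ε hε j z hz)
    have hΨ : LD (m + 1) (fun y => e' (e.symm y)) (F (b j z₀)) :=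
      LD.comp_fun (he'LD _ (by rw [hGz]; exact hGs)) (hesLD _ (e.map_source (hsrc _)))
    have c3 : ContinuousAt (fderiv ℝ (fun y => e' (e.symm y))) (F (b j z₀)) :=
      (hΨ.contDiffAt.fderiv_right (m := 0) (by simp)).continuousAt
    have t3 := c3.tendsto.comp t1
    have t4 : Tendsto (fun p : ℝ × E (m + 1) => T ∘L
        ((fderiv ℝ (fun y => e' (e.symm y)) (F' p.1 (b j p.2))) ∘L
          (fderiv ℝ (fun w => F' p.1 (b j w)) p.2)))
        (𝓝[>] 0 ×ˢ 𝓝[Oj j] z₀) (𝓝 (T ∘L ((fderiv ℝ (fun y => e' (e.symm y)) (F (b j z₀))) ∘L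
          (fderiv ℝ (fun w => F (b j w)) z₀)))) := by
      have s1 : Continuous fun q : (E (m + 1) →L[ℝ] E (m + 1)) × (E (m + 1) →L[ℝ] E (m + 1)) =>
          T ∘L (q.1 ∘L q.2) := by fun_prop
      exact (s1.tendsto _).comp (t3.prodMk_nhds t2)
    have hlim : T ∘L ((fderiv ℝ (fun y => e' (e.symm y)) (F (b j z₀))) ∘L
          (fderiv ℝ (fun w => F (b j w)) z₀)) =
        fderiv ℝ (fun w => tl ((D j).L (e' (G (a j w))))) z₀ := by
      have := der_formula U e e' hesLD he'LD F G (fun u => (e.left_inv (hsrc u)).symm) (a j) (b j)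
        T z₀ (haLD j z₀ hz₀.1) (hOjU j z₀ hz₀) (hb j) (hFs _) (e.map_source (hsrc _))
        (by rw [hGz]; exact hGs)
      exact this.symm
    have t5 : Tendsto (fun p : ℝ × E (m + 1) => ‖T ∘L
        ((fderiv ℝ (fun y => e' (e.symm y)) (F' p.1 (b j p.2))) ∘L
          (fderiv ℝ (fun w => F' p.1 (b j w)) p.2)) - tl‖)
        (𝓝[>] 0 ×ˢ 𝓝[Oj j] z₀)
        (𝓝 ‖fderiv ℝ (fun w => tl ((D j).L (e' (G (a j w))))) z₀ - tl‖) := by
      rw [← hlim]
      exact (t4.sub_const _).norm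
    have hlt : ‖fderiv ℝ (fun w => tl ((D j).L (e' (G (a j w))))) z₀ - tl‖ < (D j).η :=
      hG.der j hj z₀ hz₀.1
    have ev3 := t5.eventually_lt_const hlt
    have t6 : Tendsto (fun p : ℝ × E (m + 1) => e.symm (F' p.1 (b j p.2)))
        (𝓝[>] 0 ×ˢ 𝓝[Oj j] z₀) (𝓝 (e.symm (F (b j z₀)))) :=
      ((hesLD _ (e.map_source (hsrc _))).continuousAt.tendsto).comp t1
    have ev4 : ∀ᶠ p : ℝ × E (m + 1) in 𝓝[>] 0 ×ˢ 𝓝[Oj j] z₀,
        e.symm (F' p.1 (b j p.2)) ∈ e'.source :=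
      t6.eventually (e'.open_source.mem_nhds (by rw [hGz]; exact hGs))
    have ev5 : ∀ᶠ p : ℝ × E (m + 1) in 𝓝[>] 0 ×ˢ 𝓝[Oj j] z₀, 0 < p.1 :=
      tendsto_fst.eventually self_mem_nhdsWithin
    have ev6 : ∀ᶠ p : ℝ × E (m + 1) in 𝓝[>] 0 ×ˢ 𝓝[Oj j] z₀, p.2 ∈ Oj j :=
      tendsto_snd.eventually self_mem_nhdsWithin
    filter_upwards [ev3, ev4, ev5, ev6] with p h3 h4 h5 h6
    have := der_formula U e e' hesLD he'LD (F' p.1) (glue U e (F' p.1) G)
      (fun u => glue_in U e (F' p.1) G u) (a j) (b j)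
      T p.2 (haLD j p.2 h6.1) (hOjU j p.2 h6) (hb j) (hF's p.1 h5 _) (htgt p.1 h5 _) h4
    have e7 : fderiv ℝ (fun w => tl ((D j).L (e' (glue U e (F' p.1) G (a j w))))) p.2 =
        T ∘L ((fderiv ℝ (fun y => e' (e.symm y)) (F' p.1 (b j p.2))) ∘L
          (fderiv ℝ (fun w => F' p.1 (b j w)) p.2)) := this
    rw [e7]
    exact h3
  -- third condition
  have ev7 : ∀ᶠ ε in 𝓝[>] (0 : ℝ), ∀ q ∈ ((D κ).A '' box m 1 1) ×ˢ (Icc (0 : ℝ) 1),
      AffineMap.lineMap (e (G q.1)) (F' ε q.1) q.2 ∈ e.target ∧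
      ((q.1 : X), e.symm (AffineMap.lineMap (e (G q.1)) (F' ε q.1) q.2)) ∈ O := by
    refine ev_compact (hKUc.prod isCompact_Icc) (P := fun ε (q : U × ℝ) =>
      AffineMap.lineMap (e (G q.1)) (F' ε q.1) q.2 ∈ e.target ∧
      ((q.1 : X), e.symm (AffineMap.lineMap (e (G q.1)) (F' ε q.1) q.2)) ∈ O)
      fun q₀ _ => ?_
    have r1 : Tendsto (fun p : ℝ × (U × ℝ) => p.2.1) (𝓝[>] 0 ×ˢ
        𝓝[((D κ).A '' box m 1 1) ×ˢ (Icc (0 : ℝ) 1)] q₀) (𝓝 q₀.1) :=
      (continuous_fst.tendsto q₀).comp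
        ((tendsto_id.mono_left nhdsWithin_le_nhds).comp tendsto_snd)
    have r2 : Tendsto (fun p : ℝ × (U × ℝ) => p.2.2) (𝓝[>] 0 ×ˢ
        𝓝[((D κ).A '' box m 1 1) ×ˢ (Icc (0 : ℝ) 1)] q₀) (𝓝 q₀.2) :=
      (continuous_snd.tendsto q₀).comp
        ((tendsto_id.mono_left nhdsWithin_le_nhds).comp tendsto_snd)
    have r3 : Tendsto (fun p : ℝ × (U × ℝ) => F' p.1 p.2.1) (𝓝[>] 0 ×ˢ
        𝓝[((D κ).A '' box m 1 1) ×ˢ (Icc (0 : ℝ) 1)] q₀) (𝓝 (F q₀.1)) :=
      tendsto_unif (fun ε (q : U × ℝ) => F' ε q.1) (fun q => F q.1)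
        (((D κ).A '' box m 1 1) ×ˢ (Icc (0 : ℝ) 1)) q₀
        (hFc.comp continuous_fst).continuousAt.continuousWithinAt
        (fun ε hε q _ => hcl ε hε q.1)
    have r4 : Tendsto (fun p : ℝ × (U × ℝ) => F p.2.1) (𝓝[>] 0 ×ˢ
        𝓝[((D κ).A '' box m 1 1) ×ˢ (Icc (0 : ℝ) 1)] q₀) (𝓝 (F q₀.1)) :=
      (hFc.tendsto q₀.1).comp r1
    have r5 : Tendsto (fun p : ℝ × (U × ℝ) =>
        (AffineMap.lineMap (F p.2.1) (F' p.1 p.2.1) p.2.2 : E (m + 1))) (𝓝[>] 0 ×ˢ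
        𝓝[((D κ).A '' box m 1 1) ×ˢ (Icc (0 : ℝ) 1)] q₀) (𝓝 (F q₀.1)) := by
      have r6 := (r2.smul (r3.sub r4)).add r4
      rw [sub_self, smul_zero, zero_add] at r6
      simpa only [AffineMap.lineMap_apply, vsub_eq_sub, vadd_eq_add] using r6
    have r7 : Tendsto (e.symm : E (m + 1) → Y) (𝓝 (F q₀.1)) (𝓝 (e.symm (F q₀.1))) :=
      (hesLD _ (e.map_source (hsrc q₀.1))).continuousAt
    have r8 : Tendsto (fun p : ℝ × (U × ℝ) => (p.2.1 : X)) (𝓝[>] 0 ×ˢ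
        𝓝[((D κ).A '' box m 1 1) ×ˢ (Icc (0 : ℝ) 1)] q₀) (𝓝 (q₀.1 : X)) :=
      (continuous_subtype_val.tendsto q₀.1).comp r1
    have r9 := r8.prodMk_nhds (r7.comp r5)
    have h0 : ((q₀.1 : X), e.symm (F q₀.1)) ∈ O := by
      have : e.symm (F q₀.1) = G q₀.1 := e.left_inv (hsrc q₀.1)
      rw [this]
      exact hG.gr q₀.1
    filter_upwards [r5.eventually (e.open_target.mem_nhds (e.map_source (hsrc q₀.1))),
      r9.eventually (hO.mem_nhds h0)] with p hp hp'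
    exact ⟨hp, hp'⟩
  obtain ⟨ε, ⟨⟨h1, h2⟩, h3⟩, hε⟩ :=
    (((ev1.and (eventually_all.2 fun j : Fin N => eventually_imp_distrib_left.2 (ev2 j))).and
      ev7).and self_mem_nhdsWithin).exists
  have hε0 : 0 < ε := hε
  have hoff' : ∀ u ∉ (D κ).A '' box m 1 1, F' ε u = e (G u) := hoff ε hε0
  have hKcl' : IsClosed (Subtype.val '' ((D κ).A '' box m 1 1) : Set X) := by
    rw [hKval]; exact hKcl
  have hglue_off : ∀ x, x ∉ a κ '' box m 1 1 → glue U e (F' ε) G x = G x := by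
    intro x hx
    exact glue_off U e (F' ε) G hsrc _ hoff' (by rw [hKval]; exact hx)
  have hpath : Pth m O ((D κ).U : Set X) G G (glue U e (F' ε) G) := by
    refine seg_path U e hesLD heLD (F' ε) G hG.gen hsrc (D κ).A (D κ).L (D κ).nb.ld
      (fun z hz => ?_) (hF's ε hε0) (fun u => htl ε hε0 u) hKcl' hoff' (hsg ε hε0) O hG.gr
      (fun u hu t ht => (h3 (u, t) ⟨hu, ht⟩).2) ((D κ).U : Set X) G (subset_refl _)
      (fun _ _ => rfl)
    have h4 := hG.der κ hk z hz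
    have h5 := (D κ).le8
    exact h4.trans_le (h5.trans (by norm_num))
  have hgen : Gen m (glue U e (F' ε) G) := by
    obtain ⟨K, -, k2, -, -, -, k6⟩ := seg_path U e hesLD heLD (F' ε) G hG.gen hsrc (D κ).A
      (D κ).L (D κ).nb.ld
      (fun z hz => (hG.der κ hk z hz).trans_le ((D κ).le8.trans (by norm_num))) (hF's ε hε0)
      (fun u => htl ε hε0 u) hKcl' hoff' (hsg ε hε0) O hG.gr
      (fun u hu t ht => (h3 (u, t) ⟨hu, ht⟩).2) univ G (subset_univ _) (fun _ _ => rfl)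
    have h4 := k2 1
    rwa [show (fun x => K (1, x)) = glue U e (F' ε) G from funext fun x => k6 1 le_rfl x] at h4
  refine ⟨glue U e (F' ε) G, ⟨hgen, ?_, ?_, ?_⟩, fun x hx => glue_out U e (F' ε) G hx,
    fun x hx => glue_LD U e hesLD heLD (F' ε) G hsrc (htgt ε hε0) (fun u hu => hld ε hε0 u hu) _
      hKcl' hoff' hx, hpath⟩
  · intro x
    by_cases hx : x ∈ a κ '' box m 1 1
    · rw [← hKval] at hx
      obtain ⟨u, hu, rfl⟩ := hx
      exact h1 u hu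
    · rw [hglue_off x hx]
      exact hG.gr x
  · intro j hj z hz
    by_cases hzO : z ∈ Oj j
    · exact h2 ⟨j, hOjN j hj z hzO⟩ hj z hzO
    · have hnot : a j z ∉ a κ '' box m 1 1 := fun h => hzO ⟨hz, h⟩
      have hev : (fun w => tl ((D j).L (chartAt (E (m + 1)) (D j).y0
          (glue U e (F' ε) G ((D j).A w : X))))) =ᶠ[𝓝 z]
          fun w => tl ((D j).L (chartAt (E (m + 1)) (D j).y0 (G ((D j).A w : X)))) := by
        have h3 : ∀ᶠ w in 𝓝 z, a j w ∈ (a κ '' box m 1 1)ᶜ :=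
          (haLD j z hz).continuousAt.tendsto.eventually (hKcl.isOpen_compl.mem_nhds hnot)
        filter_upwards [h3] with w hw
        have : glue U e (F' ε) G ((D j).A w : X) = G ((D j).A w : X) := hglue_off _ hw
        rw [this]
      rw [hev.fderiv_eq]
      exact hG.der j hj z hz
  · intro i hia hi' z hz
    rcases Nat.lt_succ_iff_lt_or_eq.1 hi' with h | h
    · exact glue_LD U e hesLD heLD (F' ε) G hsrc (htgt ε hε0) (fun u hu => hld ε hε0 u hu) _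
        hKcl' hoff' (hG.good i hia h z hz)
    · have hiκ : i = κ := h
      rw [hiκ]
      exact glue_LD' U e hesLD (F' ε) G (htgt ε hε0) (hgd ε hε0 z hz)

end Pool.Agent.V1127.Iso
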